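import Pool.Agent.P.MP_5d374e_co.S2.Small

/-!
The Helly cover criterion with a cubic number of sets.
-/

set_option autoImplicit false

namespace Pool.Agent.P.MP_5d374e_co.S2

open Finset

theorem both_iff_bounded (N : ℕ) (H : SimpleGraph (Fin N)) :
    (IRealizable H ∧ AlphaRealizable H) ↔ 0 < N ∧
      ∃ (k : ℕ) (B : Fin (N ^ 3 + N ^ 2 + 2 * N) → Set (Fin N)),
        (∀ x, {i | x ∈ B i}.ncard = k) ∧
        (∀ x y, (∀ i, x ∈ B i ↔ y ∈ B i) → x = y) ∧
        (∀ x y, H.Adj x y ↔ {i | x ∈ B i ∧ y ∈ B i}.ncard + 1 = k) ∧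
        (∀ J : Set (Fin (N ^ 3 + N ^ 2 + 2 * N)), k ≤ J.ncard →
          (∀ i ∈ J, ∀ j ∈ J, (B i ∩ B j).Nonempty) → ∃ x, ∀ i ∈ J, x ∈ B i) := by
  classical
  constructor
  · rintro ⟨-, h⟩
    obtain ⟨hN, K, ψ, h, hψ⟩ := small_rep h
    rw [show nb N = N ^ 3 + N ^ 2 + 2 * N by unfold nb; ring] at hψ
    generalize N ^ 3 + N ^ 2 + 2 * N = n at hψ
    have hc : ∀ (x : Fin N) (s : Finset ℕ), s ⊆ ψ x → {i : Fin n | i.1 ∈ s}.ncard = s.card := by
      intro x s hs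
      rw [← Set.ncard_image_of_injective _ Fin.val_injective, ← Set.ncard_coe_finset s]
      congr 1
      ext t
      constructor
      · rintro ⟨i, hi, rfl⟩
        exact hi
      · exact fun ht => ⟨⟨t, mem_range.1 (hψ x (hs ht))⟩, ht, rfl⟩
    refine ⟨hN, K, fun i => {x | i.1 ∈ ψ x}, fun x => ?_, fun x y e => ?_, fun x y => ?_,
      fun J h1 h2 => ?_⟩
    · rw [← h.card x]
      exact hc x _ Subset.rfl
    · exact h.inj x y (Finset.ext fun t => ⟨fun a => (e ⟨t, mem_range.1 (hψ x a)⟩).1 a,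
        fun a => (e ⟨t, mem_range.1 (hψ y a)⟩).2 a⟩)
    · rw [h.adj, ← hc x _ inter_subset_left]
      simp only [mem_inter]
      rfl
    · obtain ⟨x, hx⟩ := h.helly (J.toFinset.image Fin.val) (by
        rw [card_image_of_injective _ Fin.val_injective]
        rwa [Set.ncard_eq_toFinset_card'] at h1) (by
        intro a ha b hb
        obtain ⟨i, hi, rfl⟩ := mem_image.1 ha
        obtain ⟨j, hj, rfl⟩ := mem_image.1 hb
        obtain ⟨x, hx1, hx2⟩ := h2 i (Set.mem_toFinset.1 hi) j (Set.mem_toFinset.1 hj)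
        exact ⟨x, hx1, hx2⟩)
      exact ⟨x, fun i hi => hx (mem_image_of_mem _ (Set.mem_toFinset.2 hi))⟩
  · rintro ⟨hN, k, B, h⟩
    have := (alphaRealizable_iff H).2 ⟨⟨⟨0, hN⟩⟩, k, _, B, h⟩
    exact ⟨iRealizable_of_alphaRealizable H this, this⟩

end Pool.Agent.P.MP_5d374e_co.S2
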