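import Pool.Agent.P.MP_5d374e_co.S2.Tuples

/-!
If some choice of bits leaves no solution, the graph is an alpha-graph.
-/

set_option autoImplicit false

namespace Pool.Agent.P.MP_5d374e_co.S2

/-- merging of core values -/
def mc (u : ℕ → ℕ) (c : Co) : Co := if c.1 = 1 then ab c.2.1 (u c.2.1) else c

/-- merging of values -/
def mu (u : ℕ → ℕ) (x : Va) : Va := if x.1 = 0 then core (mc u x.2.1) else x

variable {u : ℕ → ℕ}

@[simp] theorem mu_core (c : Co) : mu u (core c) = core (mc u c) := rfl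
@[simp] theorem mu_hub (c : Co) : mu u (hub c) = hub c := rfl
@[simp] theorem mu_fill (c d : Co) : mu u (fill c d) = fill c d := rfl
@[simp] theorem mc_rl (p s : ℕ) : mc u (rl p s) = rl p s := rfl
@[simp] theorem mc_aa (p : ℕ) : mc u (aa p) = ab p (u p) := rfl
@[simp] theorem mc_ab (p s : ℕ) : mc u (ab p s) = ab p s := rfl
@[simp] theorem mc_rho (p s : ℕ) : mc u (rho p s) = rho p s := rfl

theorem mu_eq_hub {x : Va} {v : Co} (h : mu u x = hub v) : x = hub v := by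
  unfold mu at h
  split_ifs at h
  · simp at h
  · exact h

theorem mu_eq_fill {x : Va} {v w : Co} (h : mu u x = fill v w) : x = fill v w := by
  unfold mu at h
  split_ifs at h
  · simp at h
  · exact h

theorem mc_eq_rho {c : Co} {p l : ℕ} (h : mc u c = rho p l) : c = rho p l := by
  unfold mc at h
  split_ifs at h
  · simp [ab, rho] at h
  · exact h

theorem real_mu (x : Va) : real (mu u x) ↔ real x := by
  unfold mu real
  split_ifs with a
  · simp only [core, mc, a, true_and]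
    split_ifs with b
    · simp [ab, b]
    · rfl
  · rfl

namespace Inst

variable {I : Inst}

theorem shapeR {A : ℕ → Va} {v : Co} {j : ℕ} (h : I.Link A v j) (m l : ℕ) :
    st A v j m l = hub v ∨ (∃ p q, st A v j m l = fill p q) ∨
      ∃ c, st A v j m l = core c ∧ var c = l := by
  unfold st
  split_ifs
  · exact Or.inl rfl
  · exact Or.inr (h.shape l)

theorem Link.late {A : ℕ → Va} {v : Co} {j l : ℕ} (h : I.Link A v j) (h1 : l ≠ var v)
    (h2 : l ≠ j) : (∃ p q, A l = fill p q ∧ ((v = p ∧ j = var q) ∨ (v = q ∧ j = var p))) ∨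
      (A l = core (rho v.2.1 l) ∧ (v.1 = 2 ∨ v.1 = 3) ∧
        A = gad v.2.1 (if v.1 = 2 then v.2.2 else 0) ∧
        j = if v.1 = 2 then 2 * v.2.1 else 2 * v.2.1 + 1) := by
  cases h with
  | t1 v w h => exact Or.inl ⟨_, _, by simp [tau, h1, h2], Or.inl ⟨rfl, rfl⟩⟩
  | t2 v w h => exact Or.inl ⟨_, _, by simp [tau, h1, h2], Or.inr ⟨rfl, rfl⟩⟩
  | g1 p b => exact Or.inr ⟨if_neg h1, Or.inl rfl, rfl, rfl⟩
  | g2 p b => exact Or.inr ⟨if_neg h2, Or.inr rfl, rfl, rfl⟩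

theorem Lam.rho_left {p l : ℕ} {w : Co} : ¬ I.Lam (rho p l) w := by
  intro h
  generalize e : rho p l = v at h
  cases h <;> simp [rho, rl, aa, ab] at e

theorem Lam.rho_right {p l : ℕ} {w : Co} (h : I.Lam w (rho p l)) : w = aa p := by
  generalize e : rho p l = v at h
  cases h <;> simp_all [rho, rl, aa]

theorem link_det {A₁ A₂ A : ℕ → Va} {v w : Co} {j₁ j₂ j l₁ l₂ : ℕ} (h₁ : I.Link A₁ v j₁)
    (h₂ : I.Link A₂ v j₂) (h : I.Link A w j) (e₁ : A l₁ = A₁ l₁) (e₂ : A l₂ = A₂ l₂)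
    (a₁ : l₁ ≠ var v) (b₁ : l₁ ≠ j₁) (a₂ : l₂ ≠ var v) (b₂ : l₂ ≠ j₂) : A₁ = A₂ ∧ j₁ = j₂ := by
  have mixed : ∀ {p q : Co} {l l' : ℕ}, A l = fill p q → (v = p ∨ v = q) →
      A l' = core (rho v.2.1 l') → (v.1 = 2 ∨ v.1 = 3) → l' ≠ var v → False := by
    intro p q l l' f1 f2 f3 f4 f5
    obtain ⟨rfl, hl⟩ := h.of_fill f1
    rcases tau_core f3 with ⟨c, d⟩ | ⟨c, d⟩
    · exact Lam.rho_left (c ▸ hl)
    · have := Lam.rho_right (c ▸ hl)
      rcases f2 with f2 | f2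
      · rw [← f2] at this
        have := congrArg Prod.fst this
        simp only [aa] at this
        omega
      · exact f5 (f2 ▸ d)
  rcases h₁.late a₁ b₁ with ⟨p, q, c1, c2⟩ | ⟨c1, c2, c3, c4⟩ <;>
    rcases h₂.late a₂ b₂ with ⟨p', q', d1, d2⟩ | ⟨d1, d2, d3, d4⟩
  · obtain ⟨rfl, hl⟩ := h.of_fill (e₁.trans c1)
    obtain ⟨rfl, rfl⟩ := tau_fill (e₂.trans d1)
    refine ⟨(h₁.of_fill c1).1.trans (h₂.of_fill d1).1.symm, ?_⟩
    have := hl.var.1
    rcases c2 with ⟨rfl, rfl⟩ | ⟨rfl, rfl⟩ <;> rcases d2 with ⟨f, rfl⟩ | ⟨f, rfl⟩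
    · rfl
    · exact absurd (congrArg var f) this
    · exact absurd (congrArg var f).symm this
    · rfl
  · exact (mixed (e₁.trans c1) (c2.imp And.left And.left) (e₂.trans d1) d2 a₂).elim
  · exact (mixed (e₂.trans d1) (d2.imp And.left And.left) (e₁.trans c1) c2 a₁).elim
  · exact ⟨c3.trans d3.symm, c4.trans d4.symm⟩

theorem late_mu {A : ℕ → Va} {v : Co} {j l : ℕ} (h : I.Link A v j) (h1 : l ≠ var v)
    (h2 : l ≠ j) : mu u (A l) = A l ∧ ∀ {A' : ℕ → Va} {v' : Co} {j' : ℕ}, I.Link A' v' j' →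
      ∀ m, mu u (st A' v' j' m l) = A l → st A' v' j' m l = A l := by
  rcases h.late h1 h2 with ⟨p, q, c, -⟩ | ⟨c, -⟩
  · rw [c]
    exact ⟨rfl, fun _ _ e => mu_eq_fill e⟩
  · rw [c]
    refine ⟨rfl, fun h' m e => ?_⟩
    rcases shapeR h' m l with f | ⟨p, q, f⟩ | ⟨c', f, -⟩ <;> rw [f] at e ⊢
    · simp at e
    · simp at e
    · rw [mu_core] at e
      rw [mc_eq_rho (core_inj.1 e)]

theorem closed_hub {Y : Fin (2 * I.k) → Va}
    (hY : ∀ i j, ∃ Z ∈ I.R, mu u (Z i) = Y i ∧ mu u (Z j) = Y j) {l₀ : Fin (2 * I.k)} {v : Co}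
    (h₀ : Y l₀ = hub v) : ∃ Z ∈ I.R, ∀ i, mu u (Z i) = Y i := by
  classical
  have key : ∀ l : Fin (2 * I.k), ((l : ℕ) = var v → Y l = mu u (core v)) ∧
      ((l : ℕ) ≠ var v → Y l ≠ hub v → ∃ A j, I.Link A v j ∧ (l : ℕ) ≠ j ∧ Y l = A l) := by
    intro l
    obtain ⟨_, ⟨A, w, j, m, h, rfl⟩, e1, e2⟩ := hY l₀ l
    obtain ⟨rfl, c⟩ := st_hub h (mu_eq_hub (e1.trans h₀))
    simp only [res] at e2
    refine ⟨fun a => ?_, fun a b => ?_⟩
    · rw [← e2, st, if_neg (fun d => d.1 a), a, h.self.1]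
    · have d : ¬ chg w j m l := fun d => b (by rw [← e2, st, if_pos d]; rfl)
      have d' : (l : ℕ) ≠ j := fun d' => d ⟨a, c.2.1, Or.inl d'⟩
      refine ⟨A, j, h, d', ?_⟩
      rw [← e2, st, if_neg d, (late_mu h a d').1]
  by_cases hall : ∃ l : Fin (2 * I.k), (l : ℕ) ≠ var v ∧ Y l ≠ hub v
  · obtain ⟨l₁, ⟨a₁, n₁⟩, hmin⟩ := (Finset.univ.filter fun l : Fin (2 * I.k) =>
      (l : ℕ) ≠ var v ∧ Y l ≠ hub v).exists_min_image (fun l => (l : ℕ))
      (by simpa [Finset.Nonempty] using hall) |>.imp fun l h => And.intro (by simpa using h.1) h.2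
    obtain ⟨A₁, j₁, h₁, b₁, e₁⟩ := (key l₁).2 a₁ n₁
    refine ⟨_, h₁.mem (l₁ + 1), fun l => ?_⟩
    simp only [res]
    by_cases a : (l : ℕ) = var v
    · rw [(key l).1 a, st, if_neg (fun d => d.1 a), a, h₁.self.1]
    obtain ⟨_, ⟨A, w, j, m, h, rfl⟩, f1, f2⟩ := hY l₁ l
    simp only [res] at f1 f2
    obtain ⟨g1, g2⟩ := st_eq ((late_mu h₁ a₁ b₁).2 h m (f1.trans e₁)) (h₁.ne_hub _)
    by_cases n : Y l = hub v
    · obtain ⟨rfl, c⟩ := st_hub h (mu_eq_hub (f2.trans n))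
      have b : (l₁ : ℕ) ≠ j := fun d => g2 ⟨a₁, c.2.1, Or.inl d⟩
      have := (link_det h₁ h h g1 rfl a₁ b₁ a₁ b).2
      rw [n, st, if_pos, mu_hub]
      unfold chg at c g2 ⊢
      omega
    · obtain ⟨A₂, j₂, h₂, b₂, e₂⟩ := (key l).2 a n
      obtain ⟨g3, -⟩ := st_eq ((late_mu h₂ a b₂).2 h m (f2.trans e₂)) (h₂.ne_hub _)
      obtain ⟨rfl, rfl⟩ := link_det h₁ h₂ h g1 g3 a₁ b₁ a b₂
      have := hmin l (by simpa using ⟨a, n⟩)
      rw [e₂, st, if_neg, (late_mu h₁ a b₂).1]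
      unfold chg
      omega
  · obtain ⟨_, ⟨A, w, j, m, h, rfl⟩, e1, -⟩ := hY l₀ l₀
    obtain ⟨rfl, -⟩ := st_hub h (mu_eq_hub (e1.trans h₀))
    refine ⟨_, h.mem (2 * I.k + 1), fun l => ?_⟩
    rw [h.st_top (by omega)]
    simp only [res, eta]
    split_ifs with a
    · exact ((key l).1 a).symm
    · by_contra c
      exact hall ⟨l, a, fun d => c (by rw [d]; rfl)⟩

theorem closed_fill {Y : Fin (2 * I.k) → Va}
    (hY : ∀ i j, ∃ Z ∈ I.R, mu u (Z i) = Y i ∧ mu u (Z j) = Y j) (hn : ∀ l v, Y l ≠ hub v)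
    {l₀ : Fin (2 * I.k)} {p q : Co} (h₀ : Y l₀ = fill p q) :
    ∃ Z ∈ I.R, ∀ i, mu u (Z i) = Y i := by
  have key : ∀ l : Fin (2 * I.k), I.Lam p q ∧ mu u (tau p q l) = Y l := by
    intro l
    obtain ⟨_, ⟨A, w, j, m, h, rfl⟩, e1, e2⟩ := hY l₀ l
    obtain ⟨rfl, a⟩ := h.of_fill (st_eq (mu_eq_fill (e1.trans h₀)) (by simp)).1
    refine ⟨a, ?_⟩
    simp only [res, st] at e2
    split_ifs at e2
    · exact absurd e2.symm (hn _ _)
    · exact e2
  exact ⟨_, (Link.t1 _ _ (key l₀).1).mem0, fun l => (key l).2⟩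

theorem closed_core (hk : 2 ≤ I.k) (hu : ∀ p, u p < 2)
    (hE : ∀ p s q t, I.E p s q t → I.E q t p s) (hno : ¬ ∃ σ, I.Sol u σ)
    {Y : Fin (2 * I.k) → Va}
    (hY : ∀ i j, ∃ Z ∈ I.R, mu u (Z i) = Y i ∧ mu u (Z j) = Y j) (hn : ∀ l v, Y l ≠ hub v)
    (hf : ∀ l p q, Y l ≠ fill p q) : ∃ Z ∈ I.R, ∀ i, mu u (Z i) = Y i := by
  have key : ∀ l l' : Fin (2 * I.k), l ≠ l' → ∃ c d, Y l = core (mc u c) ∧ Y l' = core (mc u d) ∧
      var c = l ∧ var d = l' ∧ (I.Lam c d ∨ I.Lam d c ∨ ∃ p b, p < I.k ∧ b < 2 ∧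
        gad p b l = core c ∧ gad p b l' = core d) := by
    intro l l' hl
    obtain ⟨_, ⟨A, w, j, m, h, rfl⟩, e1, e2⟩ := hY l l'
    simp only [res] at e1 e2
    have k1 : ∀ l : Fin (2 * I.k), mu u (st A w j m l) = Y l →
        ∃ c, A l = core c ∧ var c = l ∧ Y l = core (mc u c) := by
      intro l e
      rcases shapeR h m l with f | ⟨p, q, f⟩ | ⟨c, f, g⟩
      · rw [f] at e
        exact absurd e.symm (hn _ _)
      · rw [f] at e
        exact absurd e.symm (hf _ _ _)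
      · exact ⟨c, (st_eq f (by simp)).1, g, by rw [← e, f]; rfl⟩
    obtain ⟨c, c1, c2, c3⟩ := k1 l e1
    obtain ⟨d, d1, d2, d3⟩ := k1 l' e2
    refine ⟨c, d, c3, d3, c2, d2, ?_⟩
    rcases h.two (fun e => hl (Fin.ext e)) c1 d1 with a | a | ⟨p, b, a1, a2, rfl⟩
    · exact Or.inl a
    · exact Or.inr (Or.inl a)
    · exact Or.inr (Or.inr ⟨p, b, a1, a2, c1, d1⟩)
  by_cases hr : ∃ l₀ p l, Y l₀ = core (rho p l)
  · obtain ⟨l₀, p, l', h₀⟩ := hr
    have k2 : ∀ l : Fin (2 * I.k), l ≠ l₀ → l' = l₀ ∧ p < I.k ∧ (l₀ : ℕ) ≠ 2 * p + 1 ∧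
        ∃ b < 2, Y l = gad p b l := by
      intro l hl
      obtain ⟨c, d, c1, d1, c2, d2, e⟩ := key l₀ l hl.symm
      obtain rfl := mc_eq_rho (core_inj.1 (c1.symm.trans h₀))
      refine ⟨c2, ?_⟩
      rcases e with e | e | ⟨p', b, a1, a2, a3, a4⟩
      · exact absurd e Lam.rho_left
      · obtain rfl := e.rho_right
        have e2 : p < I.k := by
          have := e.var
          simp only [var_aa] at this
          omega
        refine ⟨e2, ?_, u p, hu p, ?_⟩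
        · have := e.var.1
          simp only [var_aa, var_rho] at this c2
          omega
        · rw [var_aa] at d2
          rw [d1, gad, if_pos d2.symm]
          rfl
      · rcases gad_core a3 with ⟨f, -⟩ | ⟨f, g⟩
        · simp [rho, ab] at f
        · obtain rfl : p = p' := by simpa [rho] using congrArg (fun c => c.2.1) f
          refine ⟨a1, g, b, a2, ?_⟩
          rw [d1, a4]
          rcases gad_core a4 with ⟨rfl, -⟩ | ⟨rfl, -⟩ <;> rfl
    obtain ⟨l₁, hl₁⟩ : ∃ l₁, l₁ ≠ l₀ := by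
      have : Nontrivial (Fin (2 * I.k)) := Fin.nontrivial_iff_two_le.2 (by omega)
      exact exists_ne l₀
    obtain ⟨rfl, hp, hne, -⟩ := k2 l₁ hl₁
    obtain ⟨-, -, -, b, hb, eb⟩ := k2 ⟨2 * p + 1, by omega⟩ fun e => hne (by rw [← e])
    refine ⟨_, (Link.g1 p b hp hb).mem0, fun l => ?_⟩
    simp only [res]
    by_cases a : (l : ℕ) = 2 * p + 1
    · have : l = ⟨2 * p + 1, by omega⟩ := Fin.ext a
      rw [this, eb]
      simp [gad]
    · by_cases c : l = l₀
      · rw [c, h₀]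
        simp [gad, hne]
      · obtain ⟨-, -, -, b', -, e⟩ := k2 l c
        rw [e]
        simp [gad, a]
  · exfalso
    have key' : ∀ l l' : Fin (2 * I.k), l ≠ l' → ∃ c d, Y l = core (mc u c) ∧
        Y l' = core (mc u d) ∧ var c = l ∧ var d = l' ∧ c.1 ≠ 3 ∧ d.1 ≠ 3 ∧
          (I.Lam c d ∨ I.Lam d c) := by
      intro l l' hl
      obtain ⟨c, d, c1, d1, c2, d2, e⟩ := key l l' hl
      have n : ∀ (c : Co) (l : Fin (2 * I.k)), Y l = core (mc u c) → c.1 ≠ 3 := by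
        rintro ⟨t, p, s⟩ l e (rfl : t = 3)
        exact hr ⟨l, p, s, e⟩
      refine ⟨c, d, c1, d1, c2, d2, n c l c1, n d l' d1, ?_⟩
      rcases e with e | e | ⟨p, b, -, -, a3, a4⟩
      · exact Or.inl e
      · exact Or.inr e
      · rcases gad_core a3 with ⟨-, f⟩ | ⟨rfl, -⟩
        · rcases gad_core a4 with ⟨-, g⟩ | ⟨rfl, -⟩
          · exact absurd (Fin.ext (f.trans g.symm)) hl
          · exact absurd rfl (n _ _ d1)
        · exact absurd rfl (n _ _ c1)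
    let σ : ℕ → ℕ := fun p => if h : 2 * p < 2 * I.k then (Y ⟨2 * p, h⟩).2.1.2.2 else 0
    have hσ : ∀ p (h : 2 * p < 2 * I.k) q s, Y ⟨2 * p, h⟩ = core (rl q s) → σ p = s := by
      intro p h q s e
      simp only [σ, h, dif_pos, e]
      rfl
    refine hno ⟨σ, fun p hp => ?_, fun p hp q hq hpq => ?_⟩
    · have hq : (if p = 0 then 1 else 0) < I.k ∧ (if p = 0 then 1 else 0) ≠ p := by
        split_ifs <;> omega
      generalize (if p = 0 then 1 else 0) = q at hq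
      have e0 : Y ⟨2 * p + 1, by omega⟩ = core (ab p (u p)) := by
        obtain ⟨c, d, c1, d1, c2, d2, c3, d3, e⟩ := key' ⟨2 * p + 1, by omega⟩ ⟨2 * q, by omega⟩
          (by simp only [ne_eq, Fin.mk.injEq]; omega)
        rcases e with e | e <;> cases e <;>
          simp only [var_rl, var_aa, var_ab, rho, ne_eq, not_true_eq_false] at c2 d2 c3 d3
          <;> first | omega | skip
        rename_i p' _ _ _ _ _ _
        obtain rfl : p' = p := by omega
        exact c1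
      obtain ⟨c, d, c1, d1, c2, d2, c3, d3, e⟩ := key' ⟨2 * p + 1, by omega⟩ ⟨2 * p, by omega⟩
        (by simp only [ne_eq, Fin.mk.injEq]; omega)
      rcases e with e | e <;> cases e <;>
        simp only [var_rl, var_aa, var_ab, rho, ne_eq, not_true_eq_false] at c2 d2 c3 d3
        <;> first | omega | skip
      rename_i p' b s h1 h2 h3 h4
      obtain rfl : p' = p := by omega
      rw [mc_ab] at c1
      obtain rfl : b = u p' := by simpa [ab] using c1.symm.trans e0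
      rw [hσ _ _ _ _ d1]
      exact ⟨h3, h4⟩
    · obtain ⟨c, d, c1, d1, c2, d2, c3, d3, e⟩ := key' ⟨2 * p, by omega⟩ ⟨2 * q, by omega⟩
        (by simp only [ne_eq, Fin.mk.injEq]; omega)
      rcases e with e | e <;> cases e <;>
        simp only [var_rl, var_aa, var_ab, rho, ne_eq, not_true_eq_false] at c2 d2 c3 d3
        <;> first | omega | skip
      · rename_i p' s q' t _ _ _ _ _ h
        obtain rfl : p' = p := by omega
        obtain rfl : q' = q := by omega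
        rwa [hσ _ _ _ _ c1, hσ _ _ _ _ d1]
      · rename_i q' t p' s _ _ _ _ _ h
        obtain rfl : p' = p := by omega
        obtain rfl : q' = q := by omega
        rw [hσ _ _ _ _ c1, hσ _ _ _ _ d1]
        exact hE _ _ _ _ h

theorem sep_aux {X Y : Fin (2 * I.k) → Va} (hX : X ∈ I.R) (hY : Y ∈ I.R) {i : Fin (2 * I.k)}
    {c d : Co} (e1 : X i = core c) (e2 : Y i = core d) (hcd : c ≠ d) (hc : c.1 = 1) :
    ∃ l₀ : ℕ, ∀ l, l ≠ i → (l : ℕ) ≠ l₀ → mu u (X l) ≠ mu u (Y l) := by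
  obtain ⟨A, v, j, m, h, rfl⟩ := hX
  obtain ⟨A', v', j', m', h', rfl⟩ := hY
  simp only [res] at e1 e2 ⊢
  obtain ⟨f1, f2⟩ := st_eq e1 (by simp)
  obtain ⟨g1, g2⟩ := st_eq e2 (by simp)
  have hv : var c = i := by
    rcases h.shape i with ⟨p, q, a⟩ | ⟨c', a, b⟩
    · simp [a] at f1
    · rwa [← core_inj.1 (a.symm.trans f1)]
  have nh : ∀ l : ℕ, mu u (st A' v' j' m' l) ≠ hub c := by
    intro l a
    obtain ⟨rfl, -⟩ := st_hub h' (mu_eq_hub a)
    rw [← hv, h'.self.1] at g1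
    exact hcd (core_inj.1 g1)
  have nf : ∀ (l : ℕ) p q, tau p q i = core c → mu u (st A' v' j' m' l) ≠ fill p q := by
    intro l p q a b
    obtain ⟨rfl, -⟩ := h'.of_fill (st_eq (mu_eq_fill b) (by simp)).1
    exact hcd (core_inj.1 (a.symm.trans g1))
  have main : ∀ p q j, (A = tau p q) → ((v = p ∧ j = var q) ∨ (v = q ∧ j = var p)) →
      ¬ chg v j m i → var p ≠ var q →
      ∃ l₀ : ℕ, ∀ l : Fin (2 * I.k), l ≠ i → (l : ℕ) ≠ l₀ →
        mu u (st A v j m l) ≠ mu u (st A' v' j' m' l) := by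
    rintro p q j rfl a f2 hpq
    refine ⟨if c = p then var q else var p, fun l b1 b2 => ?_⟩
    have b1' : (l : ℕ) ≠ i := fun e => b1 (Fin.ext e)
    have hl : (l : ℕ) ≠ var p ∧ (l : ℕ) ≠ var q := by
      rcases tau_core f1 with ⟨a1, a2⟩ | ⟨a1, a2⟩
      · rw [if_pos a1] at b2
        omega
      · rw [if_neg (fun e => hpq (by rw [← e, a1]))] at b2
        omega
    by_cases c1 : chg v j m l
    · have : v = c := by
        unfold chg at c1 f2
        rcases tau_core f1 with ⟨a1, a2⟩ | ⟨a1, a2⟩ <;> rcases a with ⟨a3, a4⟩ | ⟨a3, a4⟩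
        · rw [a1, a3]
        · subst a3
          omega
        · subst a3
          omega
        · rw [a1, a3]
      have e : st (tau p q) v j m l = hub c := this ▸ if_pos c1
      rw [e]
      exact (nh l).symm
    · have e : st (tau p q) v j m l = fill p q := by simp [st, c1, tau, hl.1, hl.2]
      rw [e]
      exact (nf l p q f1).symm
  have ng : ∀ p b, gad p b i ≠ core c := by
    intro p b a
    rcases gad_core a with ⟨rfl, -⟩ | ⟨rfl, -⟩ <;> simp [ab, rho] at hc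
  cases h with
  | t1 v w h => exact main _ _ _ rfl (Or.inl ⟨rfl, rfl⟩) f2 h.var.1
  | t2 v w h => exact main _ _ _ rfl (Or.inr ⟨rfl, rfl⟩) f2 h.var.1
  | g1 => exact absurd f1 (ng _ _)
  | g2 => exact absurd f1 (ng _ _)

theorem complete (hk : 2 ≤ I.k) (hfin : I.R.Finite) (hu : ∀ p, u p < 2)
    (hE : ∀ p s q t, I.E p s q t → I.E q t p s) (hno : ¬ ∃ σ, I.Sol u σ) :
    AlphaRealizable (hamG (probe real I.R)) := by
  refine alpha_probe hfin ⟨_, (Link.g1 0 0 (by omega) (by omega)).mem0⟩ (mu u) real_mu ?_ ?_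
  · intro X hX Y hY i h1 h2 j
    have sh : ∀ X ∈ I.R, (∃ v, X i = hub v) ∨ (∃ p q, X i = fill p q) ∨ ∃ c, X i = core c := by
      rintro _ ⟨A, v, j, m, h, rfl⟩
      rcases shapeR h m i with f | f | ⟨c, f, -⟩
      · exact Or.inl ⟨v, f⟩
      · exact Or.inr (Or.inl f)
      · exact Or.inr (Or.inr ⟨c, f⟩)
    have key : ∃ l₀ : ℕ, ∀ l, l ≠ i → (l : ℕ) ≠ l₀ → mu u (X l) ≠ mu u (Y l) := by
      rcases sh X hX with ⟨v, a⟩ | ⟨p, q, a⟩ | ⟨c, a⟩
      · rw [a] at h1 h2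
        exact absurd (mu_eq_hub h2.symm).symm h1
      · rw [a] at h1 h2
        exact absurd (mu_eq_fill h2.symm).symm h1
      rcases sh Y hY with ⟨v, b⟩ | ⟨p, q, b⟩ | ⟨d, b⟩
      · rw [b] at h1 h2
        exact absurd (mu_eq_hub h2) h1
      · rw [b] at h1 h2
        exact absurd (mu_eq_fill h2) h1
      have hcd : c ≠ d := fun e => h1 (by rw [a, b, e])
      by_cases hc : c.1 = 1
      · exact sep_aux hX hY a b hcd hc
      · by_cases hd : d.1 = 1
        · exact (sep_aux hY hX b a hcd.symm hd).imp fun _ h l x y => (h l x y).symm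
        · rw [a, b, mu_core, mu_core, mc, mc, if_neg hc, if_neg hd] at h2
          exact absurd (core_inj.1 h2) hcd
    obtain ⟨l₀, key⟩ := key
    obtain ⟨l, hl, a⟩ : ∃ l < 4, l ≠ (i : ℕ) ∧ l ≠ l₀ ∧ l ≠ (j : ℕ) := by
      by_contra hc
      push Not at hc
      have h0 := hc 0 (by omega)
      have h1 := hc 1 (by omega)
      have h2 := hc 2 (by omega)
      have h3 := hc 3 (by omega)
      omega
    exact ⟨⟨l, by omega⟩, fun e => a.2.2 (by rw [← e]),
      key _ (fun e => a.1 (by rw [← e])) a.2.1⟩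
  · intro Y hY
    by_cases a : ∃ l v, Y l = hub v
    · obtain ⟨l, v, a⟩ := a
      exact closed_hub hY a
    have a' : ∀ l v, Y l ≠ hub v := fun l v e => a ⟨l, v, e⟩
    by_cases b : ∃ l p q, Y l = fill p q
    · obtain ⟨l, p, q, b⟩ := b
      exact closed_fill hY a' b
    exact closed_core hk hu hE hno hY a' fun l p q e => b ⟨l, p, q, e⟩

end Inst

end Pool.Agent.P.MP_5d374e_co.S2
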