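import Pool.Agent.P.MP_5d374e_co.Defs
import Pool.Agent.P.MP_ba7db8_lc.Defs

set_option autoImplicit false

namespace Pool.Agent.P.MP_5d374e_co.S2

open Pool.Agent.P.MP_ba7db8_lc

/-- The second existential level of the polynomial hierarchy, by polynomial-time verifiers. -/
def InSigma2 (L : Set (List Bool)) : Prop :=
  ∃ (V : List Bool → Bool) (p : Polynomial ℕ),
    Nonempty (Turing.TM2ComputableInPolyTime id Computability.encodeBool V) ∧
      ∀ x, x ∈ L ↔ ∃ u : List Bool, u.length ≤ p.eval x.length ∧
        ∀ w : List Bool, w.length ≤ p.eval x.length → V (pair (pair x u) w) = true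

/-- The adjacency matrices of the graphs that are both `i`-graphs and `α`-graphs. -/
def BothLang : Set (List Bool) :=
  {x | ∃ (N : ℕ) (H : SimpleGraph (Fin N)), x = adjBits H ∧ IRealizable H ∧ AlphaRealizable H}

end Pool.Agent.P.MP_5d374e_co.S2
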