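import Pool.Agent.P.MP_5d374e_co.S2.Tuples

/-!
If the graph is an alpha-graph, some choice of bits leaves no solution.
-/

set_option autoImplicit false

namespace Pool.Agent.P.MP_5d374e_co.S2

theorem flag2 {ι V : Type} [DecidableEq ι] {real : V → Prop} {R : Set (ι → V)} {X : ι → V}
    (hX : X ∈ R) {i j : ι} (hij : i ≠ j) (a b : Bool)
    (h : a = true → b = true → real (X i) ∧ real (X j)) :
    ∃ Y ∈ probe real R, Y i = (X i, a) ∧ Y j = (X j, b) := by
  refine ⟨fun l => (X l, if l = i then a else if l = j then b else false), ⟨hX, ?_⟩, by simp,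
    by simp [hij.symm]⟩
  intro l l' hl h1 h2
  simp only at h1 h2 ⊢
  split_ifs at h1 h2 <;> simp_all

namespace Inst

variable {I : Inst}

theorem Lam.co {v w : Co} (h : I.Lam v w) {i j : Fin (2 * I.k)} (hi : (i : ℕ) = S2.var v)
    (hj : (j : ℕ) = S2.var w) (a b : Bool) (hab : a = true → b = true → v.1 = 0 ∧ w.1 = 0) :
    ∃ Y ∈ probe real I.R, Y i = (core v, a) ∧ Y j = (core w, b) := by
  have e1 : I.res (tau v w) i = core v := by simp only [res, hi, tau_fst]
  have e2 : I.res (tau v w) j = core w := by simp only [res, hj, h.tau_snd]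
  have := flag2 (real := real) (Link.t1 _ _ h).mem0 (i := i) (j := j)
    (fun e => h.var.1 (by rw [← hi, ← hj, e])) a b (by
      rw [e1, e2]
      intro x y
      exact ⟨⟨rfl, (hab x y).1⟩, ⟨rfl, (hab x y).2⟩⟩)
  rwa [e1, e2] at this

theorem line_rho (hk : 2 ≤ I.k) {Z : Fin (2 * I.k) → Va} (hZ : Z ∈ I.R) {p : ℕ} (hp : p < I.k)
    (h : ∀ l : Fin (2 * I.k), (l : ℕ) ≠ 2 * p + 1 → Z l = core (rho p l)) :
    (∃ b < 2, Z ⟨2 * p + 1, by omega⟩ = core (ab p b)) ∨
      ∃ l < 2 * I.k, l ≠ 2 * p + 1 ∧ Z ⟨2 * p + 1, by omega⟩ = hub (rho p l) := by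
  obtain ⟨A, v, j, m, hl, rfl⟩ := hZ
  have hq : (if p = 0 then 2 else 0) < 2 * I.k ∧ (if p = 0 then 2 else 0) ≠ 2 * p ∧
      (if p = 0 then 2 else 0) ≠ 2 * p + 1 := by
    split_ifs <;> omega
  generalize (if p = 0 then 2 else 0) = q at hq
  have e1 := (st_eq (h ⟨2 * p, by omega⟩ (by simp)) (by simp)).1
  have e2 := (st_eq (h ⟨q, hq.1⟩ hq.2.2) (by simp)).1
  simp only at e1 e2
  have nt : ∀ v w, I.Lam v w → tau v w (2 * p) = core (rho p (2 * p)) →
      tau v w q = core (rho p q) → False := by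
    intro v w a b c
    rcases tau_core b with ⟨f, g⟩ | ⟨f, g⟩ <;> rcases tau_core c with ⟨f', g'⟩ | ⟨f', g'⟩
    · omega
    · rw [← f] at a
      generalize e : rho p (2 * p) = x at a
      cases a <;> simp [rho, rl, aa, ab] at e
    · rw [← f'] at a
      generalize e : rho p q = x at a
      cases a <;> simp [rho, rl, aa, ab] at e
    · omega
  have ge : ∀ p' b, gad p' b (2 * p) = core (rho p (2 * p)) → p' = p := by
    intro p' b a
    rcases gad_core a with ⟨f, -⟩ | ⟨f, -⟩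
    · simp [rho, ab] at f
    · simpa [rho] using f.symm
  cases hl with
  | t1 v w a => exact (nt _ _ a e1 e2).elim
  | t2 v w a => exact (nt _ _ a e1 e2).elim
  | g1 p' b h1 h2 =>
    obtain rfl := ge _ _ e1
    exact Or.inl ⟨b, h2, by simp [res, st, chg, gad]⟩
  | g2 p' l h1 h2 h3 =>
    obtain rfl := ge _ _ e1
    by_cases c : chg (rho p' l) (2 * p' + 1) m (2 * p' + 1)
    · exact Or.inr ⟨l, h2, h3, if_pos c⟩
    · exact Or.inl ⟨0, by omega, by simp [res, st, c, gad]⟩

theorem choice {T : Type} {g : Fin (2 * I.k) → Va × Bool → T} (hg : Rigid (probe real I.R) g)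
    (hk : 2 ≤ I.k) {p : ℕ} (hp : p < I.k) : ∃ b < 2,
      g ⟨2 * p + 1, by omega⟩ (core (aa p), false) =
        g ⟨2 * p + 1, by omega⟩ (core (ab p b), false) := by
  set y : Fin (2 * I.k) := ⟨2 * p + 1, by omega⟩ with hy
  let x : Fin (2 * I.k) := ⟨2 * p, by omega⟩
  have hxy : x ≠ y := by simp [x, y]
  have hy' : ∀ l : Fin (2 * I.k), l ≠ y → (l : ℕ) ≠ 2 * p + 1 := fun l a b => a (Fin.ext b)
  let Z₀ := p1 (I.res (gad p 0)) x
  have hZ₀ : Z₀ ∈ probe real I.R := p1_mem (Link.g1 p 0 hp (by omega)).mem0 x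
  have z1 : ∀ l, l ≠ y → Z₀ l = (core (rho p l), decide (l = x)) := fun l a => by
    simp [Z₀, p1, res, gad, hy' l a]
  have z2 : Z₀ y = (core (ab p 0), false) := by simp [Z₀, p1, res, gad, y, x]
  have hw : ∀ j, j ≠ y → ∃ Y ∈ probe real I.R, Y y = (core (aa p), false) ∧ Y j = Z₀ j := by
    intro j a
    rw [z1 j a]
    exact (Lam.ap p j hp j.2 (hy' j a)).co rfl rfl _ _ (by simp)
  obtain ⟨Y, hY, -, e⟩ := hg.helly
    (fun l => if l = y then g y (core (aa p), false) else g l (Z₀ l)) (by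
      intro i j hij
      by_cases a : i = y
      · have b : j ≠ y := fun b => hij (a.trans b.symm)
        obtain ⟨Y, hY, c, d⟩ := hw j b
        exact ⟨Y, hY, y, j, b.symm, by simp [a, c], by simp [b, d]⟩
      · by_cases b : j = y
        · obtain ⟨Y, hY, c, d⟩ := hw i a
          exact ⟨Y, hY, i, y, a, by simp [a, d], by simp [b, c]⟩
        · exact ⟨Z₀, hZ₀, i, j, hij, by simp [a], by simp [b]⟩) |>.imp fun Y h =>
      And.intro h.1 (And.intro trivial h.2)
  obtain ⟨j₀, hj₀⟩ := hg.near Z₀ hZ₀ Y hY y fun i a => by simpa [a] using e.1 i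
  obtain ⟨i, hi⟩ := e.2 y
  by_cases c : j₀ = y
  · subst c
    have hiy : i = y := by
      by_contra a
      simp only [a, if_false, hj₀ i a] at hi
      exact a (hg.inj Y hY _ _ hi)
    simp only [hiy, if_true] at hi
    have f : (Y y).2 = false := by
      by_contra a
      have := hY.2 x y hxy (by rw [← hj₀ x hxy, z1 x hxy]; simp) (by simpa using a)
      rw [← hj₀ x hxy, z1 x hxy] at this
      simp [real, core, rho] at this
    rcases line_rho hk hY.1 hp (fun l a => by
      have a' : l ≠ y := fun b => a (by rw [b])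
      simp only [← hj₀ l a', z1 l a']) with ⟨b, h1, h2⟩ | ⟨l, h1, h2, h3⟩
    · exact ⟨b, h1, hi.trans (congrArg _ (Prod.ext h2 f))⟩
    · exfalso
      have hl := Lam.ap p l hp h1 h2
      have e1 : I.res (tau (aa p) (rho p l)) y = core (aa p) := by simp [res, tau, y]
      have e2 : I.res (st (tau (aa p) (rho p l)) (rho p l) (var (aa p)) 1) y = hub (rho p l) := by
        simp [res, st, chg, y, h2.symm]
      have := hg.sep _ (p0_mem (Link.t1 _ _ hl).mem0) _ (p0_mem ((Link.t2 _ _ hl).mem 1))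
        fun i => ⟨i, by
          by_cases a : i = y
          · rw [a]
            simp only [p0, e1, e2]
            exact hi.trans (congrArg _ (Prod.ext h3 f))
          · simp [p0, res, st, chg, hy' i a]⟩
      have := congrArg Prod.fst (congrFun this y)
      simp only [p0, e1, e2] at this
      simp at this
  · rw [← hj₀ y (Ne.symm c)] at hi
    by_cases a : i = y
    · simp only [a, if_true] at hi
      exact ⟨0, by omega, hi.trans (by rw [z2])⟩
    · simp only [a, if_false] at hi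
      exact absurd (hg.inj Z₀ hZ₀ _ _ hi) a

theorem sound (hk : 2 ≤ I.k) (hfin : (probe real I.R).Finite)
    (hcard : (probe real I.R).ncard < 2 ^ I.k) (h : AlphaRealizable (hamG (probe real I.R))) :
    ∃ u : ℕ → ℕ, (∀ p, u p < 2) ∧ ¬ ∃ σ, I.Sol u σ := by
  have : Nontrivial (Fin (2 * I.k)) := Fin.nontrivial_iff_two_le.2 (by omega)
  obtain ⟨n, g, hg⟩ := exists_rigid ⟨_, (Link.g1 0 0 (by omega) (by omega)).mem0⟩
    (fun X hX => two_real hX) connB (connC hk) h
  have hch : ∀ p, ∃ b < 2, ∀ hp : p < I.k, g ⟨2 * p + 1, by omega⟩ (core (aa p), false) =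
      g ⟨2 * p + 1, by omega⟩ (core (ab p b), false) := by
    intro p
    by_cases hp : p < I.k
    · obtain ⟨b, h1, h2⟩ := choice hg hk hp
      exact ⟨b, h1, fun _ => h2⟩
    · exact ⟨0, by omega, fun a => absurd a hp⟩
  choose u hu hu' using hch
  refine ⟨u, hu, ?_⟩
  rintro ⟨σ, h1, h2⟩
  have hd : ∀ l : Fin (2 * I.k), (l : ℕ) / 2 < I.k := fun l => by omega
  let val : (Fin I.k → Bool) → Fin (2 * I.k) → Va × Bool := fun f l =>
    if (l : ℕ) % 2 = 0 then (core (rl (l / 2) (σ (l / 2))), f ⟨l / 2, hd l⟩)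
    else (core (aa (l / 2)), false)
  have P0 : ∀ f f' (i j : Fin (2 * I.k)), (i : ℕ) % 2 ≠ 0 → (j : ℕ) % 2 = 0 →
      ∃ Y ∈ probe real I.R, g i (val f i) = g i (Y i) ∧ g j (val f' j) = g j (Y j) := by
    intro f f' i j a b
    simp only [val, a, b, if_true, if_false]
    by_cases c : (i : ℕ) / 2 = j / 2
    · obtain ⟨Y, hY, d, e⟩ := (Lam.br _ _ _ (hd j) (hu _) (h1 _ (hd j)).1 (h1 _ (hd j)).2).co
        (i := i) (j := j) (by simp; omega) (by simp; omega) false (f' ⟨j / 2, hd j⟩) (by simp)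
      refine ⟨Y, hY, ?_, by rw [e]⟩
      have : i = ⟨2 * (j / 2) + 1, by omega⟩ := Fin.ext (by simp; omega)
      rw [d, c, this]
      exact hu' _ (hd j)
    · obtain ⟨Y, hY, d, e⟩ := (Lam.ar _ _ _ (hd i) (hd j) (h1 _ (hd j)).1 c).co
        (i := i) (j := j) (by simp; omega) (by simp; omega) false (f' ⟨j / 2, hd j⟩) (by simp)
      exact ⟨Y, hY, by rw [d], by rw [e]⟩
  have P : ∀ f f' (i j : Fin (2 * I.k)), i ≠ j →
      ∃ Y ∈ probe real I.R, g i (val f i) = g i (Y i) ∧ g j (val f' j) = g j (Y j) := by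
    intro f f' i j hij
    have hij' : (i : ℕ) ≠ j := fun e => hij (Fin.ext e)
    by_cases a : (i : ℕ) % 2 = 0 <;> by_cases b : (j : ℕ) % 2 = 0
    · simp only [val, a, b, if_true]
      obtain ⟨Y, hY, d, e⟩ := (Lam.rr _ _ _ _ (hd i) (hd j) (h1 _ (hd i)).1 (h1 _ (hd j)).1
        (by omega) (h2 _ (hd i) _ (hd j) (by omega))).co (i := i) (j := j) (by simp; omega)
        (by simp; omega) (f ⟨i / 2, hd i⟩) (f' ⟨j / 2, hd j⟩) (by simp [rl])
      exact ⟨Y, hY, by rw [d], by rw [e]⟩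
    · obtain ⟨Y, hY, d, e⟩ := P0 f' f j i b a
      exact ⟨Y, hY, e, d⟩
    · exact P0 f f' i j a b
    · simp only [val, a, b, if_false]
      obtain ⟨Y, hY, d, e⟩ := (Lam.a2 _ _ (hd i) (hd j) (by omega)).co (i := i) (j := j)
        (by simp; omega) (by simp; omega) false false (by simp)
      exact ⟨Y, hY, by rw [d], by rw [e]⟩
  have hY : ∀ f, ∃ Y ∈ probe real I.R, (∀ i, ∃ j, g i (val f i) = g j (Y j)) ∧
      ∀ j, ∃ i, g i (val f i) = g j (Y j) := fun f =>
    hg.helly (fun i => g i (val f i)) fun i j hij => by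
      obtain ⟨Y, hY, a, b⟩ := P f f i j hij
      exact ⟨Y, hY, i, j, hij, a, b⟩
  choose Y hY1 hY2 hY3 using hY
  have hinj : Function.Injective Y := by
    intro f f' e
    funext p
    by_contra hne
    let x : Fin (2 * I.k) := ⟨2 * p, by omega⟩
    obtain ⟨j, hj⟩ := hY2 f x
    obtain ⟨i, hi⟩ := hY3 f' j
    rw [← e, ← hj] at hi
    by_cases a : i = x
    · obtain ⟨q, hq⟩ : ∃ q : ℕ, q < I.k ∧ q ≠ p :=
        ⟨if (p : ℕ) = 0 then 1 else 0, by split_ifs <;> omega⟩
      have hl := Lam.ar q p (σ p) hq.1 p.2 (h1 p p.2).1 hq.2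
      have e1 : I.res (tau (aa q) (rl p (σ p))) x = core (rl p (σ p)) := hl.tau_snd
      have e2 : ∀ f, val f x = (core (rl p (σ p)), f p) := fun f => by simp [val, x]
      rw [a, e2, e2] at hi
      have e3 : g x (core (rl p (σ p)), false) = g x (core (rl p (σ p)), true) := by
        cases b : f p <;> cases c : f' p <;> simp_all
      have := hg.sep _ (p0_mem (Link.t1 _ _ hl).mem0) _ (p1_mem (Link.t1 _ _ hl).mem0 x)
        fun i => ⟨i, by
          by_cases a : i = x
          · rw [a]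
            simpa only [p0, p1, e1, decide_true] using e3
          · simp [p0, p1, a]⟩
      have := congrArg Prod.snd (congrFun this x)
      simp [p0, p1] at this
    · obtain ⟨Z, hZ, c, d⟩ := P f' f i x a
      exact a (hg.inj Z hZ _ _ (by rw [← c, ← d, hi]))
  have := Set.ncard_le_ncard_of_injOn (s := Set.univ) Y (fun f _ => hY1 f) hinj.injOn hfin
  rw [Set.ncard_univ, Nat.card_eq_fintype_card, Fintype.card_fun, Fintype.card_bool,
    Fintype.card_fin] at this
  omega

end Inst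

end Pool.Agent.P.MP_5d374e_co.S2
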