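import Pool.Agent.P.MP_5d374e_co.S2.Complete
import Pool.Agent.P.MP_5d374e_co.S2.Sound
import Pool.Agent.P.MP_ba7db8_lc.Defs

/-!
The graph of an instance as an explicit adjacency matrix.
-/

set_option autoImplicit false

namespace Pool.Agent.P.MP_5d374e_co.S2

open Pool.Agent.P.MP_ba7db8_lc

section Generic

variable {W : Type} [DecidableEq W]

/-- Removal of duplicates. -/
def dd (L : List W) (d : W) : List W :=
  ((List.range L.length).filter fun i => L.idxOf (L.getD i d) == i).map fun i => L.getD i d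

theorem mem_dd (L : List W) (d x : W) : x ∈ dd L d ↔ x ∈ L := by
  simp only [dd, List.mem_map, List.mem_filter, List.mem_range, beq_iff_eq]
  constructor
  · rintro ⟨i, ⟨h, -⟩, rfl⟩
    simp [List.getD_eq_getElem?_getD, h]
  · intro h
    have h1 := List.idxOf_lt_length_of_mem h
    have h2 : L.getD (L.idxOf x) d = x := by simp [List.getD_eq_getElem?_getD, h1]
    exact ⟨L.idxOf x, ⟨h1, by rw [h2]⟩, h2⟩

theorem nodup_dd (L : List W) (d : W) : (dd L d).Nodup := by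
  refine List.Nodup.map_on ?_ (List.nodup_range.filter _)
  intro i hi j hj e
  simp only [List.mem_filter, beq_iff_eq] at hi hj
  rw [← hi.2, ← hj.2, e]

theorem length_dd (L : List W) (d : W) : (dd L d).length ≤ L.length := by
  rw [dd, List.length_map]
  exact (List.length_filter_le _ _).trans (by simp)

/-- Adjacency of the entries `a`, `b` of a list of tuples. -/
def adjL (L : List (List W)) (d : W) (K a b : ℕ) : Prop :=
  a ≠ b ∧ ∃ j < K, ∀ l < K, l ≠ j → (L.getD a []).getD l d = (L.getD b []).getD l d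

/-- The graph of a list of tuples. -/
def graphL (L : List (List W)) (d : W) (K : ℕ) : SimpleGraph (Fin L.length) where
  Adj a b := adjL L d K a b
  symm := ⟨fun _ _ h => ⟨h.1.symm, h.2.imp fun _ hj => ⟨hj.1, fun l a b => (hj.2 l a b).symm⟩⟩⟩
  loopless := ⟨fun _ h => h.1 rfl⟩

open Classical in
/-- The adjacency matrix of a list of tuples. -/
noncomputable def bitsL (L : List (List W)) (d : W) (K : ℕ) : List Bool :=
  (List.range L.length).flatMap fun a => (List.range L.length).map fun b => decide (adjL L d K a b)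

omit [DecidableEq W] in
theorem bitsL_eq (L : List (List W)) (d : W) (K : ℕ) : bitsL L d K = adjBits (graphL L d K) := by
  have hr : ∀ n, List.range n = (List.finRange n).map Fin.val := fun n => by
    apply List.ext_getElem <;> simp
  unfold bitsL adjBits
  rw [hr, List.flatMap_map]
  refine congrArg (List.flatMap · _) (funext fun u => ?_)
  rw [List.map_map]
  rfl

omit [DecidableEq W] in
theorem graphL_iso {K : ℕ} {S : Set (Fin K → W)} {L : List (List W)} (d : W) (hL : L.Nodup)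
    (h : ∀ x, x ∈ L ↔ ∃ Y ∈ S, x = List.ofFn Y) :
    S.Finite ∧ S.ncard = L.length ∧ Nonempty (graphL L d K ≃g hamG S) := by
  have h1 : ∀ a : Fin L.length, ∃ Y : S, L[a] = List.ofFn Y.1 := fun a => by
    obtain ⟨Y, hY, e⟩ := (h _).1 (List.getElem_mem a.2)
    exact ⟨⟨Y, hY⟩, e⟩
  choose f hf using h1
  have hinj : Function.Injective f := fun a b e =>
    Fin.ext ((hL.getElem_inj_iff (hi := a.2) (hj := b.2)).1
      ((hf a).trans (e ▸ (hf b).symm)))
  have hsur : Function.Surjective f := by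
    rintro ⟨Y, hY⟩
    obtain ⟨a, ha, e⟩ := List.getElem_of_mem ((h _).2 ⟨Y, hY, rfl⟩)
    exact ⟨⟨a, ha⟩, Subtype.ext (List.ofFn_injective ((hf ⟨a, ha⟩).symm.trans e))⟩
  let e := Equiv.ofBijective f ⟨hinj, hsur⟩
  have hfin : Finite S := Finite.of_equiv _ e
  refine ⟨Set.toFinite S, ?_, ⟨⟨e, ?_⟩⟩⟩
  · rw [← Nat.card_coe_set_eq, ← Nat.card_congr e, Nat.card_fin]
  · intro a b
    have key : ∀ (a : Fin L.length) (l : Fin K), (L.getD a []).getD l d = (f a).1 l := by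
      intro a l
      have : L.getD a [] = List.ofFn (f a).1 := by
        rw [← hf a]
        simp [List.getD_eq_getElem?_getD]
      rw [this]
      simp [List.getD_eq_getElem?_getD]
    change (f a ≠ f b ∧ ∃ j, ∀ l, l ≠ j → (f a).1 l = (f b).1 l) ↔ adjL L d K a b
    refine and_congr (by rw [hinj.ne_iff, Fin.val_ne_iff]) ⟨?_, ?_⟩
    · rintro ⟨j, hj⟩
      refine ⟨j, j.2, fun l a' b' => ?_⟩
      exact (key a ⟨l, a'⟩).trans ((hj ⟨l, a'⟩ fun c => b' (by rw [← c])).trans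
        (key b ⟨l, a'⟩).symm)
    · rintro ⟨j, hj, hj'⟩
      refine ⟨⟨j, hj⟩, fun l c => ?_⟩
      rw [← key, ← key]
      exact hj' l l.2 fun e => c (Fin.ext e)

end Generic

/-- Names of staircases. -/
abbrev Ln : Type := ℕ × Co × Co

/-- anchor of a staircase -/
def anc (n : Ln) (l : ℕ) : Va :=
  if n.1 < 2 then tau n.2.1 n.2.2 l else gad n.2.1.2.1 (if n.1 = 2 then n.2.1.2.2 else 0) l

/-- carried value of a staircase -/
def car (n : Ln) : Co := if n.1 = 1 then n.2.2 else n.2.1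

/-- first position of a staircase -/
def fir (n : Ln) : ℕ :=
  if n.1 = 0 then var n.2.2 else if n.1 = 1 then var n.2.1 else
    if n.1 = 2 then 2 * n.2.1.2.1 else 2 * n.2.1.2.1 + 1

/-- Names of vertices. -/
abbrev Nm : Type := Ln × ℕ × ℕ × ℕ

/-- value of a name at a position -/
def vl (n : Nm) (l : ℕ) : Va := st (anc n.1) (car n.1) (fir n.1) n.2.1 l

/-- tuple of a name -/
def tup (K : ℕ) (n : Nm) : List (Va × Bool) :=
  (List.range K).map fun l => (vl n l, decide (l = n.2.2.1 ∨ l = n.2.2.2))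

/-- all core values -/
def cores (k D : ℕ) : List Co :=
  (List.range 4).flatMap fun t => (List.range k).flatMap fun p =>
    (List.range (D + 2 * k)).map fun s => (t, p, s)

/-- all names of staircases -/
def lnames (k D : ℕ) : List Ln :=
  (List.range 4).flatMap fun t => (cores k D).flatMap fun v => (cores k D).map fun w => (t, v, w)

/-- all names -/
def names (k D : ℕ) : List Nm :=
  (lnames k D).flatMap fun n => (List.range (2 * k + 2)).flatMap fun m =>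
    (List.range (2 * k + 1)).flatMap fun i => (List.range (2 * k + 1)).map fun j => (n, m, i, j)

theorem length_names (k D : ℕ) :
    (names k D).length = 4 * (4 * k * (D + 2 * k)) ^ 2 * ((2 * k + 2) * (2 * k + 1) ^ 2) := by
  simp only [names, lnames, cores, List.length_flatMap, List.length_map, List.length_range,
    List.map_const', List.sum_replicate, smul_eq_mul]
  ring

theorem mem_cores {k D : ℕ} {c : Co} : c ∈ cores k D ↔ c.1 < 4 ∧ c.2.1 < k ∧ c.2.2 < D + 2 * k := by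
  obtain ⟨t, p, s⟩ := c
  simp [cores]

theorem mem_names {k D : ℕ} {n : Nm} : n ∈ names k D ↔ (n.1.1 < 4 ∧ n.1.2.1 ∈ cores k D ∧
    n.1.2.2 ∈ cores k D) ∧ n.2.1 < 2 * k + 2 ∧ n.2.2.1 < 2 * k + 1 ∧ n.2.2.2 < 2 * k + 1 := by
  obtain ⟨⟨t, ⟨a, b, c⟩, ⟨d, e, f⟩⟩, m, i, j⟩ := n
  simp [names, lnames]

namespace Inst

variable (I : Inst)

/-- explicit form of `Lam` -/
def LamP (v w : Co) : Prop :=
  v.2.1 < I.k ∧ w.2.1 < I.k ∧
    ((v.1 = 0 ∧ w.1 = 0 ∧ v.2.2 < I.D ∧ w.2.2 < I.D ∧ v.2.1 ≠ w.2.1 ∧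
        I.E v.2.1 v.2.2 w.2.1 w.2.2) ∨
      (v.1 = 1 ∧ v.2.2 = 0 ∧ w.1 = 0 ∧ w.2.2 < I.D ∧ v.2.1 ≠ w.2.1) ∨
      (v.1 = 1 ∧ v.2.2 = 0 ∧ w.1 = 1 ∧ w.2.2 = 0 ∧ v.2.1 ≠ w.2.1) ∨
      (v.1 = 2 ∧ v.2.2 < 2 ∧ w.1 = 0 ∧ w.2.2 < I.D ∧ v.2.1 = w.2.1 ∧ I.A v.2.1 v.2.2 w.2.2) ∨
      (v.1 = 1 ∧ v.2.2 = 0 ∧ w.1 = 3 ∧ w.2.2 < 2 * I.k ∧ v.2.1 = w.2.1 ∧ w.2.2 ≠ 2 * v.2.1 + 1))

/-- valid names of staircases -/
def okL (n : Ln) : Prop :=
  (n.1 < 2 ∧ I.LamP n.2.1 n.2.2) ∨ (n.1 = 2 ∧ n.2.1.1 = 2 ∧ n.2.1.2.1 < I.k ∧ n.2.1.2.2 < 2) ∨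
    (n.1 = 3 ∧ n.2.1.1 = 3 ∧ n.2.1.2.1 < I.k ∧ n.2.1.2.2 < 2 * I.k ∧
      n.2.1.2.2 ≠ 2 * n.2.1.2.1 + 1)

/-- valid names -/
def ok (n : Nm) : Prop :=
  I.okL n.1 ∧ (n.2.2.1 ≠ n.2.2.2 → n.2.2.1 < 2 * I.k → n.2.2.2 < 2 * I.k →
    real (vl n n.2.2.1) ∧ real (vl n n.2.2.2))

open Classical in
/-- the list of vertices -/
noncomputable def verts : List (List (Va × Bool)) :=
  dd (((names I.k I.D).filter fun n => decide (I.ok n)).map (tup (2 * I.k))) []

/-- the adjacency matrix -/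
noncomputable def out : List Bool := bitsL I.verts (hub (0, 0, 0), false) (2 * I.k)

variable {I}

theorem lamP_iff {v w : Co} : I.LamP v w ↔ I.Lam v w := by
  constructor
  · obtain ⟨t, p, s⟩ := v
    obtain ⟨t', p', s'⟩ := w
    rintro ⟨h1, h2, ⟨rfl, rfl, a, b, c, d⟩ | ⟨rfl, rfl, rfl, a, b⟩ | ⟨rfl, rfl, rfl, rfl, a⟩ |
      ⟨rfl, a, rfl, b, rfl, c⟩ | ⟨rfl, rfl, rfl, a, rfl, b⟩⟩
    · exact Lam.rr _ _ _ _ h1 h2 a b c d
    · exact Lam.ar _ _ _ h1 h2 a b
    · exact Lam.a2 _ _ h1 h2 a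
    · exact Lam.br _ _ _ h1 a b c
    · exact Lam.ap _ _ h1 a b
  · intro h
    cases h <;> simp_all [LamP, rl, aa, ab, rho]

theorem Lam.cores {v w : Co} (h : I.Lam v w) : v ∈ cores I.k I.D ∧ w ∈ cores I.k I.D := by
  cases h <;> simp only [mem_cores, rl, aa, ab, rho] <;> omega

theorem link_of_okL {n : Ln} (h : I.okL n) : I.Link (anc n) (car n) (fir n) := by
  obtain ⟨t, ⟨t', p, s⟩, w⟩ := n
  rcases h with ⟨a, b⟩ | ⟨rfl, rfl, a, b⟩ | ⟨rfl, rfl, a, b, c⟩
  · have : t = 0 ∨ t = 1 := by omega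
    rcases this with rfl | rfl
    · exact Link.t1 _ _ (lamP_iff.1 b)
    · exact Link.t2 _ _ (lamP_iff.1 b)
  · exact Link.g1 _ _ a b
  · exact Link.g2 _ _ a b c

theorem Link.name {A : ℕ → Va} {v : Co} {j : ℕ} (h : I.Link A v j) :
    ∃ n : Ln, I.okL n ∧ (n.1 < 4 ∧ n.2.1 ∈ cores I.k I.D ∧ n.2.2 ∈ cores I.k I.D) ∧
      anc n = A ∧ car n = v ∧ fir n = j := by
  cases h with
  | t1 v w h => exact ⟨(0, _, w), Or.inl ⟨by simp, lamP_iff.2 h⟩, ⟨by simp, h.cores⟩, rfl, rfl, rfl⟩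
  | t2 v w h => exact ⟨(1, v, _), Or.inl ⟨by simp, lamP_iff.2 h⟩, ⟨by simp, h.cores⟩, rfl, rfl, rfl⟩
  | g1 p b h1 h2 =>
    have : ab p b ∈ cores I.k I.D := by simp only [mem_cores, ab]; omega
    exact ⟨(2, ab p b, ab p b), Or.inr (Or.inl ⟨rfl, rfl, h1, h2⟩), ⟨by simp, this, this⟩,
      rfl, rfl, rfl⟩
  | g2 p l h1 h2 h3 =>
    have : rho p l ∈ cores I.k I.D := by simp only [mem_cores, rho]; omega
    exact ⟨(3, rho p l, rho p l), Or.inr (Or.inr ⟨rfl, rfl, h1, h2, h3⟩), ⟨by simp, this, this⟩,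
      rfl, rfl, rfl⟩

theorem tup_eq (K : ℕ) (n : Nm) : tup K n =
    List.ofFn fun l : Fin K => (vl n l, decide ((l : ℕ) = n.2.2.1 ∨ (l : ℕ) = n.2.2.2)) := by
  apply List.ext_getElem <;> simp [tup]

theorem mem_verts (x : List (Va × Bool)) :
    x ∈ I.verts ↔ ∃ Y ∈ probe real I.R, x = List.ofFn Y := by
  simp only [verts, mem_dd, List.mem_map, List.mem_filter, decide_eq_true_eq]
  constructor
  · rintro ⟨n, ⟨-, h1, h2⟩, rfl⟩
    refine ⟨_, ⟨(link_of_okL h1).mem n.2.1, fun i j hij a b => ?_⟩, tup_eq _ n⟩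
    simp only [decide_eq_true_eq] at a b ⊢
    have hij' : (i : ℕ) ≠ j := fun e => hij (Fin.ext e)
    have := h2 (by omega) (by omega) (by omega)
    rcases a with a | a <;> rw [a]
    · exact this.1
    · exact this.2
  · rintro ⟨Y, hY, rfl⟩
    obtain ⟨_, ⟨A, v, j, m, h, rfl⟩, hc⟩ := probe_cases (fun X hX => two_real hX) hY
    obtain ⟨n, h1, h2, rfl, rfl, rfl⟩ := h.name
    have hm : ∀ i j (l : Fin (2 * I.k)), vl (n, min m (2 * I.k + 1), i, j) l =
        I.res (st (anc n) (car n) (fir n) m) l := by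
      intro i j l
      rcases le_total m (2 * I.k + 1) with a | a
      · rw [min_eq_left a]
        rfl
      · rw [min_eq_right a, h.st_top (m := m) (by omega),
          ← h.st_top (m := 2 * I.k + 1) (by omega)]
        rfl
    rcases hc with rfl | ⟨i, rfl⟩ | ⟨i, j, hij, a, b, rfl⟩
    · refine ⟨(n, min m (2 * I.k + 1), 2 * I.k, 2 * I.k), ⟨mem_names.2 ⟨h2, by simp only; omega⟩,
        h1, fun a => absurd rfl a⟩, ?_⟩
      rw [tup_eq]
      refine congrArg _ (funext fun l => Prod.ext (hm _ _ l) ?_)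
      simp [p0, l.2.ne]
    · refine ⟨(n, min m (2 * I.k + 1), i, i), ⟨mem_names.2 ⟨h2, by simp only; omega⟩,
        h1, fun a => absurd rfl a⟩, ?_⟩
      rw [tup_eq]
      refine congrArg _ (funext fun l => Prod.ext (hm _ _ l) ?_)
      simp [p1, Fin.ext_iff]
    · refine ⟨(n, min m (2 * I.k + 1), i, j), ⟨mem_names.2 ⟨h2, by simp only; omega⟩,
        h1, fun _ _ _ => ⟨hm _ _ i ▸ a, hm _ _ j ▸ b⟩⟩, ?_⟩
      rw [tup_eq]
      refine congrArg _ (funext fun l => Prod.ext (hm _ _ l) ?_)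
      simp [p2, Fin.ext_iff]

theorem pow_bound {k : ℕ} (hk : 64 ≤ k) : 36864 * k ^ 7 < 2 ^ k := by
  induction k, hk using Nat.le_induction with
  | base => norm_num
  | succ k hk ih =>
    have h1 : 64 * (k + 1) ≤ 65 * k := by omega
    have h2 : 64 ^ 7 * (k + 1) ^ 7 ≤ 65 ^ 7 * k ^ 7 := by
      rw [← mul_pow, ← mul_pow]
      exact Nat.pow_le_pow_left h1 7
    rw [pow_succ 2]
    omega

theorem length_verts (hk : 64 ≤ I.k) (hD : I.D ≤ I.k) : I.verts.length < 2 ^ I.k := by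
  classical
  refine lt_of_le_of_lt ((length_dd _ _).trans ?_) (pow_bound hk)
  rw [List.length_map]
  refine (List.length_filter_le _ _).trans ?_
  rw [length_names]
  calc 4 * (4 * I.k * (I.D + 2 * I.k)) ^ 2 * ((2 * I.k + 2) * (2 * I.k + 1) ^ 2)
      ≤ 4 * (4 * I.k * (3 * I.k)) ^ 2 * ((4 * I.k) * (4 * I.k) ^ 2) := by
        gcongr <;> omega
    _ = 36864 * I.k ^ 7 := by ring

theorem alpha_graph_iff (hk : 64 ≤ I.k) (hD : I.D ≤ I.k)
    (hE : ∀ p s q t, I.E p s q t → I.E q t p s) :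
    AlphaRealizable (graphL I.verts (hub (0, 0, 0), false) (2 * I.k)) ↔
      ∃ u : ℕ → ℕ, (∀ p, u p < 2) ∧ ¬ ∃ σ, I.Sol u σ := by
  classical
  obtain ⟨h1, h2, ⟨e⟩⟩ := graphL_iso (hub (0, 0, 0), false) (nodup_dd _ _) (mem_verts (I := I))
  constructor
  · intro h
    exact sound (by omega) h1 (h2 ▸ length_verts hk hD) (alpha_congr e.symm h)
  · rintro ⟨u, hu, hno⟩
    refine alpha_congr e (complete (by omega) ?_ hu hE hno)
    exact (h1.image fun Y l => (Y l).1).subset fun X hX => ⟨p0 X, p0_mem hX, rfl⟩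

end Inst

end Pool.Agent.P.MP_5d374e_co.S2
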