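import Pool.Agent.P.MP_5d374e_co.S2.Rep

/-!
Hamming graphs on sets of tuples, probes, and rigidity of their token representations.
-/

set_option autoImplicit false

namespace Pool.Agent.P.MP_5d374e_co.S2

open Finset

variable {ι V W T : Type}

/-- The Hamming graph on a set of tuples. -/
def hamG (S : Set (ι → W)) : SimpleGraph S where
  Adj X Y := X ≠ Y ∧ ∃ j, ∀ l, l ≠ j → X.1 l = Y.1 l
  symm := ⟨fun _ _ h => ⟨h.1.symm, h.2.imp fun _ hj l hl => (hj l hl).symm⟩⟩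
  loopless := ⟨fun _ h => h.1 rfl⟩

theorem alpha_of_merge {W' : Type} [Fintype ι] {S : Set (ι → W)} (hS : S.Finite)
    (hne : S.Nonempty) (μ : W → W')
    (hsep : ∀ X ∈ S, ∀ Y ∈ S, ∀ i, X i ≠ Y i → μ (X i) = μ (Y i) →
      ∀ j, ∃ l, l ≠ j ∧ μ (X l) ≠ μ (Y l))
    (hcl : ∀ Y : ι → W', (∀ i j, ∃ Z ∈ S, μ (Z i) = Y i ∧ μ (Z j) = Y j) →
      ∃ Z ∈ S, ∀ i, μ (Z i) = Y i) : AlphaRealizable (hamG S) := by
  classical
  have := hS.to_subtype
  have := hne.to_subtype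
  have hmem : ∀ (X : ι → W') (t : ι × W'), t ∈ univ.image (fun i => (i, X i)) ↔ X t.1 = t.2 := by
    rintro X ⟨i, a⟩
    simp only [mem_image, mem_univ, true_and, Prod.mk.injEq]
    constructor
    · rintro ⟨j, rfl, h⟩
      exact h
    · exact fun h => ⟨i, rfl, h⟩
  have hcard : ∀ (X : ι → W') (s : Finset ι), (s.image fun i => (i, X i)).card = s.card :=
    fun X s => card_image_of_injective _ fun i j h => (Prod.ext_iff.1 h).1
  refine alpha_of_rep (K := Fintype.card ι)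
    (φ := fun X : S => univ.image fun i => (i, μ (X.1 i))) ⟨fun X => hcard _ _, ?_, ?_, ?_⟩
  · intro X Y h
    have e : ∀ i, μ (Y.1 i) = μ (X.1 i) := fun i =>
      (hmem _ (i, μ (X.1 i))).1 (h ▸ (hmem _ (i, μ (X.1 i))).2 rfl)
    refine Subtype.ext (funext fun i => ?_)
    by_contra hi
    obtain ⟨l, -, hl⟩ := hsep _ X.2 _ Y.2 i hi (e i).symm i
    exact hl (e l).symm
  · intro X Y
    have e : (univ.image fun i => (i, μ (X.1 i))) ∩ (univ.image fun i => (i, μ (Y.1 i))) =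
        (univ.filter fun i => μ (X.1 i) = μ (Y.1 i)).image fun i => (i, μ (X.1 i)) := by
      ext ⟨i, a⟩
      rw [mem_inter, hmem, hmem]
      simp only [mem_image, mem_filter, mem_univ, true_and, Prod.mk.injEq]
      constructor
      · rintro ⟨h1, h2⟩
        exact ⟨i, h1.trans h2.symm, rfl, h1⟩
      · rintro ⟨j, h1, rfl, h2⟩
        exact ⟨h2, h1 ▸ h2⟩
    rw [e, hcard (fun i => μ (X.1 i))]
    have e2 := card_filter_add_card_filter_not (s := univ) fun i => μ (X.1 i) = μ (Y.1 i)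
    rw [card_univ] at e2
    constructor
    · rintro ⟨h1, j, hj⟩
      have hj' : X.1 j ≠ Y.1 j := fun e => h1 (Subtype.ext (funext fun l => by
        by_cases hl : l = j
        · exact hl ▸ e
        · exact hj l hl))
      have : (univ.filter fun i => ¬ μ (X.1 i) = μ (Y.1 i)) = {j} := by
        ext l
        simp only [mem_filter, mem_univ, true_and, mem_singleton]
        constructor
        · intro h
          by_contra hl
          exact h (by rw [hj l hl])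
        · rintro rfl h
          obtain ⟨l', h1, h2⟩ := hsep _ X.2 _ Y.2 l hj' h l
          exact h2 (by rw [hj l' h1])
      rw [this, card_singleton] at e2
      exact e2
    · intro h
      obtain ⟨j, hj⟩ := card_eq_one.1
        (show (univ.filter fun i => ¬ μ (X.1 i) = μ (Y.1 i)).card = 1 by omega)
      have hj' : ∀ l, ¬ μ (X.1 l) = μ (Y.1 l) ↔ l = j := fun l => by
        rw [← mem_singleton (a := j), ← hj]
        simp
      refine ⟨?_, j, fun l hl => ?_⟩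
      · rintro rfl
        exact (hj' j).2 rfl rfl
      · by_contra hne
        obtain ⟨l', h1, h2⟩ := hsep _ X.2 _ Y.2 l hne (by_contra fun e => hl ((hj' l).1 e)) j
        exact h1 ((hj' l').1 h2)
  · intro J hJ hJ'
    have hinj : Set.InjOn Prod.fst (J : Set (ι × W')) := by
      intro a ha b hb e
      obtain ⟨X, h1, h2⟩ := hJ' a ha b hb
      rw [hmem] at h1 h2
      exact Prod.ext e (by rw [← h1, ← h2, e])
    have hu : J.image Prod.fst = univ :=
      eq_univ_of_card _ (le_antisymm (card_le_univ _) (by rwa [card_image_of_injOn hinj]))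
    have hs : ∀ i, ∃ a, (i, a) ∈ J := fun i => by
      obtain ⟨⟨i', a⟩, h, rfl⟩ := mem_image.1 (hu ▸ mem_univ i)
      exact ⟨a, h⟩
    choose Y hY using hs
    obtain ⟨Z, hZ, hZ'⟩ := hcl Y fun i j => by
      obtain ⟨X, h1, h2⟩ := hJ' _ (hY i) _ (hY j)
      rw [hmem] at h1 h2
      exact ⟨X.1, X.2, h1, h2⟩
    refine ⟨⟨Z, hZ⟩, fun t ht => (hmem _ _).2 ?_⟩
    have := hinj ht (hY t.1) rfl
    rw [hZ', this]

/-- The tuples of `R` with probes: a value may be marked, and two marked values are real. -/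
def probe (real : V → Prop) (R : Set (ι → V)) : Set (ι → V × Bool) :=
  {Y | (fun l => (Y l).1) ∈ R ∧
    ∀ i j, i ≠ j → (Y i).2 = true → (Y j).2 = true → real (Y i).1}

theorem probe_finite [Finite ι] (real : V → Prop) {R : Set (ι → V)} (hR : R.Finite) :
    (probe real R).Finite := by
  refine ((hR.prod (Set.finite_univ (α := ι → Bool))).image
    fun p l => (p.1 l, p.2 l)).subset fun Y hY => ?_
  exact ⟨(fun l => (Y l).1, fun l => (Y l).2), ⟨hY.1, trivial⟩, rfl⟩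

theorem alpha_probe [Fintype ι] {real : V → Prop} {R : Set (ι → V)} (hR : R.Finite)
    (hne : R.Nonempty) (μ : V → V) (hreal : ∀ a, real (μ a) ↔ real a)
    (hsep : ∀ X ∈ R, ∀ Y ∈ R, ∀ i, X i ≠ Y i → μ (X i) = μ (Y i) →
      ∀ j, ∃ l, l ≠ j ∧ μ (X l) ≠ μ (Y l))
    (hcl : ∀ Y : ι → V, (∀ i j, ∃ Z ∈ R, μ (Z i) = Y i ∧ μ (Z j) = Y j) →
      ∃ Z ∈ R, ∀ i, μ (Z i) = Y i) : AlphaRealizable (hamG (probe real R)) := by
  refine alpha_of_merge (probe_finite real hR) ?_ (Prod.map μ id) ?_ ?_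
  · obtain ⟨X, hX⟩ := hne
    exact ⟨fun l => (X l, false), hX, by simp⟩
  · intro X hX Y hY i h1 h2 j
    have e := Prod.ext_iff.1 h2
    obtain ⟨l, a, b⟩ := hsep _ hX.1 _ hY.1 i (fun h => h1 (Prod.ext h e.2)) e.1 j
    exact ⟨l, a, fun h => b (Prod.ext_iff.1 h).1⟩
  · intro Y hY
    obtain ⟨Z, hZ, hZ'⟩ := hcl (fun l => (Y l).1) fun i j => by
      obtain ⟨Z, hZ, h1, h2⟩ := hY i j
      exact ⟨_, hZ.1, (Prod.ext_iff.1 h1).1, (Prod.ext_iff.1 h2).1⟩
    refine ⟨fun l => (Z l, (Y l).2), ⟨hZ, fun i j hij a b => ?_⟩, fun i => Prod.ext (hZ' i) rfl⟩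
    obtain ⟨Z', hZ1, h1, h2⟩ := hY i j
    have e1 := Prod.ext_iff.1 h1
    have e2 := Prod.ext_iff.1 h2
    have := hZ1.2 i j hij (e1.2.trans a) (e2.2.trans b)
    rw [← hreal] at this ⊢
    exact (hZ' i).symm ▸ e1.1 ▸ this

/-- What a token representation gives on a rigid set of tuples. -/
structure Rigid (S : Set (ι → W)) (g : ι → W → T) : Prop where
  inj : ∀ Y ∈ S, ∀ i j, g i (Y i) = g j (Y j) → i = j
  sep : ∀ Y ∈ S, ∀ Y' ∈ S, (∀ i, ∃ j, g i (Y i) = g j (Y' j)) → Y = Y'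
  near : ∀ Y ∈ S, ∀ Y' ∈ S, ∀ i₀, (∀ i, i ≠ i₀ → ∃ j, g i (Y i) = g j (Y' j)) →
    ∃ j, ∀ l, l ≠ j → Y l = Y' l
  helly : ∀ Z : ι → T, (∀ i j, i ≠ j → ∃ Y ∈ S, ∃ i' j', i' ≠ j' ∧ Z i = g i' (Y i') ∧
    Z j = g j' (Y j')) → ∃ Y ∈ S, (∀ i, ∃ j, Z i = g j (Y j)) ∧ ∀ j, ∃ i, Z i = g j (Y j)

theorem rigid_of_formula [Fintype ι] [Nontrivial ι] [DecidableEq T] {S : Set (ι → W)} {K : ℕ}
    {φ : S → Finset T} (h : Rep (hamG S) K φ) (F : Finset T) (g : ι → W → T)
    (hK : K = F.card + Fintype.card ι)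
    (hφ : ∀ Y : S, ∀ t, t ∈ φ Y ↔ t ∈ F ∨ ∃ i, t = g i (Y.1 i)) : Rigid S g := by
  classical
  have hφ' : ∀ Y : S, φ Y = F ∪ univ.image fun i => g i (Y.1 i) := fun Y => by
    ext t
    simp only [hφ, mem_union, mem_image, mem_univ, true_and, eq_comm]
  have key : ∀ Y : S, Disjoint F (univ.image fun i => g i (Y.1 i)) ∧
      (univ.image fun i => g i (Y.1 i)).card = Fintype.card ι := by
    intro Y
    have h1 := h.card Y
    rw [hφ'] at h1
    have h2 := card_union_add_card_inter F (univ.image fun i => g i (Y.1 i))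
    have h3 : (univ.image fun i => g i (Y.1 i)).card ≤ Fintype.card ι := card_image_le
    refine ⟨?_, by omega⟩
    rw [disjoint_iff_inter_eq_empty, ← card_eq_zero]
    omega
  have hinj : ∀ Y ∈ S, ∀ i j, g i (Y i) = g j (Y j) → i = j := fun Y hY i j e =>
    injOn_of_card_image_eq (key ⟨Y, hY⟩).2 (mem_univ i) (mem_univ j) e
  have hF : ∀ Y ∈ S, ∀ i, g i (Y i) ∉ F := fun Y hY i e =>
    disjoint_left.1 (key ⟨Y, hY⟩).1 e (mem_image_of_mem _ (mem_univ i))
  refine ⟨hinj, ?_, ?_, ?_⟩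
  · intro Y hY Y' hY' e
    refine congrArg Subtype.val (h.inj ⟨Y, hY⟩ ⟨Y', hY'⟩
      (eq_of_subset_of_card_le (fun t ht => ?_) (by rw [h.card, h.card])))
    rw [hφ] at ht ⊢
    rcases ht with ht | ⟨i, rfl⟩
    · exact Or.inl ht
    · exact Or.inr (e i)
  · intro Y hY Y' hY' i₀ e
    rcases h.eq_or_adj (x := ⟨Y, hY⟩) (y := ⟨Y', hY'⟩) (u := g i₀ (Y i₀)) (fun t ht hne => by
      rw [hφ] at ht ⊢
      rcases ht with ht | ⟨i, rfl⟩
      · exact Or.inl ht
      · exact Or.inr (e i fun a => hne (by rw [a]))) with a | a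
    · exact ⟨i₀, fun l _ => congrFun (congrArg Subtype.val a) l⟩
    · exact a.2
  · intro Z hZ
    have hZ1 : ∀ i, ∃ Y ∈ S, ∃ i', Z i = g i' (Y i') := fun i => by
      obtain ⟨j, hj⟩ := exists_ne i
      obtain ⟨Y, hY, i', -, -, a, -⟩ := hZ i j hj.symm
      exact ⟨Y, hY, i', a⟩
    have hZi : Function.Injective Z := fun i j e => by
      by_contra hne
      obtain ⟨Y, hY, i', j', a, b, c⟩ := hZ i j hne
      exact a (hinj Y hY i' j' (by rw [← b, ← c, e]))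
    have hZF : ∀ i, Z i ∉ F := fun i => by
      obtain ⟨Y, hY, i', a⟩ := hZ1 i
      exact a ▸ hF Y hY i'
    have hc : (F ∪ univ.image Z).card = K := by
      rw [card_union_of_disjoint, card_image_of_injective _ hZi, hK, card_univ]
      rw [disjoint_right]
      intro t ht
      obtain ⟨i, -, rfl⟩ := mem_image.1 ht
      exact hZF i
    obtain ⟨Y, hY⟩ := h.helly (F ∪ univ.image Z) hc.ge (by
      intro a ha b hb
      rcases mem_union.1 ha with ha | ha <;> rcases mem_union.1 hb with hb | hb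
      · obtain ⟨i⟩ : Nonempty ι := inferInstance
        obtain ⟨Y, hY, -⟩ := hZ1 i
        exact ⟨⟨Y, hY⟩, (hφ _ _).2 (Or.inl ha), (hφ _ _).2 (Or.inl hb)⟩
      · obtain ⟨i, -, rfl⟩ := mem_image.1 hb
        obtain ⟨Y, hY, e⟩ := hZ1 i
        exact ⟨⟨Y, hY⟩, (hφ _ _).2 (Or.inl ha), (hφ _ _).2 (Or.inr e)⟩
      · obtain ⟨i, -, rfl⟩ := mem_image.1 ha
        obtain ⟨Y, hY, e⟩ := hZ1 i
        exact ⟨⟨Y, hY⟩, (hφ _ _).2 (Or.inr e), (hφ _ _).2 (Or.inl hb)⟩
      · obtain ⟨i, -, rfl⟩ := mem_image.1 ha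
        obtain ⟨j, -, rfl⟩ := mem_image.1 hb
        by_cases hij : i = j
        · obtain ⟨Y, hY, e⟩ := hZ1 i
          exact ⟨⟨Y, hY⟩, (hφ _ _).2 (Or.inr e), (hφ _ _).2 (Or.inr (hij ▸ e))⟩
        · obtain ⟨Y, hY, i', j', -, a, b⟩ := hZ i j hij
          exact ⟨⟨Y, hY⟩, (hφ _ _).2 (Or.inr ⟨i', a⟩), (hφ _ _).2 (Or.inr ⟨j', b⟩)⟩)
    have e := eq_of_subset_of_card_le hY (by rw [hc, h.card])
    refine ⟨Y.1, Y.2, fun i => ?_, fun j => ?_⟩
    · have : Z i ∈ φ Y := hY (mem_union_right _ (mem_image_of_mem _ (mem_univ i)))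
      exact ((hφ _ _).1 this).resolve_left (hZF i)
    · have : g j (Y.1 j) ∈ φ Y := (hφ _ _).2 (Or.inr ⟨j, rfl⟩)
      rw [← e] at this
      obtain ⟨i, -, a⟩ := mem_image.1 ((mem_union.1 this).resolve_left (hF _ Y.2 j))
      exact ⟨i, a⟩

end Pool.Agent.P.MP_5d374e_co.S2
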