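import Pool.Agent.P.MP_5d374e_co.S2.PTOut
import Pool.Agent.P.MP_5d374e_co.S2.Defs
import Pool.Agent.P.MP_ba7db8_lc.Main
import Pool.Agent.Lib.Helper33.Sim
import Pool.Agent.Lib.Helper47.Bridge

/-!
Hardness for the second level of the polynomial hierarchy.
-/

set_option autoImplicit false
set_option linter.dupNamespace false

namespace Pool.Agent.P.MP_5d374e_co.S2

open Pool.Agent.P.MP_ba7db8_lc Pool.Agent.Lib.Helper47 Turing Turing.TM2

theorem length_adjBits {N : ℕ} (H : SimpleGraph (Fin N)) : (adjBits H).length = N * N := by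
  simp [adjBits, List.length_flatMap]

theorem getD_flatMap_range (N M : ℕ) (f : ℕ → ℕ → Bool) {a b : ℕ} (ha : a < N) (hb : b < M) :
    ((List.range N).flatMap fun a => (List.range M).map (f a)).getD (a * M + b) false = f a b := by
  induction N with
  | zero => omega
  | succ N ih =>
    have hl : ((List.range N).flatMap fun a => (List.range M).map (f a)).length = N * M := by
      simp [List.length_flatMap]
    rw [List.range_succ, List.flatMap_append]
    by_cases h : a < N
    · rw [List.getD_append _ _ _ _ (by rw [hl]; nlinarith), ih h]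
    · obtain rfl : a = N := by omega
      rw [List.getD_append_right _ _ _ _ (by rw [hl]; omega), hl]
      simp [List.getD_eq_getElem?_getD, hb]

open Classical in
theorem adjBits_eq {N : ℕ} (H : SimpleGraph (Fin N)) (f : ℕ → ℕ → Bool)
    (hf : ∀ a b : Fin N, f a b = true ↔ H.Adj a b) :
    adjBits H = (List.range N).flatMap fun a => (List.range N).map (f a) := by
  have hr : ∀ n, List.range n = (List.finRange n).map Fin.val := fun n => by
    apply List.ext_getElem <;> simp
  unfold adjBits
  rw [hr, List.flatMap_map]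
  refine congrArg (List.flatMap · _) (funext fun u => ?_)
  rw [List.map_map]
  refine congrArg (List.map · _) (funext fun v => ?_)
  rw [Bool.eq_iff_iff, decide_eq_true_eq]
  exact (hf u v).symm

theorem getD_adjBits {N : ℕ} (H : SimpleGraph (Fin N)) (a b : Fin N) :
    (adjBits H).getD (a * N + b) false = true ↔ H.Adj a b := by
  classical
  rw [adjBits_eq H (fun a b => decide (∃ (ha : a < N) (hb : b < N), H.Adj ⟨a, ha⟩ ⟨b, hb⟩))
    (by simp), getD_flatMap_range _ _ _ a.2 b.2]
  simp

theorem adjBits_mem {N : ℕ} (H : SimpleGraph (Fin N)) :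
    adjBits H ∈ BothLang ↔ AlphaRealizable H := by
  constructor
  · rintro ⟨N', H', e, -, h⟩
    obtain rfl : N = N' := by
      have := congrArg List.length e
      rw [length_adjBits, length_adjBits] at this
      exact Nat.mul_self_inj.1 this
    obtain rfl : H = H' := by
      ext a b
      rw [← getD_adjBits, ← getD_adjBits, e]
    exact h
  · exact fun h => ⟨N, H, rfl, iRealizable_of_alphaRealizable H h, h⟩

/-- first component of a pair -/
def unp1 (z : List Bool) : List Bool := (blocks z).headD []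

/-- second component of a pair -/
def unp2 (z : List Bool) : List Bool := z.drop (2 * (unp1 z).length + 1)

theorem unp1_pair (x w : List Bool) : unp1 (pair x w) = x := by
  have : pair x w = N487b59b3.delimit x ++ w := by simp [pair, delimit_eq]
  rw [unp1, this, blocks_head]

theorem unp2_pair (x w : List Bool) : unp2 (pair x w) = w := by
  have h : (x.flatMap fun b => [true, b]).length = 2 * x.length := by
    simp [List.length_flatMap, mul_comm]
  rw [unp2, unp1_pair, pair, ← h, List.drop_append]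
  simp

@[fun_prop] theorem pt_unp1 {α : Type} [Enc α] {z : α → List Bool} (hz : PT z) :
    PT fun a => unp1 (z a) := PT.headD (PT.blocks.comp hz) (PT.const _)

@[fun_prop] theorem pt_unp2 {α : Type} [Enc α] {z : α → List Bool} (hz : PT z) :
    PT fun a => unp2 (z a) := by
  unfold unp2
  fun_prop

/-- Two local assignments agree. -/
def agr (d M : ℕ) (vr : ℕ → ℕ → ℕ × ℕ) (p s q t : ℕ) : Prop :=
  ∀ i < M, ∀ i' < M, vr p i = vr q i' → dig d s i = dig d t i'

theorem sol_iff {k d M : ℕ} {vr : ℕ → ℕ → ℕ × ℕ} {al : ℕ → ℕ → (ℕ → ℕ) → Prop} (hd : 0 < d)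
    (hcongr : ∀ π b α β, (∀ i < M, α i = β i) → al π b α → al π b β) (u : ℕ → ℕ) :
    (∃ σ, Inst.Sol ⟨k, d ^ M, agr d M vr, fun p b s => al p b (dig d s) ∧ agr d M vr p s p s⟩ u σ) ↔
      ∃ B : ℕ × ℕ → ℕ, (∀ y, B y < d) ∧ ∀ π < k, al π (u π) fun i => B (vr π i) := by
  constructor
  · rintro ⟨σ, h1, h2⟩
    have hag : ∀ p < k, ∀ q < k, agr d M vr p (σ p) q (σ q) := by
      intro p hp q hq
      by_cases e : p = q
      · subst e
        exact (h1 p hp).2.2
      · exact h2 p hp q hq e
    have hB : ∀ y : ℕ × ℕ, ∃ a < d, ∀ p < k, ∀ i < M, vr p i = y → dig d (σ p) i = a := by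
      intro y
      by_cases h : ∃ p < k, ∃ i < M, vr p i = y
      · obtain ⟨p, hp, i, hi, e⟩ := h
        exact ⟨dig d (σ p) i, Nat.mod_lt _ hd,
          fun q hq i' hi' e' => hag q hq p hp i' hi' i hi (e'.trans e.symm)⟩
      · exact ⟨0, hd, fun p hp i hi e => absurd ⟨p, hp, i, hi, e⟩ h⟩
    choose B hB1 hB2 using hB
    exact ⟨B, hB1, fun π hπ => hcongr _ _ _ _ (fun i hi => hB2 _ π hπ i hi rfl) (h1 π hπ).2.1⟩
  · rintro ⟨B, h1, h2⟩
    choose r hr1 hr2 using fun π => exists_code M (fun i => B (vr π i)) fun i => h1 _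
    have hag : ∀ p q, agr d M vr p (r p) q (r q) := by
      intro p q i hi i' hi' e
      rw [hr2 p i hi, hr2 q i' hi', e]
    exact ⟨r, fun p hp => ⟨hr1 p, hcongr _ _ _ _ (fun i hi => (hr2 p i hi).symm) (h2 p hp),
      hag p p⟩, fun p _ q _ _ => hag p q⟩

/-- The constants of the reduction. -/
structure Par2 where
  /-- locality radius -/
  c : ℕ
  /-- number of column codes -/
  d : ℕ
  /-- witness length bound -/
  P : Polynomial ℕ
  /-- time bound -/
  Tm : Polynomial ℕ
  /-- local constraint table -/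
  Tab : ℕ → ℕ → ℕ → (ℕ → ℕ) → Prop

namespace Par2

variable (q : Par2) (x : List Bool)

/-- witness length -/
def pw : ℕ := q.P.eval x.length
/-- length of the coded input -/
def lx : ℕ := (pair x []).length
/-- time -/
def T : ℕ := q.Tm.eval (lx x + 3 * q.pw x)
/-- width -/
def J : ℕ := lx x + 3 * q.pw x + (q.T x + 1) * q.c + 1
/-- arity -/
def M : ℕ := 3 * q.c + 2
/-- number of parts -/
def k : ℕ := (q.T x + 1) * q.J x + 64 + q.d ^ q.M
/-- type of the initial constraint -/
def tagb (π b : ℕ) : ℕ :=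
  if π / q.J x = 0 ∧ lx x ≤ π ∧ π < lx x + 2 * q.pw x then (if b = 1 then 2 else 1)
  else tag (pair x [] ++ List.replicate (2 * q.pw x) false) (q.pw x) (π / q.J x) (π % q.J x)
/-- local constraints -/
def al (π b : ℕ) (α : ℕ → ℕ) : Prop :=
  q.Tab (min (π % q.J x) (2 * q.c)) (q.tagb x π b) (finFlag (q.T x) (π / q.J x) (π % q.J x)) α
/-- the instance -/
def inst : Inst :=
  ⟨q.k x, q.d ^ q.M, agr q.d q.M (tvar (q.J x) q.c),
    fun p b s => q.al x p b (dig q.d s) ∧ agr q.d q.M (tvar (q.J x) q.c) p s p s⟩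

theorem tag_eq {u : ℕ → ℕ} {e : List Bool} (he : e.length = 2 * q.pw x)
    (hu : ∀ i < 2 * q.pw x, e.getD i false = true ↔ u (lx x + i) = 1) (π : ℕ) :
    tag (pair x [] ++ e) (q.pw x) (π / q.J x) (π % q.J x) = q.tagb x π (u π) := by
  have hJ : 0 < q.J x := Nat.succ_pos _
  unfold tagb
  by_cases a : π / q.J x = 0
  · have b : π % q.J x = π := Nat.mod_eq_of_lt (by
      rcases Nat.div_eq_zero_iff.1 a with h | h <;> omega)
    rw [a, b]
    by_cases c : π < lx x
    · rw [if_neg (by omega)]
      unfold lx at c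
      simp only [tag, List.length_append, List.length_replicate, he,
        List.getD_append _ _ _ _ c]
    · by_cases c' : π < lx x + 2 * q.pw x
      · rw [if_pos ⟨rfl, by omega, c'⟩]
        have := hu (π - lx x) (by omega)
        rw [show lx x + (π - lx x) = π by omega] at this
        unfold lx at c c' this
        simp only [tag, List.length_append, he, c', ne_eq, not_true_eq_false, if_false, if_true,
          List.getD_append_right _ _ _ _ (not_lt.1 c), this]
      · rw [if_neg (by omega)]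
        unfold lx at c'
        simp only [tag, List.length_append, List.length_replicate, he, c', if_false]
  · rw [if_neg (fun h => a h.1)]
    simp [tag, a]

section PT

variable {α : Type} [Enc α] {X : α → List Bool}

theorem pt_pw (hX : PT X) : PT fun a => q.pw (X a) := pt_eval _ (PT.length hX)
theorem ps_pw (hX : PT X) : PS fun a => q.pw (X a) := (ps_length hX).eval _
theorem pt_lx (hX : PT X) : PT fun a => lx (X a) := PT.length (Par.pt_pair hX (PT.const []))
theorem ps_lx (hX : PT X) : PS fun a => lx (X a) := ps_length (Par.pt_pair hX (PT.const []))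
theorem pt_T (hX : PT X) : PT fun a => q.T (X a) :=
  pt_eval _ (PT.add (pt_lx hX) (PT.mul (PT.const 3) (q.pt_pw hX)))
theorem ps_T (hX : PT X) : PS fun a => q.T (X a) :=
  ((ps_lx hX).add ((PB.const 3).mul (q.ps_pw hX))).eval _
theorem pt_J (hX : PT X) : PT fun a => q.J (X a) :=
  PT.add (PT.add (PT.add (pt_lx hX) (PT.mul (PT.const 3) (q.pt_pw hX)))
    (PT.mul (PT.add (q.pt_T hX) (PT.const 1)) (PT.const _))) (PT.const 1)
theorem ps_J (hX : PT X) : PS fun a => q.J (X a) :=
  (((ps_lx hX).add ((PB.const 3).mul (q.ps_pw hX))).add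
    (((q.ps_T hX).add (PB.const 1)).mul (PB.const _))).add (PB.const 1)
theorem pt_k (hX : PT X) : PT fun a => q.k (X a) :=
  PT.add (PT.add (PT.mul (PT.add (q.pt_T hX) (PT.const 1)) (q.pt_J hX)) (PT.const _)) (PT.const _)
theorem ps_k (hX : PT X) : PS fun a => q.k (X a) :=
  ((((q.ps_T hX).add (PB.const 1)).mul (q.ps_J hX)).add (PB.const _)).add (PB.const _)

theorem ptp_agr (hX : PT X) {p s p' t : α → ℕ} (hp : PT p) (hs : PT s) (hp' : PT p') (ht : PT t) :
    PTP fun a => agr q.d q.M (tvar (q.J (X a)) q.c) (p a) (s a) (p' a) (t a) := by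
  have h : PTP fun a => ∀ i < q.M, ∀ i' < q.M,
      tvar (q.J (X a)) q.c (p a) i = tvar (q.J (X a)) q.c (p' a) i' →
      dig q.d (s a) (min i q.M) = dig q.d (t a) (min i' q.M) := by
    refine PTP.ball (PT.const _) (PB.const _) (PTP.ball (PT.const _) (PB.const _) ?_)
    refine PTP.imp (PTP.eq (Par.pt_tvar _ (q.pt_J ?_) ?_ ?_) (Par.pt_tvar _ (q.pt_J ?_) ?_ ?_))
      (PTP.eq (pt_dig _ ?_ ?_ (PT.const _) (PB.const _)) (pt_dig _ ?_ ?_ (PT.const _) (PB.const _)))
    all_goals fun_prop
  refine h.of_iff fun a => ?_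
  unfold agr
  refine forall₂_congr fun i hi => forall₂_congr fun i' hi' => ?_
  rw [min_eq_left hi.le, min_eq_left hi'.le]

theorem pt_tagb (hX : PT X) {p b : α → ℕ} (hp : PT p) (hb : PT b) :
    PT fun a => q.tagb (X a) (p a) (b a) := by
  have hJ := q.pt_J hX
  have h1 := q.pt_pw hX
  have h2 := pt_lx hX
  exact PTP.ite (PTP.and (PTP.eq (by fun_prop) (by fun_prop)) (PTP.and (PTP.le h2 hp)
      (PTP.lt hp (by fun_prop))))
    (PTP.ite (PTP.eq hb (PT.const 1)) (PT.const 2) (PT.const 1))
    (Par.pt_tag (PT.append (Par.pt_pair hX (PT.const []))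
      (PT.replicate (by fun_prop) ((PB.const 2).mul (q.ps_pw hX)) (PT.const false))) h1
      (by fun_prop) (by fun_prop))

theorem dig_mod (d M s i : ℕ) (hi : i < M) : dig d (s % d ^ M) i = dig d s i := by
  obtain ⟨r, rfl⟩ := Nat.exists_eq_add_of_lt hi
  unfold dig
  rw [show d ^ (i + r + 1) = d ^ i * (d * d ^ r) by ring, Nat.mod_mul_right_div_self,
    Nat.mod_mul_right_mod]

theorem ptp_al (hd : 0 < q.d)
    (hc : ∀ a b c α β, (∀ i < q.M, α i = β i) → q.Tab a b c α → q.Tab a b c β)
    (hX : PT X) {p b s : α → ℕ} (hp : PT p) (hb : PT b) (hs : PT s) :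
    PTP fun a => q.al (X a) (p a) (b a) (dig q.d (s a)) := by
  have hJ := q.pt_J hX
  have h := PTP.table (fun a b c r => q.Tab a b c (dig q.d r)) (2 * q.c + 5 + q.d ^ q.M)
    (f₁ := fun a => min (p a % q.J (X a)) (2 * q.c)) (by fun_prop) (q.pt_tagb hX hp hb)
    (Par.pt_finFlag (t := fun a => p a / q.J (X a)) (j := fun a => p a % q.J (X a)) (q.pt_T hX)
      (by fun_prop) (by fun_prop)) (f₄ := fun a => s a % q.d ^ q.M)
    (by fun_prop) fun a => ⟨by omega, by
      unfold tagb tag
      split_ifs <;> omega, by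
      unfold finFlag
      split_ifs <;> omega, by
      have := Nat.mod_lt (s a) (pow_pos hd q.M)
      omega⟩
  exact h.of_iff fun a => ⟨hc _ _ _ _ _ fun i hi => dig_mod _ _ _ _ hi,
    hc _ _ _ _ _ fun i hi => (dig_mod _ _ _ _ hi).symm⟩

theorem pt_out (hd : 0 < q.d)
    (hc : ∀ a b c α β, (∀ i < q.M, α i = β i) → q.Tab a b c α → q.Tab a b c β) :
    PT fun x => (q.inst x).out :=
  Inst.pt_out (q.pt_k PT.id) (q.ps_k PT.id) (PT.const _) (PB.const _)
    (q.ptp_agr (by fun_prop) (by fun_prop) (by fun_prop) (by fun_prop) (by fun_prop))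
    (PTP.and (q.ptp_al hd hc (by fun_prop) (by fun_prop) (by fun_prop) (by fun_prop))
      (q.ptp_agr (by fun_prop) (by fun_prop) (by fun_prop) (by fun_prop) (by fun_prop)))

end PT

end Par2

/-- The Cook-Levin part with a block of free bits. -/
theorem exists_par2 {V : List Bool → Bool}
    (h : TM2ComputableInPolyTime id Computability.encodeBool V) (P : Polynomial ℕ) :
    ∃ q : Par2, q.P = P ∧ 0 < q.d ∧
      (∀ a b c α β, (∀ i < q.M, α i = β i) → q.Tab a b c α → q.Tab a b c β) ∧
      ∀ x (u : ℕ → ℕ) (e : List Bool), e.length = 2 * q.pw x →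
        (∀ i < 2 * q.pw x, e.getD i false = true ↔ u (Par2.lx x + i) = 1) →
        ((∃ σ, (q.inst x).Sol u σ) ↔
          ∃ w : List Bool, w.length ≤ q.pw x ∧ V (pair x (e ++ w)) = true) := by
  classical
  have := h.tm.kFin
  have := h.tm.ΛFin
  have := h.tm.σFin
  have := h.tm.Γk₀Fin
  have : Nonempty h.tm.σ := ⟨h.tm.initialState⟩
  let c := (Finset.univ.sup fun l => depth (h.tm.m l)) + 1
  have hc : ∀ l, depth (h.tm.m l) ≤ c := fun l =>
    (Finset.le_sup (f := fun l => depth (h.tm.m l)) (Finset.mem_univ l)).trans (Nat.le_succ _)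
  have hc0 : 0 < c := Nat.succ_pos _
  let A : Set (Σ k, h.tm.Γ k) := (⋃ l, pushSet (h.tm.m l)) ∪
    Set.range fun a : h.tm.Γ h.tm.k₀ => (⟨h.tm.k₀, a⟩ : Σ k, h.tm.Γ k)
  have hA : A.Finite :=
    (Set.finite_iUnion fun l => pushSet_finite _).union (Set.finite_range _)
  obtain ⟨d, dec, hd, hdec⟩ := exists_dec (Λ := h.tm.Λ) (σ := h.tm.σ) hA
  let q : Par2 := ⟨c, d, P, h.time, fun jj tg fn α => allowedCol h.tm h.inputAlphabet.symm
    (h.outputAlphabet.symm true) c jj tg fn (fun i => dec (α i))⟩
  have hcg : ∀ a b c α β, (∀ i < q.M, α i = β i) → q.Tab a b c α → q.Tab a b c β :=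
    fun a b c α β hαβ hα => allowedCol_congr h.tm (β := fun i => dec (α i))
      (β' := fun i => dec (β i)) (fun i hi => by rw [hαβ i hi]) hc0 hα
  refine ⟨q, rfl, hd, hcg, fun x u e he hu => ?_⟩
  have hlen : (pair x [] ++ e).length = Par2.lx x + 2 * q.pw x := by
    rw [List.length_append, he]
    rfl
  have happ : ∀ w, pair x [] ++ e ++ w = pair x (e ++ w) := fun w => by
    rw [List.append_assoc, pair_append]
  have htime : ∀ w : List Bool, w.length ≤ q.pw x →
      h.time.eval (pair x [] ++ e ++ w).length ≤ q.T x := by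
    intro w hw
    refine eval_mono _ ?_
    rw [List.length_append, hlen]
    omega
  unfold Par2.inst
  rw [sol_iff (d := q.d) (al := q.al x) hd (fun π b α β a => hcg _ _ _ α β a)]
  simp only [Par2.al, ← q.tag_eq x he hu]
  constructor
  · rintro ⟨B, -, hB⟩
    obtain ⟨w, hw, hacc⟩ := tableau_sound h.tm h.inputAlphabet.symm
      (h.outputAlphabet.symm true) hc hc0 (pair x [] ++ e) (pw := q.pw x) (T := q.T x)
      (J := q.J x) (k := q.k x) (by rw [hlen]; unfold Par2.J; omega)
      (by unfold Par2.J; change _ < _ + _ * c + 1; omega)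
      (by unfold Par2.k; omega) (fun y => dec (B y)) hB
    rw [run_output h _ (htime w hw), happ] at hacc
    exact ⟨w, hw, h.outputAlphabet.symm.injective (Option.some.inj hacc)⟩
  · rintro ⟨w, hw, hV⟩
    have hacc := run_output h _ (htime w hw)
    rw [show V (pair x [] ++ e ++ w) = true by rw [happ]; exact hV] at hacc
    have hmem : ∀ y : ℕ × ℕ, ∃ a < d, dec a = colOf ((run h.tm.m)^[y.1]
        (initList h.tm ((pair x [] ++ e ++ w).map h.inputAlphabet.symm))) y.2 := by
      intro y
      refine hdec _ fun k a ha => ?_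
      refine run_mem (A := A) h.tm.m
        (fun l => (Set.subset_iUnion (fun l => pushSet (h.tm.m l)) l).trans
          Set.subset_union_left) _ ?_ y.1 k a (List.mem_of_getElem? ha)
      intro k a ha
      by_cases hk : k = h.tm.k₀
      · subst hk
        exact Or.inr ⟨a, rfl⟩
      · rw [initList_stk_ne _ _ hk] at ha
        cases ha
    choose B hB1 hB2 using hmem
    refine ⟨B, hB1, fun π _ => ?_⟩
    have := tableau_complete h.tm h.inputAlphabet.symm (h.outputAlphabet.symm true) hc hc0
      (pair x [] ++ e) (pw := q.pw x) (T := q.T x) (q.J x) w hw hacc π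
    simp only [← hB2] at this
    exact this

/-- decoding of a word of length at most `P` from a word of length `2 P` -/
def dcd (P : ℕ) (e : List Bool) : List Bool := (e.take P).take ((e.drop P).count true)

theorem exists_dcd {P : ℕ} {u : List Bool} (hu : u.length ≤ P) :
    ∃ e : List Bool, e.length = 2 * P ∧ dcd P e = u := by
  refine ⟨(u ++ List.replicate (P - u.length) false) ++
    (List.replicate u.length true ++ List.replicate (P - u.length) false), by simp; omega, ?_⟩
  have h : (u ++ List.replicate (P - u.length) false).length = P := by simp; omega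
  rw [dcd, List.take_left' h, List.drop_left' h]
  simp [List.count_replicate]

/-- The verifier with a block of free bits. -/
def ver (V : List Bool → Bool) (P : Polynomial ℕ) (z : List Bool) : Bool :=
  !V (pair (pair (unp1 z)
    (dcd (P.eval (unp1 z).length) ((unp2 z).take (2 * P.eval (unp1 z).length))))
    ((unp2 z).drop (2 * P.eval (unp1 z).length)))

theorem pt_dcd {α : Type} [Enc α] {n : α → ℕ} {e : α → List Bool} (hn : PT n) (he : PT e) :
    PT fun a => dcd (n a) (e a) :=
  PT.take (PT.count (PT.const true) (PT.drop hn he)) (PT.take hn he)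

theorem pt_ver {V : List Bool → Bool} (hV : PT V) (P : Polynomial ℕ) : PT (ver V P) := by
  have h1 : PT unp1 := pt_unp1 PT.id
  have h2 : PT unp2 := pt_unp2 PT.id
  have hp : PT fun z : List Bool => P.eval (unp1 z).length := pt_eval _ (PT.length h1)
  have hp2 := PT.mul (PT.const 2) hp
  exact PT.not (hV.comp (Par.pt_pair (Par.pt_pair h1 (pt_dcd hp (PT.take hp2 h2)))
    (PT.drop hp2 h2)))

theorem ver_pair (V : List Bool → Bool) (P : Polynomial ℕ) (x e w : List Bool)
    (he : e.length = 2 * P.eval x.length) :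
    ver V P (pair x (e ++ w)) = !V (pair (pair x (dcd (P.eval x.length) e)) w) := by
  simp only [ver, unp1_pair, unp2_pair, List.take_left' he, List.drop_left' he]

theorem out_mem (q : Par2) (x : List Bool) : (q.inst x).out ∈ BothLang ↔
    ∃ u : ℕ → ℕ, (∀ p, u p < 2) ∧ ¬ ∃ σ, (q.inst x).Sol u σ := by
  rw [Inst.out, bitsL_eq, adjBits_mem]
  refine Inst.alpha_graph_iff ?_ ?_
    fun p s p' t a i hi i' hi' e => (a i' hi' i hi e.symm).symm
  · change 64 ≤ q.k x
    unfold Par2.k
    omega
  · change q.d ^ q.M ≤ q.k x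
    unfold Par2.k
    omega

theorem hard (L : Set (List Bool)) (hL : InSigma2 L) :
    ∃ f : List Bool → List Bool, Nonempty (TM2ComputableInPolyTime id id f) ∧
      ∀ x, x ∈ L ↔ f x ∈ BothLang := by
  obtain ⟨V, P, ⟨h⟩, hV⟩ := hL
  have hV' : PT (ver V P) := pt_ver (Pool.Agent.Lib.Helper33.Sim.pt_of_tm_bool h) P
  obtain ⟨h'⟩ := PT.computableInPolyTime id Computability.encodeBool (ver V P)
    (F := fun z => [ver V P z]) (PT.cons hV' (PT.const [])) fun _ => rfl
  obtain ⟨q, hqP, hd, hc, hq⟩ := exists_par2 h' P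
  have hpt := q.pt_out hd hc
  have hm := out_mem q
  generalize hf : (fun x => (q.inst x).out) = f at hpt
  replace hm : ∀ x, f x ∈ BothLang ↔ ∃ u : ℕ → ℕ, (∀ p, u p < 2) ∧ ¬ ∃ σ, (q.inst x).Sol u σ :=
    hf ▸ hm
  refine ⟨f, PT.computableInPolyTime id id f hpt fun _ => rfl, fun x => ?_⟩
  have hpw : q.pw x = P.eval x.length := by rw [Par2.pw, hqP]
  have hev : ∀ e w : List Bool, e.length = 2 * q.pw x →
      ver V P (pair x (e ++ w)) = !V (pair (pair x (dcd (q.pw x) e)) w) := by
    intro e w he
    rw [hpw] at he ⊢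
    exact ver_pair V P x e w he
  rw [hm, hV, ← hpw]
  constructor
  · rintro ⟨u, hu, hw⟩
    obtain ⟨e, he, rfl⟩ := exists_dcd hu
    refine ⟨fun π => if e.getD (π - Par2.lx x) false = true then 1 else 0,
      fun π => by dsimp only; split_ifs <;> omega, ?_⟩
    rw [hq x _ e he fun i _ => by simp]
    rintro ⟨w, h1, h2⟩
    rw [hev e w he, hw w h1] at h2
    simp at h2
  · rintro ⟨u, -, hu⟩
    let e := (List.range (2 * q.pw x)).map fun i => decide (u (Par2.lx x + i) = 1)
    have he : e.length = 2 * q.pw x := by simp [e]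
    rw [hq x u e he fun i hi => by simp [e, List.getD_eq_getElem?_getD, hi]] at hu
    refine ⟨dcd (q.pw x) e, ?_, fun w hw => ?_⟩
    · unfold dcd
      exact (List.length_take_le' _ _).trans (List.length_take_le _ _)
    · by_contra hc
      exact hu ⟨w, hw, by rw [hev e w he]; simpa using hc⟩

end Pool.Agent.P.MP_5d374e_co.S2
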