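import Pool.Agent.P.MP_5d374e_co.S2.Rep

/-!
Every alpha-graph has a representation of polynomial size.
-/

set_option autoImplicit false

namespace Pool.Agent.P.MP_5d374e_co.S2

open Finset

theorem Rep.map {W T T' : Type} [DecidableEq T] [DecidableEq T'] {H : SimpleGraph W} {K : ℕ}
    {φ : W → Finset T} (h : Rep H K φ) {U : Finset T} (hU : ∀ x, φ x ⊆ U) {f : T → T'}
    (hf : Set.InjOn f U) : Rep H K fun x => (φ x).image f := by
  classical
  have hc : ∀ s : Finset T, s ⊆ U → (s.image f).card = s.card := fun s hs =>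
    card_image_of_injOn (hf.mono hs)
  have hm : ∀ x, ∀ t ∈ U, f t ∈ (φ x).image f ↔ t ∈ φ x := by
    intro x t ht
    refine ⟨fun a => ?_, mem_image_of_mem f⟩
    obtain ⟨t', a, b⟩ := mem_image.1 a
    exact hf (hU x a) ht b ▸ a
  refine ⟨fun x => by rw [hc _ (hU x), h.card], fun x y e => h.inj x y ?_, fun x y => ?_,
    fun J h1 h2 => ?_⟩
  · ext t
    exact ⟨fun a => (hm y t (hU x a)).1 (e ▸ mem_image_of_mem f a),
      fun a => (hm x t (hU y a)).1 (e ▸ mem_image_of_mem f a)⟩
  · rw [h.adj, ← image_inter_of_injOn _ _ (hf.mono (by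
      rw [← coe_union]
      exact union_subset (hU x) (hU y))), hc _ (inter_subset_left.trans (hU x))]
  · have e : (U.filter fun t => f t ∈ J).image f = J := by
      ext i
      simp only [mem_image, mem_filter]
      constructor
      · rintro ⟨t, a, rfl⟩
        exact a.2
      · intro a
        obtain ⟨x, b, -⟩ := h2 i a i a
        obtain ⟨t, c, rfl⟩ := mem_image.1 b
        exact ⟨t, ⟨hU x c, a⟩, rfl⟩
    obtain ⟨x, hx⟩ := h.helly (U.filter fun t => f t ∈ J)
      (by rwa [← hc _ (filter_subset _ _), e]) (by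
        intro i hi j hj
        rw [mem_filter] at hi hj
        obtain ⟨x, a, b⟩ := h2 _ hi.2 _ hj.2
        exact ⟨x, (hm x i hi.1).1 a, (hm x j hj.1).1 b⟩)
    exact ⟨x, e ▸ image_subset_image hx⟩

/-- The bound on the number of tokens. -/
def nb (N : ℕ) : ℕ := N * N + N * (N * N + 2)

theorem small_rep {N : ℕ} {H : SimpleGraph (Fin N)} (h : AlphaRealizable H) :
    0 < N ∧ ∃ (K : ℕ) (ψ : Fin N → Finset ℕ), Rep H K ψ ∧ ∀ x, ψ x ⊆ range (nb N) := by
  classical
  obtain ⟨hne, n, K, φ, h⟩ := exists_rep h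
  refine ⟨Fin.pos_iff_nonempty.2 hne, ?_⟩
  let M : Finset (Fin n) := univ.filter fun t => ∃ x y, H.Adj x y ∧ t ∈ φ x ∧ t ∉ φ y
  have hM : M.card ≤ N * N := by
    rcases M.eq_empty_or_nonempty with e | ⟨t₀, -⟩
    · simp [e]
    have : Nonempty (Fin n) := ⟨t₀⟩
    have h1 : ∀ p : Fin N × Fin N, H.Adj p.1 p.2 → ∃ u v, Sw (φ p.1) (φ p.2) u v :=
      fun p a => (h.adj_iff _ _).1 a
    choose! o v ho using h1
    have h2 : M ⊆ univ.image o := by
      intro t ht
      obtain ⟨x, y, a, b, c⟩ := (mem_filter.1 ht).2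
      exact mem_image.2 ⟨(x, y), mem_univ _, ((ho (x, y) a).out_eq b c).symm⟩
    exact (card_le_card h2).trans (card_image_le.trans (by simp))
  have hadj : ∀ x y, H.Adj x y → φ x \ M = φ y \ M := by
    have : ∀ x y, H.Adj x y → φ x \ M ⊆ φ y \ M := by
      intro x y a t ht
      rw [mem_sdiff] at ht ⊢
      refine ⟨?_, ht.2⟩
      by_contra c
      exact ht.2 (mem_filter.2 ⟨mem_univ _, x, y, a, ht.1, c⟩)
    exact fun x y a => Subset.antisymm (this x y a) (this y x a.symm)
  have hr : ∀ A : Finset (Fin n), (∃ y, φ y \ M = A) → ∃ y, φ y \ M = A := fun _ a => a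
  choose! r hr using hr
  have hr' : ∀ x y, r (φ x \ M) = r (φ y \ M) → φ x \ M = φ y \ M := fun x y e => by
    rw [← hr _ ⟨x, rfl⟩, e, hr _ ⟨y, rfl⟩]
  have ha : ∀ x, (φ x ∩ M).card + (φ x \ M).card = K := fun x => by
    rw [card_inter_add_card_sdiff, h.card]
  have ha' : ∀ x, (φ x ∩ M).card ≤ M.card := fun x => card_le_card inter_subset_right
  let ρ : Fin N → Finset (Fin N × ℕ) := fun x =>
    (range (M.card + 2 - (φ x ∩ M).card)).image fun i => (r (φ x \ M), i)
  have hρ : ∀ x (p : Fin N × ℕ), p ∈ ρ x ↔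
      p.1 = r (φ x \ M) ∧ p.2 < M.card + 2 - (φ x ∩ M).card := by
    rintro x ⟨a, i⟩
    simp only [ρ, mem_image, mem_range, Prod.mk.injEq]
    constructor
    · rintro ⟨j, a, rfl, rfl⟩
      exact ⟨rfl, a⟩
    · rintro ⟨rfl, a⟩
      exact ⟨i, a, rfl, rfl⟩
  have hρc : ∀ x, (ρ x).card = M.card + 2 - (φ x ∩ M).card := fun x => by
    rw [card_image_of_injective _ fun i j e => (Prod.ext_iff.1 e).2, card_range]
  have hρe : ∀ x y, φ x \ M = φ y \ M → ρ x = ρ y := by
    intro x y e
    have h1 := ha x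
    have h2 := ha y
    rw [e] at h1
    simp only [ρ, e, show (φ x ∩ M).card = (φ y ∩ M).card by omega]
  have hρe' : ∀ x y p, p ∈ ρ x → p ∈ ρ y → φ x \ M = φ y \ M := fun x y p a b =>
    hr' x y (((hρ x p).1 a).1.symm.trans ((hρ y p).1 b).1)
  have key : Rep H (M.card + 2) fun x => (φ x ∩ M).disjSum (ρ x) := by
    refine ⟨fun x => ?_, fun x y e => ?_, fun x y => ?_, fun J h1 h2 => ?_⟩
    · have := ha' x
      rw [card_disjSum, hρc]
      omega
    · obtain ⟨e1, e2⟩ := disjSum_inj.1 e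
      have : (r (φ x \ M), 0) ∈ ρ x := (hρ _ _).2 ⟨rfl, by have := ha' x; omega⟩
      refine h.inj x y ?_
      rw [← sdiff_union_inter (φ x) M, hρe' x y _ this (e2 ▸ this), e1, sdiff_union_inter]
    · have e : (φ x ∩ M).disjSum (ρ x) ∩ (φ y ∩ M).disjSum (ρ y) =
          (φ x ∩ φ y ∩ M).disjSum (ρ x ∩ ρ y) := by
        ext (t | p)
        · simp only [mem_inter, inl_mem_disjSum]
          tauto
        · simp only [mem_inter, inr_mem_disjSum]
      rw [e, card_disjSum]
      by_cases a : φ x \ M = φ y \ M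
      · have e1 : (φ x ∩ φ y) \ M = φ x \ M := by
          ext t
          have := Finset.ext_iff.1 a t
          simp only [mem_sdiff, mem_inter] at this ⊢
          tauto
        have e2 := card_inter_add_card_sdiff (φ x ∩ φ y) M
        have e3 := ha x
        have e4 := ha' x
        rw [← hρe x y a, inter_self, hρc, h.adj]
        rw [e1] at e2
        omega
      · have e1 : ρ x ∩ ρ y = ∅ := eq_empty_of_forall_notMem fun p hp =>
          a (hρe' x y p (mem_inter.1 hp).1 (mem_inter.1 hp).2)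
        have e2 : (φ x ∩ φ y ∩ M).card ≤ M.card := card_le_card inter_subset_right
        rw [e1, card_empty]
        exact iff_of_false (fun b => a (hadj x y b)) (by omega)
    · have c1 := card_toLeft_add_card_toRight (u := J)
      have l1 : J.toLeft ⊆ M := fun t ht => by
        obtain ⟨x, a, -⟩ := h2 _ (mem_toLeft.1 ht) _ (mem_toLeft.1 ht)
        exact (mem_inter.1 (inl_mem_disjSum.1 a)).2
      have c2 := card_le_card l1
      obtain ⟨p₀, hp₀⟩ : J.toRight.Nonempty := card_pos.1 (by omega)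
      obtain ⟨x₀, hx₀, -⟩ := h2 _ (mem_toRight.1 hp₀) _ (mem_toRight.1 hp₀)
      rw [inr_mem_disjSum] at hx₀
      have l2 : J.toRight ⊆ ρ x₀ := fun p hp => by
        obtain ⟨y, a, b⟩ := h2 _ (mem_toRight.1 hp₀) _ (mem_toRight.1 hp)
        rw [inr_mem_disjSum] at a b
        rwa [hρe _ _ (hρe' _ _ _ hx₀ a)]
      have c3 := card_le_card l2
      rw [hρc] at c3
      have c4 := ha x₀
      have c5 := ha' x₀
      have dj : Disjoint J.toLeft (φ x₀ \ M) :=
        disjoint_left.2 fun t a b => (mem_sdiff.1 b).2 (l1 a)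
      have l3 : ∀ t ∈ J.toLeft, ∃ y, t ∈ φ y ∧ φ x₀ \ M ⊆ φ y := by
        intro t ht
        obtain ⟨y, a, b⟩ := h2 _ (mem_toRight.1 hp₀) _ (mem_toLeft.1 ht)
        rw [inr_mem_disjSum] at a
        exact ⟨y, (mem_inter.1 (inl_mem_disjSum.1 b)).1, hρe' _ _ _ hx₀ a ▸ sdiff_subset⟩
      have c6 : K ≤ (J.toLeft ∪ φ x₀ \ M).card := by
        rw [card_union_of_disjoint dj]
        omega
      obtain ⟨z, hz⟩ := h.helly _ c6 (by
        intro i hi j hj
        rcases mem_union.1 hi with hi | hi <;> rcases mem_union.1 hj with hj | hj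
        · obtain ⟨y, a, b⟩ := h2 _ (mem_toLeft.1 hi) _ (mem_toLeft.1 hj)
          exact ⟨y, (mem_inter.1 (inl_mem_disjSum.1 a)).1, (mem_inter.1 (inl_mem_disjSum.1 b)).1⟩
        · obtain ⟨y, a, b⟩ := l3 i hi
          exact ⟨y, a, b hj⟩
        · obtain ⟨y, a, b⟩ := l3 j hj
          exact ⟨y, b hi, a⟩
        · exact ⟨x₀, sdiff_subset hi, sdiff_subset hj⟩)
      have e := eq_of_subset_of_card_le hz (by rw [h.card]; exact c6)
      have e2 : φ z \ M = φ x₀ \ M := by
        rw [← e, union_sdiff_distrib, sdiff_eq_empty_iff_subset.2 l1, empty_union,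
          Finset.sdiff_idem]
      refine ⟨z, ?_⟩
      rintro (t | p) ht
      · have := mem_toLeft.2 ht
        exact inl_mem_disjSum.2 (mem_inter.2 ⟨hz (mem_union_left _ this), l1 this⟩)
      · exact inr_mem_disjSum.2 (hρe _ _ e2 ▸ l2 (mem_toRight.2 ht))
  let U : Finset (Fin n ⊕ Fin N × ℕ) := M.disjSum (univ ×ˢ range (M.card + 2))
  have hU : ∀ x, (φ x ∩ M).disjSum (ρ x) ⊆ U := fun x =>
    disjSum_mono inter_subset_right fun p hp =>
      mem_product.2 ⟨mem_univ _, mem_range.2 (by have := ((hρ x p).1 hp).2; omega)⟩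
  have hUc : U.card ≤ nb N := by
    simp only [U, card_disjSum, card_product, card_univ, Fintype.card_fin, card_range, nb]
    gcongr
  let f : Fin n ⊕ Fin N × ℕ → ℕ := fun t => if a : t ∈ U then U.equivFin ⟨t, a⟩ else 0
  have hf : Set.InjOn f U := by
    intro s hs t ht e
    have hs' : s ∈ U := hs
    have ht' : t ∈ U := ht
    simp only [f, hs', ht', dif_pos] at e
    exact congrArg Subtype.val (U.equivFin.injective (Fin.ext e))
  refine ⟨_, _, key.map hU hf, fun x i hi => ?_⟩
  obtain ⟨t, a, rfl⟩ := mem_image.1 hi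
  simp only [f, hU x a, dif_pos, mem_range]
  exact (Fin.is_lt _).trans_le hUc

end Pool.Agent.P.MP_5d374e_co.S2
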