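import Pool.Agent.P.MP_5d374e_co.S2.Hard
import Pool.Agent.P.MP_5d374e_co.S2.Small

/-!
Membership in the second level of the polynomial hierarchy.
-/

set_option autoImplicit false

namespace Pool.Agent.P.MP_5d374e_co.S2

open Pool.Agent.P.MP_ba7db8_lc Pool.Agent.Lib.Helper47 Turing Finset

theorem countP_range (n : ℕ) (p : ℕ → Bool) :
    (List.range n).countP p = ((range n).filter fun i => p i = true).card := by
  induction n with
  | zero => simp
  | succ n ih =>
    rw [List.range_succ, List.countP_append, ih, range_add_one, filter_insert]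
    by_cases h : p n = true
    · rw [if_pos h, card_insert_of_notMem (by simp)]
      simp [h]
    · rw [if_neg h]
      simp [h]

/-- entry of a table with rows of length `N` -/
def tb (u : List Bool) (N i a : ℕ) : Bool := u.getD (i * N + a) false

/-- number of common tokens -/
def cnt (u : List Bool) (N a b : ℕ) : ℕ :=
  (List.range (nb N)).countP fun i => tb u N i a && tb u N i b

/-- The check of the verifier. -/
def Chk (N : ℕ) (x u w : List Bool) : Prop :=
  x.length = N * N ∧ 0 < N ∧ (∀ a < N, ¬ tb x N a a = true) ∧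
    (∀ a < N, ∀ b < N, tb x N a b = true → tb x N b a = true) ∧
    (∀ a < N, cnt u N a a = cnt u N 0 0) ∧
    (∀ a < N, ∀ b < N, (∀ i < nb N, tb u N i a = tb u N i b) → a = b) ∧
    (∀ a < N, ∀ b < N, tb x N a b = decide (cnt u N a b + 1 = cnt u N 0 0)) ∧
    (cnt u N 0 0 ≤ (List.range (nb N)).countP (fun i => w.getD i false) →
      (∀ i < nb N, ∀ j < nb N, w.getD i false = true → w.getD j false = true →
        ∃ a < N, tb u N i a = true ∧ tb u N j a = true) →
      ∃ a < N, ∀ i < nb N, w.getD i false = true → tb u N i a = true)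

section PT

variable {α : Type} [Enc α]

@[fun_prop] theorem pt_tb {u : α → List Bool} {N i a : α → ℕ} (hu : PT u) (hN : PT N) (hi : PT i)
    (ha : PT a) : PT fun y => tb (u y) (N y) (i y) (a y) := by
  unfold tb
  fun_prop

@[fun_prop] theorem pt_nb {N : α → ℕ} (hN : PT N) : PT fun y => nb (N y) := by
  unfold nb
  fun_prop

theorem ps_nb {N : α → ℕ} (hN : PS N) : PS fun y => nb (N y) :=
  (hN.mul hN).add (hN.mul ((hN.mul hN).add (PB.const 2)))

theorem pt_cnt {u : α → List Bool} {N a b : α → ℕ} (hu : PT u) (hN : PT N) (hN' : PS N)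
    (ha : PT a) (hb : PT b) : PT fun y => cnt (u y) (N y) (a y) (b y) :=
  PT.countP (g := fun y i => tb (u y) (N y) i (a y) && tb (u y) (N y) i (b y)) (by fun_prop)
    (PT.range (pt_nb hN) (ps_nb hN'))

theorem ptp_Chk {N : α → ℕ} {x u w : α → List Bool} (hN : PT N) (hN' : PS N) (hx : PT x)
    (hu : PT u) (hw : PT w) : PTP fun y => Chk (N y) (x y) (u y) (w y) := by
  have n1 : PS fun y : α × ℕ => N y.1 := ps_fst hN'
  have n2 : PS fun y : (α × ℕ) × ℕ => N y.1.1 := ps_fst n1
  refine PTP.and (PTP.eq (by fun_prop) (by fun_prop)) (PTP.and (PTP.lt (by fun_prop) hN)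
    (PTP.and ?_ (PTP.and ?_ (PTP.and ?_ (PTP.and ?_ (PTP.and ?_ ?_))))))
  · exact PTP.ball hN hN' (PTP.eq (by fun_prop) (by fun_prop)).not
  · exact PTP.ball hN hN' (PTP.ball (by fun_prop) n1 (PTP.imp (PTP.eq (by fun_prop) (by fun_prop))
      (PTP.eq (by fun_prop) (by fun_prop))))
  · exact PTP.ball hN hN' (PTP.eq
      (pt_cnt (by fun_prop) (by fun_prop) n1 (by fun_prop) (by fun_prop))
      (pt_cnt (by fun_prop) (by fun_prop) n1 (by fun_prop) (by fun_prop)))
  · exact PTP.ball hN hN' (PTP.ball (by fun_prop) n1 (PTP.imp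
      (PTP.ball (by fun_prop) (ps_nb n2) (PTP.eq (by fun_prop) (by fun_prop)))
      (PTP.eq (by fun_prop) (by fun_prop))))
  · exact PTP.ball hN hN' (PTP.ball (by fun_prop) n1 (PTP.eq (by fun_prop) (PTP.dec (PTP.eq
      (PT.add (pt_cnt (by fun_prop) (by fun_prop) n2 (by fun_prop) (by fun_prop)) (PT.const 1))
      (pt_cnt (by fun_prop) (by fun_prop) n2 (by fun_prop) (by fun_prop))))))
  · refine PTP.imp (PTP.le (pt_cnt hu hN hN' (PT.const 0) (PT.const 0))
      (PT.countP (g := fun y i => (w y).getD i false) (by fun_prop)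
        (PT.range (pt_nb hN) (ps_nb hN')))) (PTP.imp ?_ ?_)
    · exact PTP.ball (pt_nb hN) (ps_nb hN') (PTP.ball (by fun_prop) (ps_nb n1)
        (PTP.imp (PTP.eq (by fun_prop) (by fun_prop)) (PTP.imp (PTP.eq (by fun_prop) (by fun_prop))
          (PTP.bex (by fun_prop) n2 (PTP.and (PTP.eq (by fun_prop) (by fun_prop))
            (PTP.eq (by fun_prop) (by fun_prop)))))))
    · exact PTP.bex hN hN' (PTP.ball (by fun_prop) (ps_nb n1)
        (PTP.imp (PTP.eq (by fun_prop) (by fun_prop)) (PTP.eq (by fun_prop) (by fun_prop))))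

theorem pt_sqrt_length {x : α → List Bool} (hx : PT x) : PT fun y => (x y).length.sqrt := by
  refine (PT.countP (g := fun y i => Nat.ble ((i + 1) * (i + 1)) (x y).length) (by fun_prop)
    (PT.rangeLength hx)).of_eq fun y => ?_
  rw [countP_range]
  have : ((range (x y).length).filter fun i => Nat.ble ((i + 1) * (i + 1)) (x y).length = true) =
      range (x y).length.sqrt := by
    ext i
    have := Nat.sqrt_le_self (x y).length
    simp only [mem_filter, mem_range, Nat.ble_eq, ← Nat.le_sqrt]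
    omega
  rw [this, card_range]

end PT

/-- the tokens of a vertex -/
def toks (u : List Bool) (N a : ℕ) : Finset ℕ := (range (nb N)).filter fun i => tb u N i a = true

theorem cnt_eq (u : List Bool) (N a b : ℕ) : cnt u N a b = (toks u N a ∩ toks u N b).card := by
  rw [cnt, countP_range]
  congr 1
  ext i
  simp only [toks, mem_filter, mem_inter, Bool.and_eq_true]
  tauto

theorem exists_word (n : ℕ) (J : Finset ℕ) :
    ∃ w : List Bool, w.length = n ∧ ∀ i < n, w.getD i false = true ↔ i ∈ J :=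
  ⟨(List.range n).map fun i => decide (i ∈ J), by simp,
    fun i hi => by simp [List.getD_eq_getElem?_getD, hi]⟩

theorem mem_of_chk {N : ℕ} {x u : List Bool}
    (h : ∀ w : List Bool, w.length ≤ nb N → Chk N x u w) : x ∈ BothLang := by
  obtain ⟨h1, h2, h3, h4, h5, h6, h7, -⟩ := h [] (Nat.zero_le _)
  let H : SimpleGraph (Fin N) :=
    ⟨fun a b => tb x N a b = true, ⟨fun a b => h4 a a.2 b b.2⟩, ⟨fun a => h3 a a.2⟩⟩
  have e : x = adjBits H := by
    refine List.ext_getElem (by rw [h1, length_adjBits]) fun i a b => ?_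
    have c : i / N < N := Nat.div_lt_of_lt_mul (h1 ▸ a)
    have d := getD_adjBits H ⟨i / N, c⟩ ⟨i % N, Nat.mod_lt _ h2⟩
    change _ ↔ x.getD (i / N * N + i % N) false = true at d
    simp only [Nat.div_add_mod'] at d
    rw [List.getD_eq_getElem _ _ a, List.getD_eq_getElem _ _ b] at d
    exact Bool.eq_iff_iff.2 d.symm
  rw [e, adjBits_mem]
  have : Nonempty (Fin N) := ⟨⟨0, h2⟩⟩
  refine alpha_of_rep (K := cnt u N 0 0) (φ := fun a => toks u N a) ⟨fun a => ?_, fun a b e => ?_,
    fun a b => ?_, fun J j1 j2 => ?_⟩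
  · rw [← h5 a a.2, cnt_eq, inter_self]
  · refine Fin.ext (h6 a a.2 b b.2 fun i hi => ?_)
    have := Finset.ext_iff.1 e i
    simp only [toks, mem_filter, mem_range, hi, true_and] at this
    exact Bool.eq_iff_iff.2 this
  · change tb x N a b = true ↔ _
    rw [h7 a a.2 b b.2, decide_eq_true_eq, cnt_eq]
  · obtain ⟨w, w1, w2⟩ := exists_word (nb N) J
    have hJ : ∀ i ∈ J, i < nb N := fun i hi => by
      obtain ⟨a, b, -⟩ := j2 i hi i hi
      exact mem_range.1 (mem_filter.1 b).1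
    obtain ⟨a, ha, hb⟩ := (h w w1.le).2.2.2.2.2.2.2 (by
      rw [countP_range]
      refine j1.trans (card_le_card fun i hi => ?_)
      exact mem_filter.2 ⟨mem_range.2 (hJ i hi), (w2 i (hJ i hi)).2 hi⟩) (by
      intro i hi j hj a b
      obtain ⟨c, d, e⟩ := j2 i ((w2 i hi).1 a) j ((w2 j hj).1 b)
      exact ⟨c, c.2, (mem_filter.1 d).2, (mem_filter.1 e).2⟩)
    exact ⟨⟨a, ha⟩, fun i hi => mem_filter.2 ⟨mem_range.2 (hJ i hi),
      hb i (hJ i hi) ((w2 i (hJ i hi)).2 hi)⟩⟩

theorem chk_of_alpha {N : ℕ} {H : SimpleGraph (Fin N)} (h : AlphaRealizable H) :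
    ∃ u : List Bool, u.length = nb N * N ∧ ∀ w, Chk N (adjBits H) u w := by
  obtain ⟨hN, K, ψ, h, hψ⟩ := small_rep h
  let u := (List.range (nb N)).flatMap fun i => (List.range N).map fun a =>
    decide (∃ ha : a < N, i ∈ ψ ⟨a, ha⟩)
  have hu : ∀ i < nb N, ∀ a : Fin N, tb u N i a = true ↔ i ∈ ψ a := by
    intro i hi a
    rw [tb, getD_flatMap_range _ _ _ hi a.2]
    simp
  have ht : ∀ a : Fin N, toks u N a = ψ a := by
    intro a
    ext i
    simp only [toks, mem_filter, mem_range]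
    exact ⟨fun b => (hu i b.1 a).1 b.2, fun b => ⟨mem_range.1 (hψ a b),
      (hu i (mem_range.1 (hψ a b)) a).2 b⟩⟩
  have hc : ∀ a b : Fin N, cnt u N a b = (ψ a ∩ ψ b).card := fun a b => by rw [cnt_eq, ht, ht]
  have h0 : cnt u N 0 0 = K := by
    have := hc ⟨0, hN⟩ ⟨0, hN⟩
    rwa [inter_self, h.card] at this
  have hx : ∀ a b : Fin N, tb (adjBits H) N a b = true ↔ H.Adj a b := getD_adjBits H
  refine ⟨u, by simp [u, List.length_flatMap], fun w => ⟨length_adjBits H, hN, fun a ha => ?_,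
    fun a ha b hb => ?_, fun a ha => ?_, fun a ha b hb e => ?_, fun a ha b hb => ?_,
    fun a b => ?_⟩⟩
  · exact fun e => H.irrefl ((hx ⟨a, ha⟩ ⟨a, ha⟩).1 e)
  · exact fun e => (hx ⟨b, hb⟩ ⟨a, ha⟩).2 ((hx ⟨a, ha⟩ ⟨b, hb⟩).1 e).symm
  · rw [h0, hc ⟨a, ha⟩ ⟨a, ha⟩, inter_self, h.card]
  · refine congrArg Fin.val (h.inj ⟨a, ha⟩ ⟨b, hb⟩ ?_)
    rw [← ht, ← ht]
    exact filter_congr fun i hi => by rw [e i (mem_range.1 hi)]
  · rw [Bool.eq_iff_iff, decide_eq_true_eq, h0, hc ⟨a, ha⟩ ⟨b, hb⟩, ← h.adj]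
    exact hx ⟨a, ha⟩ ⟨b, hb⟩
  · rw [h0, countP_range] at a
    obtain ⟨c, hc⟩ := h.helly _ a (by
      intro i hi j hj
      rw [mem_filter, mem_range] at hi hj
      obtain ⟨c, d, e, f⟩ := b i hi.1 j hj.1 hi.2 hj.2
      exact ⟨⟨c, d⟩, (hu i hi.1 ⟨c, d⟩).1 e, (hu j hj.1 ⟨c, d⟩).1 f⟩)
    exact ⟨c, c.2, fun i hi e => (hu i hi c).2 (hc (mem_filter.2 ⟨mem_range.2 hi, e⟩))⟩

theorem nb_mono {m n : ℕ} (h : m ≤ n) : nb m ≤ nb n := by
  unfold nb
  gcongr

theorem mem_sigma2 : InSigma2 BothLang := by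
  classical
  have h1 : PT fun z : List Bool => unp1 (unp1 z) := by fun_prop
  have h := (ptp_Chk (pt_sqrt_length h1) ((ps_length h1).mono fun _ => Nat.sqrt_le_self _) h1
    (u := fun z => unp2 (unp1 z)) (w := fun z => unp2 z) (by fun_prop) (by fun_prop)).dec
  generalize hV : (fun z : List Bool => decide (Chk (unp1 (unp1 z)).length.sqrt (unp1 (unp1 z))
    (unp2 (unp1 z)) (unp2 z))) = V at h
  have hV' : ∀ x u w, V (pair (pair x u) w) = true ↔ Chk x.length.sqrt x u w := by
    intro x u w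
    simp only [← hV, unp1_pair, unp2_pair, decide_eq_true_eq]
  let p : Polynomial ℕ := (Polynomial.X * Polynomial.X +
    Polynomial.X * (Polynomial.X * Polynomial.X + 2)) * (Polynomial.X + 1)
  have hp : ∀ n, p.eval n = nb n * (n + 1) := fun n => by simp [p, nb]
  refine ⟨V, p, PT.computableInPolyTime id Computability.encodeBool V
    (F := fun z => [V z]) (PT.cons h (PT.const [])) fun _ => rfl, fun x => ?_⟩
  simp only [hV', hp]
  constructor
  · rintro ⟨N, H, rfl, -, hH⟩
    obtain ⟨u, a, b⟩ := chk_of_alpha hH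
    rw [length_adjBits, Nat.sqrt_eq]
    refine ⟨u, a ▸ Nat.mul_le_mul (nb_mono (Nat.le_mul_self N)) ?_, fun w _ => b w⟩
    have := Nat.le_mul_self N
    omega
  · rintro ⟨u, -, b⟩
    refine mem_of_chk fun w hw => b w (hw.trans ?_)
    exact (nb_mono (Nat.sqrt_le_self _)).trans (Nat.le_mul_of_pos_right _ (Nat.succ_pos _))

end Pool.Agent.P.MP_5d374e_co.S2
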