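import Pool.Agent.P.MP_5d374e_co.S2.Enum
import Pool.Agent.P.MP_ba7db8_lc.PTP

/-!
The adjacency matrix of an instance is computable in polynomial time.
-/

set_option autoImplicit false

namespace Pool.Agent.P.MP_5d374e_co.S2

open Pool.Agent.P.MP_ba7db8_lc Pool.Agent.Lib.Helper47

variable {α : Type} [Enc α]

theorem pt_dd {W : Type} [Enc W] [DecidableEq W] {L : α → List W} (hL : PT L) (d : W) :
    PT fun a => dd (L a) d := by
  unfold dd
  have := PT.rangeLength hL
  fun_prop

theorem ptp_adjL {W : Type} [Enc W] {L : α → List (List W)} (hL : PT L) (d : W) {K a b : α → ℕ}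
    (hK : PT K) (hK' : PS K) (ha : PT a) (hb : PT b) :
    PTP fun x => adjL (L x) d (K x) (a x) (b x) := by
  refine PTP.and (PTP.eq ha hb).not (PTP.bex hK hK' (PTP.ball (by fun_prop) (ps_fst hK')
    (PTP.imp (PTP.eq (by fun_prop) (by fun_prop)).not (PTP.eq (by fun_prop) (by fun_prop)))))

theorem pt_bitsL {W : Type} [Enc W] {L : α → List (List W)} (hL : PT L) (d : W) {K : α → ℕ}
    (hK : PT K) (hK' : PS K) : PT fun x => bitsL (L x) d (K x) := by
  classical
  unfold bitsL
  refine PT.flatMap (g := fun x a => (List.range (L x).length).map fun b =>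
    decide (adjL (L x) d (K x) a b)) ?_ (PT.rangeLength hL)
  refine PT.map (g := fun (y : α × ℕ) b => decide (adjL (L y.1) d (K y.1) y.2 b)) ?_
    (PT.rangeLength (by fun_prop))
  exact ptp_adjL (by fun_prop) d (by fun_prop) (ps_fst (ps_fst hK')) (by fun_prop) (by fun_prop)

@[fun_prop] theorem pt_var {c : α → Co} (hc : PT c) : PT fun a => var (c a) :=
  PTP.ite (PTP.eq (by fun_prop) (by fun_prop)) (by fun_prop)
    (PTP.ite (PTP.eq (by fun_prop) (by fun_prop)) (by fun_prop) (by fun_prop))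

@[fun_prop] theorem pt_core {c : α → Co} (hc : PT c) : PT fun a => core (c a) := by
  unfold core
  fun_prop

@[fun_prop] theorem pt_hub {c : α → Co} (hc : PT c) : PT fun a => hub (c a) := by
  unfold hub
  fun_prop

@[fun_prop] theorem pt_tau {v w : α → Co} {l : α → ℕ} (hv : PT v) (hw : PT w) (hl : PT l) :
    PT fun a => tau (v a) (w a) (l a) :=
  PTP.ite (PTP.eq (by fun_prop) (by fun_prop)) (by fun_prop)
    (PTP.ite (PTP.eq (by fun_prop) (by fun_prop)) (by fun_prop) (by unfold fill; fun_prop))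

@[fun_prop] theorem pt_gad {p b l : α → ℕ} (hp : PT p) (hb : PT b) (hl : PT l) :
    PT fun a => gad (p a) (b a) (l a) :=
  PTP.ite (PTP.eq (by fun_prop) (by fun_prop)) (by unfold ab; fun_prop) (by unfold rho; fun_prop)

@[fun_prop] theorem pt_anc {n : α → Ln} {l : α → ℕ} (hn : PT n) (hl : PT l) :
    PT fun a => anc (n a) (l a) :=
  PTP.ite (PTP.lt (by fun_prop) (by fun_prop)) (by fun_prop)
    (pt_gad (by fun_prop) (PTP.ite (PTP.eq (by fun_prop) (by fun_prop)) (by fun_prop)
      (by fun_prop)) hl)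

@[fun_prop] theorem pt_car {n : α → Ln} (hn : PT n) : PT fun a => car (n a) :=
  PTP.ite (PTP.eq (by fun_prop) (by fun_prop)) (by fun_prop) (by fun_prop)

@[fun_prop] theorem pt_fir {n : α → Ln} (hn : PT n) : PT fun a => fir (n a) :=
  PTP.ite (PTP.eq (by fun_prop) (by fun_prop)) (by fun_prop)
    (PTP.ite (PTP.eq (by fun_prop) (by fun_prop)) (by fun_prop)
      (PTP.ite (PTP.eq (by fun_prop) (by fun_prop)) (by fun_prop) (by fun_prop)))

@[fun_prop] theorem pt_vl {n : α → Nm} {l : α → ℕ} (hn : PT n) (hl : PT l) :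
    PT fun a => vl (n a) (l a) :=
  PTP.ite (p := fun a => chg (car (n a).1) (fir (n a).1) (n a).2.1 (l a))
    (PTP.and (PTP.eq (by fun_prop) (by fun_prop)).not (PTP.and (PTP.lt (by fun_prop) (by fun_prop))
      (PTP.or (PTP.eq (by fun_prop) (by fun_prop)) (PTP.lt (by fun_prop) (by fun_prop)))))
    (by fun_prop) (by fun_prop)

theorem pt_tup {K : α → ℕ} {n : α → Nm} (hK : PT K) (hK' : PS K) (hn : PT n) :
    PT fun a => tup (K a) (n a) := by
  unfold tup
  refine PT.map (g := fun a l => (vl (n a) l, decide (l = (n a).2.2.1 ∨ l = (n a).2.2.2))) ?_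
    (PT.range hK hK')
  exact PT.prodMk (by fun_prop) (PTP.dec (PTP.or (PTP.eq (by fun_prop) (by fun_prop))
    (PTP.eq (by fun_prop) (by fun_prop))))

theorem pt_three {A B C : Type} [Enc A] [Enc B] [Enc C] {l : α → List A} {m : α → List B}
    {n : α → List C} (hl : PT l) (hm : PT m) (hn : PT n) :
    PT fun a => (l a).flatMap fun x => (m a).flatMap fun y => (n a).map fun z => (x, y, z) := by
  fun_prop

theorem pt_four {A B C D : Type} [Enc A] [Enc B] [Enc C] [Enc D] {l : α → List A}
    {m : α → List B} {n : α → List C} {r : α → List D} (hl : PT l) (hm : PT m) (hn : PT n)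
    (hr : PT r) : PT fun a => (l a).flatMap fun x => (m a).flatMap fun y =>
      (n a).flatMap fun z => (r a).map fun w => (x, y, z, w) := by
  fun_prop

theorem pt_cores {k D : α → ℕ} (hk : PT k) (hk' : PS k) (hD : PT D) (hD' : PS D) :
    PT fun a => cores (k a) (D a) :=
  pt_three (PT.const _) (PT.range hk hk')
    (PT.range (n := fun a => D a + 2 * k a) (by fun_prop) (hD'.add ((PB.const 2).mul hk')))

theorem pt_names {k D : α → ℕ} (hk : PT k) (hk' : PS k) (hD : PT D) (hD' : PS D) :
    PT fun a => names (k a) (D a) := by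
  have h0 := pt_cores hk hk' hD hD'
  have h1 := PT.range (n := fun a => 2 * k a + 2) (by fun_prop)
    (((PB.const 2).mul hk').add (PB.const 2))
  have h2 := PT.range (n := fun a => 2 * k a + 1) (by fun_prop)
    (((PB.const 2).mul hk').add (PB.const 1))
  exact pt_four (pt_three (PT.const _) h0 h0) h1 h2 h2

theorem ptp_real {x : α → Va} (hx : PT x) : PTP fun a => real (x a) :=
  PTP.and (PTP.eq (by fun_prop) (by fun_prop)) (PTP.eq (by fun_prop) (by fun_prop))

namespace Inst

variable {β : Type} [Enc β] {I : α → Inst}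

theorem ptp_LamP (hk : PT fun a => (I a).k) (hD : PT fun a => (I a).D)
    (hE : PTP fun y : α × ℕ × ℕ × ℕ × ℕ => (I y.1).E y.2.1 y.2.2.1 y.2.2.2.1 y.2.2.2.2)
    (hA : PTP fun y : α × ℕ × ℕ × ℕ => (I y.1).A y.2.1 y.2.2.1 y.2.2.2)
    {X : β → α} {v w : β → Co} (hX : PT X) (hv : PT v) (hw : PT w) :
    PTP fun b => (I (X b)).LamP (v b) (w b) := by
  have hk' := hk.comp hX
  have hD' := hD.comp hX
  have hE' : PTP fun b => (I (X b)).E (v b).2.1 (v b).2.2 (w b).2.1 (w b).2.2 :=
    hE.comp (f := fun b => (X b, (v b).2.1, (v b).2.2, (w b).2.1, (w b).2.2)) (by fun_prop)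
  have hA' : PTP fun b => (I (X b)).A (v b).2.1 (v b).2.2 (w b).2.2 :=
    hA.comp (f := fun b => (X b, (v b).2.1, (v b).2.2, (w b).2.2)) (by fun_prop)
  unfold LamP
  repeat' first
    | exact hE'
    | exact hA'
    | apply PTP.and
    | apply PTP.or
    | apply PTP.not
    | (apply PTP.eq <;> fun_prop)
    | (apply PTP.lt <;> fun_prop)

theorem pt_out (hk : PT fun a => (I a).k) (hk' : PS fun a => (I a).k) (hD : PT fun a => (I a).D)
    (hD' : PS fun a => (I a).D)
    (hE : PTP fun y : α × ℕ × ℕ × ℕ × ℕ => (I y.1).E y.2.1 y.2.2.1 y.2.2.2.1 y.2.2.2.2)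
    (hA : PTP fun y : α × ℕ × ℕ × ℕ => (I y.1).A y.2.1 y.2.2.1 y.2.2.2) :
    PT fun a => (I a).out := by
  classical
  have hK : PT fun a => 2 * (I a).k := by fun_prop
  have hK' : PS fun a => 2 * (I a).k := (PB.const 2).mul hk'
  have h1 : PTP fun y : α × Nm => (I y.1).LamP y.2.1.2.1 y.2.1.2.2 :=
    ptp_LamP hk hD hE hA (by fun_prop) (by fun_prop) (by fun_prop)
  have h2 : PT fun y : α × Nm => (I y.1).k := hk.comp (by fun_prop)
  have h3 : PTP fun y : α × Nm => (I y.1).ok y.2 := by
    unfold ok okL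
    repeat' first
      | exact h1
      | (apply ptp_real; fun_prop)
      | apply PTP.and
      | apply PTP.or
      | (apply PTP.eq <;> fun_prop)
      | (apply PTP.lt <;> fun_prop)
      | apply PTP.not
      | apply PTP.imp
  unfold out verts
  refine pt_bitsL (pt_dd ?_ _) _ hK hK'
  refine PT.map (g := fun a n => tup (2 * (I a).k) n)
    (pt_tup (by fun_prop) (ps_fst hK') (by fun_prop)) ?_
  exact PT.filter (g := fun a n => decide ((I a).ok n)) h3.dec (pt_names hk hk' hD hD')

end Inst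

end Pool.Agent.P.MP_5d374e_co.S2
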