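import Pool.Agent.P.MP_5d374e_co.Helly

/-!
Token representations of alpha-graphs, and the local rules for triangles and squares.
-/

set_option autoImplicit false

namespace Pool.Agent.P.MP_5d374e_co.S2

open Finset

/-- A representation of `H` by sets of `K` tokens. -/
structure Rep {W T : Type} [DecidableEq T] (H : SimpleGraph W) (K : ℕ) (φ : W → Finset T) :
    Prop where
  card : ∀ x, (φ x).card = K
  inj : ∀ x y, φ x = φ y → x = y
  adj : ∀ x y, H.Adj x y ↔ (φ x ∩ φ y).card + 1 = K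
  helly : ∀ J : Finset T, K ≤ J.card → (∀ i ∈ J, ∀ j ∈ J, ∃ x, i ∈ φ x ∧ j ∈ φ x) →
    ∃ x, J ⊆ φ x

theorem exists_rep {W : Type} {H : SimpleGraph W} (h : AlphaRealizable H) :
    Nonempty W ∧ ∃ (n K : ℕ) (φ : W → Finset (Fin n)), Rep H K φ := by
  classical
  obtain ⟨hne, k, n, B, h1, h2, h3, h4⟩ := (alphaRealizable_iff H).1 h
  refine ⟨hne, n, k, fun x => univ.filter fun i => x ∈ B i, ?_, ?_, ?_, ?_⟩
  · intro x
    rw [← h1 x, ← Set.ncard_coe_finset]
    congr 1
    ext i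
    simp
  · intro x y hxy
    refine h2 x y fun i => ?_
    have := congrArg (fun s => i ∈ s) hxy
    simpa using this
  · intro x y
    have e : {i | x ∈ B i ∧ y ∈ B i} = (((univ.filter fun i => x ∈ B i) ∩
        (univ.filter fun i => y ∈ B i) : Finset (Fin n)) : Set (Fin n)) := by
      ext i
      simp
    rw [h3, e, Set.ncard_coe_finset]
  · intro J hJ hJ'
    obtain ⟨x, hx⟩ := h4 (J : Set (Fin n)) (by rwa [Set.ncard_coe_finset]) (by
      intro i hi j hj
      obtain ⟨x, hx1, hx2⟩ := hJ' i hi j hj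
      exact ⟨x, by simpa using hx1, by simpa using hx2⟩)
    exact ⟨x, fun i hi => by simpa using hx i hi⟩

theorem alpha_of_rep {W T : Type} [Finite W] [Nonempty W] [DecidableEq T] {H : SimpleGraph W}
    {K : ℕ} {φ : W → Finset T} (h : Rep H K φ) : AlphaRealizable H := by
  classical
  have := Fintype.ofFinite W
  let U : Finset T := univ.biUnion φ
  let e : U ≃ Fin U.card := U.equivFin
  let f : Fin U.card → T := fun i => (e.symm i).1
  have hf : Function.Injective f := Subtype.val_injective.comp e.symm.injective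
  have hsur : ∀ x, ∀ t ∈ φ x, ∃ i, f i = t := fun x t ht =>
    ⟨e ⟨t, mem_biUnion.2 ⟨x, mem_univ _, ht⟩⟩, by simp [f]⟩
  have hc : ∀ (x : W) (s : Finset T), s ⊆ φ x → {i | f i ∈ s}.ncard = s.card := by
    intro x s hs
    rw [← Set.ncard_image_of_injective _ hf, ← Set.ncard_coe_finset s]
    congr 1
    ext t
    constructor
    · rintro ⟨i, hi, rfl⟩
      exact hi
    · intro ht
      obtain ⟨i, rfl⟩ := hsur x t (hs ht)
      exact ⟨i, ht, rfl⟩
  refine (alphaRealizable_iff H).2 ⟨inferInstance, K, U.card, fun i => {x | f i ∈ φ x},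
    ?_, ?_, ?_, ?_⟩
  · intro x
    rw [← h.card x]
    exact hc x _ Subset.rfl
  · intro x y hxy
    refine h.inj x y (Finset.ext fun t => ⟨fun ht => ?_, fun ht => ?_⟩)
    · obtain ⟨i, rfl⟩ := hsur x t ht
      exact (hxy i).1 ht
    · obtain ⟨i, rfl⟩ := hsur y t ht
      exact (hxy i).2 ht
  · intro x y
    rw [h.adj, ← hc x _ inter_subset_left]
    simp only [mem_inter]
    rfl
  · intro J hJ hJ'
    obtain ⟨x, hx⟩ := h.helly (J.toFinset.image f) (by
      rw [card_image_of_injective _ hf]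
      rwa [Set.ncard_eq_toFinset_card'] at hJ) (by
      intro a ha b hb
      obtain ⟨i, hi, rfl⟩ := mem_image.1 ha
      obtain ⟨j, hj, rfl⟩ := mem_image.1 hb
      obtain ⟨x, hx1, hx2⟩ := hJ' i (Set.mem_toFinset.1 hi) j (Set.mem_toFinset.1 hj)
      exact ⟨x, hx1, hx2⟩)
    exact ⟨x, fun i hi => hx (mem_image_of_mem f (Set.mem_toFinset.2 hi))⟩

theorem alpha_congr {W W' : Type} {H : SimpleGraph W} {H' : SimpleGraph W'} (e : H ≃g H')
    (h : AlphaRealizable H') : AlphaRealizable H := by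
  obtain ⟨n, G, ⟨e'⟩⟩ := h
  exact ⟨n, G, ⟨e.trans e'⟩⟩

/-- `B` arises from `A` by replacing the token `u` by the token `v`. -/
def Sw {T : Type} (A B : Finset T) (u v : T) : Prop :=
  u ∈ A ∧ u ∉ B ∧ v ∉ A ∧ v ∈ B ∧ ∀ t, t ≠ u → t ≠ v → (t ∈ A ↔ t ∈ B)

theorem Sw.symm {T : Type} {A B : Finset T} {u v : T} (h : Sw A B u v) : Sw B A v u :=
  ⟨h.2.2.2.1, h.2.2.1, h.2.1, h.1, fun t h1 h2 => (h.2.2.2.2 t h2 h1).symm⟩

theorem Sw.mem {T : Type} {A B : Finset T} {u v : T} (h : Sw A B u v) (t : T) :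
    t ∈ B ↔ t = v ∨ (t ∈ A ∧ t ≠ u) := by
  obtain ⟨h1, h2, h3, h4, h5⟩ := h
  by_cases a : t = u
  · subst a
    constructor
    · exact fun h => absurd h h2
    · rintro (rfl | h)
      · exact h4
      · exact absurd rfl h.2
  · by_cases b : t = v
    · subst b
      simp [h4]
    · simp [a, b, h5 t a b]

theorem Sw.out_eq {T : Type} {A B : Finset T} {u v t : T} (h : Sw A B u v) (h1 : t ∈ A)
    (h2 : t ∉ B) : t = u := by
  by_contra a
  exact h2 ((h.mem t).2 (Or.inr ⟨h1, a⟩))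

theorem Sw.in_eq {T : Type} {A B : Finset T} {u v t : T} (h : Sw A B u v) (h1 : t ∉ A)
    (h2 : t ∈ B) : t = v := h.symm.out_eq h2 h1

namespace Rep

variable {W T : Type} [DecidableEq T] {H : SimpleGraph W} {K : ℕ} {φ : W → Finset T}

theorem adj_iff (h : Rep H K φ) (x y : W) : H.Adj x y ↔ ∃ u v, Sw (φ x) (φ y) u v := by
  rw [h.adj]
  constructor
  · intro hc
    have c1 : (φ x \ φ y).card = 1 := by
      have := card_sdiff_add_card_inter (φ x) (φ y)
      have := h.card x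
      omega
    have c2 : (φ y \ φ x).card = 1 := by
      have := card_sdiff_add_card_inter (φ y) (φ x)
      have := h.card y
      rw [inter_comm] at hc
      omega
    obtain ⟨u, hu⟩ := card_eq_one.1 c1
    obtain ⟨v, hv⟩ := card_eq_one.1 c2
    have hu' : ∀ t, (t ∈ φ x ∧ t ∉ φ y) ↔ t = u := fun t => by
      rw [← mem_sdiff, hu, mem_singleton]
    have hv' : ∀ t, (t ∈ φ y ∧ t ∉ φ x) ↔ t = v := fun t => by
      rw [← mem_sdiff, hv, mem_singleton]
    refine ⟨u, v, ((hu' u).2 rfl).1, ((hu' u).2 rfl).2, ((hv' v).2 rfl).2, ((hv' v).2 rfl).1,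
      fun t a b => ?_⟩
    have := hu' t
    have := hv' t
    tauto
  · rintro ⟨u, v, hs⟩
    have : φ x ∩ φ y = (φ x).erase u := by
      ext t
      rw [mem_inter, hs.mem, mem_erase]
      constructor
      · rintro ⟨a, rfl | b⟩
        · exact absurd a hs.2.2.1
        · exact ⟨b.2, a⟩
      · exact fun a => ⟨a.2, Or.inr ⟨a.2, a.1⟩⟩
    rw [this, card_erase_add_one hs.1, h.card]

/-- Two vertices whose token sets share all but one token are equal or adjacent. -/
theorem eq_or_adj (h : Rep H K φ) {x y : W} {u : T} (hs : ∀ t ∈ φ x, t ≠ u → t ∈ φ y) :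
    x = y ∨ H.Adj x y := by
  have h1 : (φ x).erase u ⊆ φ x ∩ φ y := fun t ht =>
    mem_inter.2 ⟨mem_of_mem_erase ht, hs t (mem_of_mem_erase ht) (ne_of_mem_erase ht)⟩
  have h2 := card_le_card h1
  have h3 : (φ x).card - 1 ≤ ((φ x).erase u).card := pred_card_le_card_erase
  have h4 : (φ x ∩ φ y).card ≤ (φ x).card := card_le_card inter_subset_left
  have h5 := h.card x
  by_cases hc : (φ x ∩ φ y).card = (φ x).card
  · left
    have e := eq_of_subset_of_card_le inter_subset_left hc.ge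
    refine h.inj x y (eq_of_subset_of_card_le (fun t ht => ?_) (by rw [h.card, h.card]))
    rw [← e] at ht
    exact (mem_inter.1 ht).2
  · right
    rw [h.adj]
    omega

/-- In a triangle the same token leaves. -/
theorem tri (h : Rep H K φ) {x y z : W} {u v u' v' : T} (h1 : Sw (φ x) (φ y) u v)
    (h2 : Sw (φ x) (φ z) u' v') (h3 : H.Adj y z) : u = u' := by
  by_contra hne
  obtain ⟨p, q, h3⟩ := (h.adj_iff y z).1 h3
  have a1 : u' = p := h3.out_eq ((h1.mem _).2 (Or.inr ⟨h2.1, fun e => hne e.symm⟩)) h2.2.1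
  have hv : v = v' := by
    by_contra hv
    have a2 : v = p := h3.out_eq h1.2.2.2.1 (fun e => by
      rcases (h2.mem _).1 e with e | e
      · exact hv e
      · exact h1.2.2.1 e.1)
    exact h1.2.2.1 (a2 ▸ a1 ▸ h2.1)
  subst hv
  have key : ∀ t ∈ φ x, ∃ w, t ∈ φ w ∧ v ∈ φ w := by
    intro t ht
    by_cases e : t = u
    · exact ⟨z, (h2.mem _).2 (Or.inr ⟨ht, e ▸ hne⟩), h2.2.2.2.1⟩
    · exact ⟨y, (h1.mem _).2 (Or.inr ⟨ht, e⟩), h1.2.2.2.1⟩
  obtain ⟨w, hw⟩ := h.helly (insert v (φ x)) (by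
    rw [card_insert_of_notMem h1.2.2.1, h.card]; omega) (by
    intro i hi j hj
    rcases mem_insert.1 hi with hi' | hi' <;> rcases mem_insert.1 hj with hj' | hj'
    · exact ⟨y, hi' ▸ h1.2.2.2.1, hj' ▸ h1.2.2.2.1⟩
    · obtain ⟨w, a, b⟩ := key j hj'
      exact ⟨w, hi' ▸ b, a⟩
    · exact hj' ▸ key i hi'
    · exact ⟨x, hi', hj'⟩)
  have := card_le_card hw
  rw [card_insert_of_notMem h1.2.2.1, h.card, h.card] at this
  omega

/-- Two non-adjacent neighbours use different tokens. -/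
theorem fork (h : Rep H K φ) {x y z : W} {u v u' v' : T} (h1 : Sw (φ x) (φ y) u v)
    (h2 : Sw (φ x) (φ z) u' v') (h3 : y ≠ z) (h4 : ¬ H.Adj y z) : u ≠ u' ∧ v ≠ v' := by
  have a : u ≠ u' := by
    rintro rfl
    refine (h.eq_or_adj (u := v) fun t ht hv => ?_).elim h3 h4
    exact (h2.mem t).2 (Or.inr (((h1.mem t).1 ht).resolve_left hv))
  refine ⟨a, ?_⟩
  rintro rfl
  refine (h.eq_or_adj (u := u') fun t ht hv => ?_).elim h3 h4
  rcases (h1.mem t).1 ht with e | e
  · exact (h2.mem t).2 (Or.inl e)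
  · exact (h2.mem t).2 (Or.inr ⟨e.1, hv⟩)

/-- In an induced square opposite edges move the same tokens. -/
theorem square (h : Rep H K φ) {x y w z : W} {u v u' v' p q : T} (h1 : Sw (φ x) (φ y) u v)
    (h2 : Sw (φ x) (φ w) u' v') (h3 : Sw (φ y) (φ z) p q) (h4 : H.Adj w z)
    (n1 : y ≠ w) (n2 : ¬ H.Adj y w) (n3 : x ≠ z) (n4 : ¬ H.Adj x z) : p = u' ∧ q = v' := by
  obtain ⟨a, b⟩ := h.fork h1 h2 n1 n2
  obtain ⟨c, d⟩ := h.fork h1.symm h3 n3 n4
  obtain ⟨p', q', h5⟩ := (h.adj_iff w z).1 h4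
  obtain ⟨c', d'⟩ := h.fork h2.symm h5 n3 n4
  have vz : v ∈ φ z := (h3.mem _).2 (Or.inr ⟨h1.2.2.2.1, c⟩)
  have vw : v ∉ φ w := fun e => by
    rcases (h2.mem _).1 e with e | e
    · exact b e
    · exact h1.2.2.1 e.1
  have e1 : v = q' := h5.in_eq vw vz
  have v'z : v' ∈ φ z := (h5.mem _).2 (Or.inr ⟨h2.2.2.2.1, c'⟩)
  have v'y : v' ∉ φ y := fun e => by
    rcases (h1.mem _).1 e with e | e
    · exact b e.symm
    · exact h2.2.2.1 e.1
  have e2 : v' = q := h3.in_eq v'y v'z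
  refine ⟨?_, e2.symm⟩
  have u'y : u' ∈ φ y := (h1.mem _).2 (Or.inr ⟨h2.1, a.symm⟩)
  have u'z : u' ∉ φ z := fun e => by
    have := h5.in_eq h2.2.1 e
    exact h1.2.2.1 (e1 ▸ this ▸ h2.1)
  exact (h3.out_eq u'y u'z).symm

end Rep

end Pool.Agent.P.MP_5d374e_co.S2
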