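import Pool.Agent.P.MP_5d374e_co.S2.Ham

/-!
Probes make every token representation rigid.
-/

set_option autoImplicit false

namespace Pool.Agent.P.MP_5d374e_co.S2

open Finset Relation

variable {ι V W T : Type}

/-- Tuples that agree outside one position. -/
def Off (X Y : ι → W) (j : ι) : Prop := ∀ l, l ≠ j → X l = Y l

/-- Tuples that differ in two positions. -/
def Far (X Y : ι → W) : Prop := ∃ i j, i ≠ j ∧ X i ≠ Y i ∧ X j ≠ Y j

/-- A step inside `R` that keeps position `i`. -/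
def Step (R : Set (ι → V)) (i : ι) (X Y : ι → V) : Prop :=
  X ∈ R ∧ Y ∈ R ∧ ∃ j, j ≠ i ∧ Off X Y j

/-- A step inside `R`. -/
def Step0 (R : Set (ι → V)) (X Y : ι → V) : Prop := X ∈ R ∧ Y ∈ R ∧ ∃ j, Off X Y j

/-- No probe. -/
def p0 (X : ι → V) : ι → V × Bool := fun l => (X l, false)

/-- One probe. -/
def p1 [DecidableEq ι] (X : ι → V) (i : ι) : ι → V × Bool := fun l => (X l, decide (l = i))

/-- Two probes. -/
def p2 [DecidableEq ι] (X : ι → V) (i j : ι) : ι → V × Bool :=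
  fun l => (X l, decide (l = i ∨ l = j))

theorem p0_mem {real : V → Prop} {R : Set (ι → V)} {X : ι → V} (h : X ∈ R) :
    p0 X ∈ probe real R := ⟨h, by simp [p0]⟩

theorem p1_mem [DecidableEq ι] {real : V → Prop} {R : Set (ι → V)} {X : ι → V} (h : X ∈ R)
    (i : ι) : p1 X i ∈ probe real R := by
  refine ⟨h, fun a b hab h1 h2 => ?_⟩
  simp only [p1, decide_eq_true_eq] at h1 h2
  exact absurd (h1.trans h2.symm) hab

theorem p2_mem [DecidableEq ι] {real : V → Prop} {R : Set (ι → V)} {X : ι → V} (h : X ∈ R)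
    {i j : ι} (hi : real (X i)) (hj : real (X j)) : p2 X i j ∈ probe real R := by
  refine ⟨h, fun a b _ h1 _ => ?_⟩
  simp only [p2, decide_eq_true_eq] at h1 ⊢
  rcases h1 with rfl | rfl <;> assumption

theorem probe_cases [DecidableEq ι] {real : V → Prop} {R : Set (ι → V)}
    (h2 : ∀ X ∈ R, ∀ i j l, real (X i) → real (X j) → real (X l) → i = j ∨ i = l ∨ j = l)
    {Y : ι → V × Bool} (hY : Y ∈ probe real R) : ∃ X ∈ R, Y = p0 X ∨ (∃ i, Y = p1 X i) ∨
      ∃ i j, i ≠ j ∧ real (X i) ∧ real (X j) ∧ Y = p2 X i j := by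
  refine ⟨_, hY.1, ?_⟩
  by_cases a : ∃ i, (Y i).2 = true
  · right
    obtain ⟨i, hi⟩ := a
    by_cases b : ∃ j, j ≠ i ∧ (Y j).2 = true
    · right
      obtain ⟨j, hj, hj'⟩ := b
      refine ⟨i, j, hj.symm, hY.2 i j hj.symm hi hj', hY.2 j i hj hj' hi, funext fun l => ?_⟩
      refine Prod.ext rfl ?_
      simp only [p2]
      rw [Bool.eq_iff_iff, decide_eq_true_eq]
      constructor
      · intro hl
        by_contra hc
        rw [not_or] at hc
        rcases h2 _ hY.1 i j l (hY.2 i j hj.symm hi hj') (hY.2 j i hj hj' hi)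
          (hY.2 l i hc.1 hl hi) with e | e | e
        · exact hj e.symm
        · exact hc.1 e.symm
        · exact hc.2 e.symm
      · rintro (rfl | rfl) <;> assumption
    · left
      refine ⟨i, funext fun l => Prod.ext rfl ?_⟩
      simp only [p1]
      rw [Bool.eq_iff_iff, decide_eq_true_eq]
      constructor
      · intro hl
        by_contra hc
        exact b ⟨l, hc, hl⟩
      · rintro rfl
        exact hi
  · left
    refine funext fun l => Prod.ext rfl ?_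
    simp only [p0]
    by_contra hc
    exact a ⟨l, by simpa using hc⟩

theorem Far.not_adj {S : Set (ι → W)} {X Y : S} (h : Far X.1 Y.1) :
    X ≠ Y ∧ ¬ (hamG S).Adj X Y := by
  obtain ⟨i, j, hij, hi, hj⟩ := h
  refine ⟨fun e => hi (by rw [e]), fun e => ?_⟩
  obtain ⟨l, hl⟩ := e.2
  by_cases a : i = l
  · exact hj (hl j fun b => hij (a.trans b.symm))
  · exact hi (hl i a)

theorem eqvGen_const {α β : Type} {r : α → α → Prop} (f : α → β) (hf : ∀ a b, r a b → f a = f b)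
    {a b : α} (h : EqvGen r a b) : f a = f b := by
  induction h with
  | rel a b h => exact hf a b h
  | refl a => rfl
  | symm a b _ ih => exact ih.symm
  | trans a b c _ _ ih1 ih2 => exact ih1.trans ih2

theorem exists_rigid [Fintype ι] [Nontrivial ι] [DecidableEq ι] {real : V → Prop}
    {R : Set (ι → V)} (hne : R.Nonempty)
    (h2 : ∀ X ∈ R, ∀ i j l, real (X i) → real (X j) → real (X l) → i = j ∨ i = l ∨ j = l)
    (hB : ∀ i, ∀ X ∈ R, ∀ Y ∈ R, X i = Y i → EqvGen (Step R i) X Y)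
    (hC : ∀ X ∈ R, ∀ Y ∈ R, EqvGen (Step0 R) X Y)
    (h : AlphaRealizable (hamG (probe real R))) :
    ∃ (n : ℕ) (g : ι → V × Bool → Fin n), Rigid (probe real R) g := by
  classical
  let S := probe real R
  obtain ⟨-, n, K, φ, h⟩ := exists_rep (H := hamG S) h
  let ψ : (ι → V × Bool) → Finset (Fin n) := fun Y => if hY : Y ∈ S then φ ⟨Y, hY⟩ else ∅
  have hψ : ∀ Y (hY : Y ∈ S), ψ Y = φ ⟨Y, hY⟩ := fun Y hY => dif_pos hY
  have hadj : ∀ X (hX : X ∈ S) Y (hY : Y ∈ S) j, X j ≠ Y j → Off X Y j →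
      (hamG S).Adj ⟨X, hX⟩ ⟨Y, hY⟩ := fun X hX Y hY j a b =>
    ⟨fun e => a (congrFun (congrArg Subtype.val e) j), j, b⟩
  have hsw : ∀ X ∈ S, ∀ Y ∈ S, ∀ j, X j ≠ Y j → Off X Y j → ∃ u v, Sw (ψ X) (ψ Y) u v := by
    intro X hX Y hY j a b
    rw [hψ X hX, hψ Y hY]
    exact (h.adj_iff _ _).1 (hadj X hX Y hY j a b)
  have htri : ∀ X ∈ S, ∀ Y ∈ S, ∀ Z ∈ S, ∀ u v u' v' j, Sw (ψ X) (ψ Y) u v →
      Sw (ψ X) (ψ Z) u' v' → Y j ≠ Z j → Off Y Z j → u = u' := by
    intro X hX Y hY Z hZ u v u' v' j a b c d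
    rw [hψ X hX, hψ Y hY] at a
    rw [hψ X hX, hψ Z hZ] at b
    exact h.tri a b (hadj Y hY Z hZ j c d)
  have hfork : ∀ X ∈ S, ∀ Y ∈ S, ∀ Z ∈ S, ∀ u v u' v', Sw (ψ X) (ψ Y) u v →
      Sw (ψ X) (ψ Z) u' v' → Far Y Z → u ≠ u' := by
    intro X hX Y hY Z hZ u v u' v' a b c
    rw [hψ X hX, hψ Y hY] at a
    rw [hψ X hX, hψ Z hZ] at b
    have := Far.not_adj (X := ⟨Y, hY⟩) (Y := ⟨Z, hZ⟩) c
    exact (h.fork a b this.1 this.2).1
  have hsq : ∀ X ∈ S, ∀ Y ∈ S, ∀ U ∈ S, ∀ Z ∈ S, ∀ u v u' v' p q j, Sw (ψ X) (ψ Y) u v →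
      Sw (ψ X) (ψ U) u' v' → Sw (ψ Y) (ψ Z) p q → U j ≠ Z j → Off U Z j → Far Y U → Far X Z →
      p = u' ∧ q = v' := by
    intro X hX Y hY U hU Z hZ u v u' v' p q j a b c d e f g
    rw [hψ X hX, hψ Y hY] at a
    rw [hψ X hX, hψ U hU] at b
    rw [hψ Y hY, hψ Z hZ] at c
    have f' := Far.not_adj (X := ⟨Y, hY⟩) (Y := ⟨U, hU⟩) f
    have g' := Far.not_adj (X := ⟨X, hX⟩) (Y := ⟨Z, hZ⟩) g
    exact h.square a b c (hadj U hU Z hZ j d e) f'.1 f'.2 g'.1 g'.2
  have hex : ∀ X ∈ R, ∀ i, ∃ u v, Sw (ψ (p0 X)) (ψ (p1 X i)) u v := fun X hX i =>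
    hsw _ (p0_mem hX) _ (p1_mem hX i) i (by simp [p0, p1]) fun l hl => by simp [p0, p1, hl]
  obtain ⟨X₀, hX₀⟩ := hne
  have : Nonempty (Fin n) := by
    obtain ⟨u, -⟩ := hex X₀ hX₀ (Classical.arbitrary ι)
    exact ⟨u⟩
  choose! o nn hon using hex
  have hne : ∀ {X Y : ι → V} {j : ι}, X ≠ Y → Off X Y j → X j ≠ Y j := by
    intro X Y j a b c
    refine a (funext fun l => ?_)
    by_cases hl : l = j
    · exact hl ▸ c
    · exact b l hl
  have hstep : ∀ i X Y, Step R i X Y → (o X i, nn X i) = (o Y i, nn Y i) := by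
    rintro i X Y ⟨hX, hY, j, hj, e⟩
    by_cases hXY : X = Y
    · rw [hXY]
    have hd := hne hXY e
    obtain ⟨u, v, s⟩ := hsw _ (p0_mem hX) _ (p0_mem hY) j (by simp [p0, hd])
      fun l hl => by simp [p0, e l hl]
    have := hsq _ (p0_mem hX) _ (p0_mem hY) _ (p1_mem hX i) _ (p1_mem hY i) _ _ _ _ _ _ j s
      (hon X hX i) (hon Y hY i) (by simp [p1, hd]) (fun l hl => by simp [p1, e l hl])
      ⟨j, i, hj, by simp [p0, p1, hd.symm], by simp [p0, p1]⟩
      ⟨j, i, hj, by simp [p0, p1, hd], by simp [p0, p1]⟩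
    rw [this.1, this.2]
  have hrep : ∀ i (a : V), ∃ Z : ι → V, ∀ X ∈ R, X i = a → (o X i, nn X i) = (o Z i, nn Z i) := by
    intro i a
    by_cases ha : ∃ Z ∈ R, Z i = a
    · obtain ⟨Z, hZ, e⟩ := ha
      exact ⟨Z, fun X hX e' => eqvGen_const (fun X => (o X i, nn X i)) (hstep i)
        (hB i X hX Z hZ (e'.trans e.symm))⟩
    · exact ⟨X₀, fun X hX e => absurd ⟨X, hX, e⟩ ha⟩
  choose rep hrep using hrep
  let g : ι → V × Bool → Fin n := fun i a => if a.2 then nn (rep i a.1) i else o (rep i a.1) i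
  have g0 : ∀ X ∈ R, ∀ i, g i (X i, false) = o X i := fun X hX i =>
    (Prod.ext_iff.1 (hrep i _ X hX rfl)).1.symm
  have g1 : ∀ X ∈ R, ∀ i, g i (X i, true) = nn X i := fun X hX i =>
    (Prod.ext_iff.1 (hrep i _ X hX rfl)).2.symm
  have oinj : ∀ X ∈ R, Function.Injective (o X) := by
    intro X hX i j e
    by_contra hij
    exact hfork _ (p0_mem hX) _ (p1_mem hX i) _ (p1_mem hX j) _ _ _ _ (hon X hX i) (hon X hX j)
      ⟨i, j, hij, by simp [p1, hij], by simp [p1, Ne.symm hij]⟩ e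
  let FF : (ι → V) → Finset (Fin n) := fun X => ψ (p0 X) \ univ.image (o X)
  have hFF : ∀ X Y, Step0 R X Y → FF X = FF Y := by
    rintro X Y ⟨hX, hY, j, e⟩
    by_cases hXY : X = Y
    · rw [hXY]
    have hd := hne hXY e
    obtain ⟨u, v, s⟩ := hsw _ (p0_mem hX) _ (p0_mem hY) j (by simp [p0, hd])
      fun l hl => by simp [p0, e l hl]
    have e1 : u = o X j := htri _ (p0_mem hX) _ (p0_mem hY) _ (p1_mem hX j) _ _ _ _ j s
      (hon X hX j) (by simp [p0, p1]) fun l hl => by simp [p0, p1, hl, e l hl]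
    have e2 : v = o Y j := htri _ (p0_mem hY) _ (p0_mem hX) _ (p1_mem hY j) _ _ _ _ j s.symm
      (hon Y hY j) (by simp [p0, p1]) fun l hl => by simp [p0, p1, hl, e l hl]
    have e3 : ∀ i, i ≠ j → o X i = o Y i := fun i hi =>
      (Prod.ext_iff.1 (hstep i X Y ⟨hX, hY, j, hi.symm, e⟩)).1
    subst e1 e2
    ext t
    simp only [FF, mem_sdiff, mem_image, mem_univ, true_and, not_exists]
    constructor
    · rintro ⟨a, b⟩
      refine ⟨(s.mem t).2 (Or.inr ⟨a, fun c => b j c.symm⟩), fun i c => ?_⟩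
      by_cases hi : i = j
      · subst hi
        exact s.2.2.1 (c ▸ a)
      · exact b i ((e3 i hi).trans c)
    · rintro ⟨a, b⟩
      refine ⟨(s.symm.mem t).2 (Or.inr ⟨a, fun c => b j c.symm⟩), fun i c => ?_⟩
      by_cases hi : i = j
      · subst hi
        exact s.2.1 (c ▸ a)
      · exact b i ((e3 i hi).symm.trans c)
  have hF : ∀ X ∈ R, FF X = FF X₀ := fun X hX => eqvGen_const FF hFF (hC X hX X₀ hX₀)
  have f0 : ∀ X ∈ R, ∀ t, t ∈ ψ (p0 X) ↔ t ∈ FF X₀ ∨ ∃ i, t = o X i := by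
    intro X hX t
    rw [← hF X hX]
    simp only [FF, mem_sdiff, mem_image, mem_univ, true_and]
    constructor
    · intro a
      by_cases b : ∃ i, o X i = t
      · exact Or.inr (b.imp fun _ => Eq.symm)
      · exact Or.inl ⟨a, b⟩
    · rintro (a | ⟨i, rfl⟩)
      · exact a.1
      · exact (hon X hX i).1
  have oF : ∀ X ∈ R, ∀ i, o X i ∉ FF X₀ := by
    intro X hX i
    rw [← hF X hX]
    simp [FF]
  have f1 : ∀ X ∈ R, ∀ i t, t ∈ ψ (p1 X i) ↔
      t ∈ FF X₀ ∨ t = nn X i ∨ ∃ l, l ≠ i ∧ t = o X l := by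
    intro X hX i t
    rw [(hon X hX i).mem, f0 X hX]
    constructor
    · rintro (a | ⟨a | ⟨l, rfl⟩, b⟩)
      · exact Or.inr (Or.inl a)
      · exact Or.inl a
      · exact Or.inr (Or.inr ⟨l, fun c => b (by rw [c]), rfl⟩)
    · rintro (a | a | ⟨l, hl, rfl⟩)
      · exact Or.inr ⟨Or.inl a, fun c => oF X hX i (c ▸ a)⟩
      · exact Or.inl a
      · exact Or.inr ⟨Or.inr ⟨l, rfl⟩, fun c => hl (oinj X hX c)⟩
  refine ⟨n, g, rigid_of_formula h (FF X₀) g ?_ ?_⟩
  · have a := h.card ⟨_, p0_mem hX₀⟩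
    rw [← hψ] at a
    have b : univ.image (o X₀) ⊆ ψ (p0 X₀) := fun t ht => by
      obtain ⟨i, -, rfl⟩ := mem_image.1 ht
      exact (hon X₀ hX₀ i).1
    have c := card_sdiff_add_card_eq_card b
    rw [card_image_of_injective _ (oinj X₀ hX₀), card_univ] at c
    rw [← a, ← c]
  · rintro ⟨Y, hY⟩ t
    rw [← hψ]
    obtain ⟨X, hX, rfl | ⟨i, rfl⟩ | ⟨i, j, hij, hi, hj, rfl⟩⟩ := probe_cases h2 hY
    · rw [f0 X hX]
      simp only [p0, g0 X hX]
    · rw [f1 X hX]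
      refine or_congr_right ⟨?_, ?_⟩
      · rintro (rfl | ⟨l, hl, rfl⟩)
        · exact ⟨i, by simp [p1, g1 X hX]⟩
        · exact ⟨l, by simp [p1, hl, g0 X hX]⟩
      · rintro ⟨l, rfl⟩
        by_cases hl : l = i
        · left
          simp [p1, hl, g1 X hX]
        · right
          exact ⟨l, hl, by simp [p1, hl, g0 X hX]⟩
    · obtain ⟨p, q, s⟩ := hsw _ (p1_mem hX i) _ hY j (by simp [p1, p2, hij.symm])
        fun l hl => by simp [p1, p2, hl]
      obtain ⟨rfl, rfl⟩ := hsq _ (p0_mem hX) _ (p1_mem hX i) _ (p1_mem hX j) _ hY _ _ _ _ _ _ i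
        (hon X hX i) (hon X hX j) s (by simp [p1, p2, hij]) (fun l hl => by simp [p1, p2, hl])
        ⟨i, j, hij, by simp [p1, hij], by simp [p1, hij.symm]⟩
        ⟨i, j, hij, by simp [p0, p2], by simp [p0, p2]⟩
      rw [s.mem, f1 X hX]
      constructor
      · rintro (rfl | ⟨a | rfl | ⟨l, hl, rfl⟩, b⟩)
        · exact Or.inr ⟨j, by simp [p2, g1 X hX]⟩
        · exact Or.inl a
        · exact Or.inr ⟨i, by simp [p2, g1 X hX]⟩
        · have hl' : l ≠ j := fun c => b (by rw [c])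
          exact Or.inr ⟨l, by simp [p2, hl, hl', g0 X hX]⟩
      · rintro (a | ⟨l, rfl⟩)
        · exact Or.inr ⟨Or.inl a, fun c => oF X hX j (c ▸ a)⟩
        · by_cases hl : l = j
          · left
            simp [p2, hl, g1 X hX]
          · right
            by_cases hl' : l = i
            · have e : g l (p2 X i j l) = nn X i := by simp [p2, hl', g1 X hX]
              rw [e]
              exact ⟨Or.inr (Or.inl rfl), fun c => (hon X hX i).2.2.1 (c ▸ (hon X hX j).1)⟩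
            · have e : g l (p2 X i j l) = o X l := by simp [p2, hl, hl', g0 X hX]
              rw [e]
              exact ⟨Or.inr (Or.inr ⟨l, hl', rfl⟩), fun c => hl (oinj X hX c)⟩

end Pool.Agent.P.MP_5d374e_co.S2
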