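import Pool.Agent.P.MP_5d374e_co.S2.Rigid

/-!
The set of tuples attached to an exists-forall clique instance.
-/

set_option autoImplicit false

namespace Pool.Agent.P.MP_5d374e_co.S2

open Relation

/-- Core values. -/
abbrev Co : Type := ℕ × ℕ × ℕ
/-- Values. -/
abbrev Va : Type := ℕ × Co × Co

/-- real value -/
def rl (p s : ℕ) : Co := (0, p, s)
/-- free switch value -/
def aa (p : ℕ) : Co := (1, p, 0)
/-- target switch value -/
def ab (p b : ℕ) : Co := (2, p, b)
/-- ridge value -/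
def rho (p l : ℕ) : Co := (3, p, l)
/-- position of a core value -/
def var (c : Co) : ℕ := if c.1 = 0 then 2 * c.2.1 else if c.1 = 3 then c.2.2 else 2 * c.2.1 + 1
/-- core value as a value -/
def core (c : Co) : Va := (0, c, c)
/-- private filler of a pair -/
def fill (v w : Co) : Va := (1, v, w)
/-- filler of the hub of a core value -/
def hub (v : Co) : Va := (2, v, v)

@[simp] theorem var_rl (p s : ℕ) : var (rl p s) = 2 * p := rfl
@[simp] theorem var_aa (p : ℕ) : var (aa p) = 2 * p + 1 := rfl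
@[simp] theorem var_ab (p b : ℕ) : var (ab p b) = 2 * p + 1 := rfl
@[simp] theorem var_rho (p l : ℕ) : var (rho p l) = l := rfl
@[simp] theorem core_inj {c d : Co} : core c = core d ↔ c = d := by simp [core]
@[simp] theorem hub_inj {c d : Co} : hub c = hub d ↔ c = d := by simp [hub]
@[simp] theorem fill_inj {c d e f : Co} : fill c d = fill e f ↔ c = e ∧ d = f := by simp [fill]
@[simp] theorem core_ne_fill {c d e : Co} : core c ≠ fill d e := by simp [core, fill]
@[simp] theorem fill_ne_core {c d e : Co} : fill d e ≠ core c := by simp [core, fill]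
@[simp] theorem core_ne_hub {c d : Co} : core c ≠ hub d := by simp [core, hub]
@[simp] theorem hub_ne_core {c d : Co} : hub d ≠ core c := by simp [core, hub]
@[simp] theorem fill_ne_hub {c d e : Co} : fill c d ≠ hub e := by simp [fill, hub]
@[simp] theorem hub_ne_fill {c d e : Co} : hub e ≠ fill c d := by simp [fill, hub]

/-- An exists-forall clique instance. -/
structure Inst where
  /-- number of parts -/
  k : ℕ
  /-- size of each part -/
  D : ℕ
  /-- adjacency -/
  E : ℕ → ℕ → ℕ → ℕ → Prop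
  /-- allowed values for each bit -/
  A : ℕ → ℕ → ℕ → Prop

/-- witness tuple of a pair -/
def tau (v w : Co) (l : ℕ) : Va :=
  if l = var v then core v else if l = var w then core w else fill v w

/-- planted tuple -/
def gad (p b l : ℕ) : Va := if l = 2 * p + 1 then core (ab p b) else core (rho p l)

/-- hub tuple -/
def eta (v : Co) (l : ℕ) : Va := if l = var v then core v else hub v

/-- positions already changed at stage `m` -/
def chg (v : Co) (j m l : ℕ) : Prop := l ≠ var v ∧ 0 < m ∧ (l = j ∨ l + 1 < m)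

instance (v : Co) (j m l : ℕ) : Decidable (chg v j m l) := by
  unfold chg
  infer_instance

/-- staircase from `A` to the hub of `v` -/
def st (A : ℕ → Va) (v : Co) (j m l : ℕ) : Va := if chg v j m l then hub v else A l

/-- real values -/
def real (x : Va) : Prop := x.1 = 0 ∧ x.2.1.1 = 0

namespace Inst

variable (I : Inst)

/-- Pairs of core values that are declared compatible. -/
inductive Lam : Co → Co → Prop
  | rr (p s q t : ℕ) : p < I.k → q < I.k → s < I.D → t < I.D → p ≠ q → I.E p s q t →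
      Lam (rl p s) (rl q t)
  | ar (p q t : ℕ) : p < I.k → q < I.k → t < I.D → p ≠ q → Lam (aa p) (rl q t)
  | a2 (p q : ℕ) : p < I.k → q < I.k → p ≠ q → Lam (aa p) (aa q)
  | br (p b s : ℕ) : p < I.k → b < 2 → s < I.D → I.A p b s → Lam (ab p b) (rl p s)
  | ap (p l : ℕ) : p < I.k → l < 2 * I.k → l ≠ 2 * p + 1 → Lam (aa p) (rho p l)

/-- Staircases. -/
inductive Link : (ℕ → Va) → Co → ℕ → Prop
  | t1 (v w : Co) : I.Lam v w → Link (tau v w) v (var w)
  | t2 (v w : Co) : I.Lam v w → Link (tau v w) w (var v)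
  | g1 (p b : ℕ) : p < I.k → b < 2 → Link (gad p b) (ab p b) (2 * p)
  | g2 (p l : ℕ) : p < I.k → l < 2 * I.k → l ≠ 2 * p + 1 → Link (gad p 0) (rho p l) (2 * p + 1)

/-- restriction to the positions -/
def res (X : ℕ → Va) : Fin (2 * I.k) → Va := fun l => X l

/-- The tuples. -/
def R : Set (Fin (2 * I.k) → Va) := {X | ∃ A v j m, I.Link A v j ∧ X = I.res (st A v j m)}

/-- Solutions for the bits `u`. -/
def Sol (u σ : ℕ → ℕ) : Prop :=
  (∀ p < I.k, σ p < I.D ∧ I.A p (u p) (σ p)) ∧
    ∀ p < I.k, ∀ q < I.k, p ≠ q → I.E p (σ p) q (σ q)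

variable {I}

theorem Lam.var {v w : Co} (h : I.Lam v w) :
    var v ≠ var w ∧ var v < 2 * I.k ∧ var w < 2 * I.k := by
  cases h <;> simp only [var_rl, var_aa, var_ab, var_rho] <;> omega

theorem tau_fst (v w : Co) : tau v w (var v) = core v := by simp [tau]

theorem Lam.tau_snd {v w : Co} (h : I.Lam v w) : tau v w (S2.var w) = core w := by
  simp [tau, h.var.1.symm]

theorem Link.self {A : ℕ → Va} {v : Co} {j : ℕ} (h : I.Link A v j) :
    A (var v) = core v ∧ var v < 2 * I.k ∧ j < 2 * I.k ∧ j ≠ var v := by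
  cases h with
  | t1 v w h => exact ⟨tau_fst _ _, h.var.2.1, h.var.2.2, h.var.1.symm⟩
  | t2 v w h => exact ⟨h.tau_snd, h.var.2.2, h.var.2.1, h.var.1⟩
  | g1 p b h1 h2 => exact ⟨by simp [gad], by simp; omega, by omega, by simp⟩
  | g2 p l h1 h2 h3 => exact ⟨by simp [gad, h3], h2, by omega, h3.symm⟩

theorem Link.ne_hub {A : ℕ → Va} {v : Co} {j : ℕ} (h : I.Link A v j) (l : ℕ) (w : Co) :
    A l ≠ hub w := by
  cases h <;> simp only [tau, gad] <;> split_ifs <;> simp

theorem tau_fill {v w p q : Co} {l : ℕ} (h : tau v w l = fill p q) : v = p ∧ w = q := by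
  unfold tau at h
  split_ifs at h <;> simp_all

theorem tau_core {v w c : Co} {l : ℕ} (h : tau v w l = core c) :
    (c = v ∧ l = var v) ∨ (c = w ∧ l = var w) := by
  unfold tau at h
  split_ifs at h <;> simp_all

theorem gad_ne_fill {p b l : ℕ} {v w : Co} : gad p b l ≠ fill v w := by
  unfold gad
  split_ifs <;> simp

theorem gad_core {p b l : ℕ} {c : Co} (h : gad p b l = core c) :
    (c = ab p b ∧ l = 2 * p + 1) ∨ (c = rho p l ∧ l ≠ 2 * p + 1) := by
  unfold gad at h
  split_ifs at h <;> simp_all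

theorem Link.of_fill {A : ℕ → Va} {v p q : Co} {j l : ℕ} (h : I.Link A v j)
    (e : A l = fill p q) : A = tau p q ∧ I.Lam p q := by
  cases h with
  | t1 v w h =>
    obtain ⟨rfl, rfl⟩ := tau_fill e
    exact ⟨rfl, h⟩
  | t2 v w h =>
    obtain ⟨rfl, rfl⟩ := tau_fill e
    exact ⟨rfl, h⟩
  | g1 => exact absurd e gad_ne_fill
  | g2 => exact absurd e gad_ne_fill

theorem Link.shape {A : ℕ → Va} {v : Co} {j : ℕ} (h : I.Link A v j) (l : ℕ) :
    (∃ p q, A l = fill p q) ∨ ∃ c, A l = core c ∧ var c = l := by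
  cases h <;> simp only [tau, gad] <;> split_ifs <;> simp_all

theorem st_hub {A : ℕ → Va} {v w : Co} {j m l : ℕ} (h : I.Link A v j)
    (e : st A v j m l = hub w) : v = w ∧ chg v j m l := by
  unfold st at e
  split_ifs at e with a
  · exact ⟨hub_inj.1 e, a⟩
  · exact absurd e (h.ne_hub _ _)

theorem st_eq {A : ℕ → Va} {v : Co} {j m l : ℕ} {x : Va} (e : st A v j m l = x)
    (hx : ∀ w, x ≠ hub w) : A l = x ∧ ¬ chg v j m l := by
  unfold st at e
  split_ifs at e with a
  · exact absurd e.symm (hx _)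
  · exact ⟨e, a⟩

theorem st_zero (A : ℕ → Va) (v : Co) (j : ℕ) : st A v j 0 = A := by
  funext l
  simp [st, chg]

theorem Link.mem {A : ℕ → Va} {v : Co} {j : ℕ} (h : I.Link A v j) (m : ℕ) :
    I.res (st A v j m) ∈ I.R := ⟨A, v, j, m, h, rfl⟩

theorem Link.mem0 {A : ℕ → Va} {v : Co} {j : ℕ} (h : I.Link A v j) : I.res A ∈ I.R :=
  st_zero A v j ▸ h.mem 0

theorem Link.st_top {A : ℕ → Va} {v : Co} {j m : ℕ} (h : I.Link A v j) (hm : 2 * I.k < m) :
    I.res (st A v j m) = I.res (eta v) := by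
  funext l
  have := l.2
  simp only [res, st, eta]
  by_cases a : (l : ℕ) = var v
  · rw [if_neg (fun c => c.1 a), if_pos a, a, h.self.1]
  · rw [if_pos ⟨a, by omega, by omega⟩, if_neg a]

theorem Link.two {A : ℕ → Va} {v c d : Co} {j l l' : ℕ} (h : I.Link A v j) (hl : l ≠ l')
    (e : A l = core c) (e' : A l' = core d) :
    I.Lam c d ∨ I.Lam d c ∨ ∃ p b, p < I.k ∧ b < 2 ∧ A = gad p b := by
  have key : ∀ v w, I.Lam v w → tau v w l = core c → tau v w l' = core d →
      I.Lam c d ∨ I.Lam d c := by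
    intro v w h e e'
    rcases tau_core e with ⟨rfl, a⟩ | ⟨rfl, a⟩ <;> rcases tau_core e' with ⟨rfl, b⟩ | ⟨rfl, b⟩
    · omega
    · exact Or.inl h
    · exact Or.inr h
    · omega
  cases h with
  | t1 v w h => exact (key _ _ h e e').imp_right Or.inl
  | t2 v w h => exact (key _ _ h e e').imp_right Or.inl
  | g1 p b h1 h2 => exact Or.inr (Or.inr ⟨p, b, h1, h2, rfl⟩)
  | g2 p l h1 => exact Or.inr (Or.inr ⟨p, 0, h1, by omega, rfl⟩)

theorem two_real {X : Fin (2 * I.k) → Va} (hX : X ∈ I.R) (i j l : Fin (2 * I.k))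
    (hi : real (X i)) (hj : real (X j)) (hl : real (X l)) : i = j ∨ i = l ∨ j = l := by
  obtain ⟨A, v, j', m, h, rfl⟩ := hX
  have key : ∃ a b : ℕ, ∀ i : Fin (2 * I.k), real (I.res (st A v j' m) i) →
      (i : ℕ) = a ∨ (i : ℕ) = b := by
    have k1 : ∀ i : Fin (2 * I.k), real (I.res (st A v j' m) i) → real (A i) := by
      intro i hi
      simp only [res, st] at hi
      split_ifs at hi
      · simp [real, hub] at hi
      · exact hi
    have k2 : ∀ p q : Co, ∀ i, real (tau p q i) → i = var p ∨ i = var q := by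
      intro p q i hi
      by_contra hc
      rw [not_or] at hc
      simp [tau, hc.1, hc.2, real, fill] at hi
    have k3 : ∀ p b i, ¬ real (gad p b i) := by
      intro p b i
      unfold gad
      split_ifs <;> simp [real, core, ab, rho]
    cases h with
    | t1 v w => exact ⟨_, _, fun i hi => k2 _ _ i (k1 i hi)⟩
    | t2 v w => exact ⟨_, _, fun i hi => k2 _ _ i (k1 i hi)⟩
    | g1 => exact ⟨0, 0, fun i hi => absurd (k1 i hi) (k3 _ _ _)⟩
    | g2 => exact ⟨0, 0, fun i hi => absurd (k1 i hi) (k3 _ _ _)⟩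
  obtain ⟨a, b, key⟩ := key
  have := key i hi
  have := key j hj
  have := key l hl
  simp only [Fin.ext_iff]
  omega

section Conn

theorem step_succ {A : ℕ → Va} {v : Co} {j : ℕ} (h : I.Link A v j) (m : ℕ) (i : Fin (2 * I.k))
    (e : chg v j m i ↔ chg v j (m + 1) i) :
    EqvGen (Step I.R i) (I.res (st A v j m)) (I.res (st A v j (m + 1))) := by
  have key : ∀ l : ℕ, l ≠ (if m = 0 then j else m - 1) → st A v j m l = st A v j (m + 1) l := by
    intro l hl
    have : chg v j m l ↔ chg v j (m + 1) l := by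
      unfold chg
      split_ifs at hl <;> omega
    simp only [st, this]
  by_cases a : ∃ d : Fin (2 * I.k), (d : ℕ) = (if m = 0 then j else m - 1) ∧ d ≠ i
  · obtain ⟨d, h1, h2⟩ := a
    exact EqvGen.rel _ _ ⟨h.mem _, h.mem _, d, h2, fun l hl =>
      key l fun c => hl (Fin.ext (c.trans h1.symm))⟩
  · have : I.res (st A v j m) = I.res (st A v j (m + 1)) := by
      funext l
      by_cases b : (l : ℕ) = (if m = 0 then j else m - 1)
      · have : l = i := by
          by_contra c
          exact a ⟨l, b, c⟩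
        subst this
        simp only [res, st, e]
      · exact key l b
    rw [this]
    exact EqvGen.refl _

theorem conn_back {A : ℕ → Va} {v : Co} {j : ℕ} (h : I.Link A v j) (m : ℕ) (i : Fin (2 * I.k))
    (e : ¬ chg v j m i) : EqvGen (Step I.R i) (I.res (st A v j m)) (I.res A) := by
  induction m with
  | zero =>
    rw [st_zero]
    exact EqvGen.refl _
  | succ m ih =>
    have e' : ¬ chg v j m i := by
      unfold chg at e ⊢
      omega
    exact EqvGen.trans _ _ _ (EqvGen.symm _ _ (step_succ h m i (iff_of_false e' e))) (ih e')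

theorem conn_fwd {A : ℕ → Va} {v : Co} {j : ℕ} (h : I.Link A v j) (m : ℕ) (i : Fin (2 * I.k))
    (e : chg v j m i ∨ (i : ℕ) = var v) :
    EqvGen (Step I.R i) (I.res (st A v j m)) (I.res (eta v)) := by
  have key : ∀ n, EqvGen (Step I.R i) (I.res (st A v j m)) (I.res (st A v j (m + n))) := by
    intro n
    induction n with
    | zero => exact EqvGen.refl _
    | succ n ih =>
      refine EqvGen.trans _ _ _ ih (step_succ h (m + n) i ?_)
      unfold chg at e ⊢
      omega
  have := key (2 * I.k + 1)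
  rwa [h.st_top (m := m + (2 * I.k + 1)) (by omega)] at this

theorem conn_anchor {A : ℕ → Va} {v : Co} {j : ℕ} (h : I.Link A v j) (i : Fin (2 * I.k))
    (e : (i : ℕ) = var v) : EqvGen (Step I.R i) (I.res A) (I.res (eta v)) := by
  have := conn_fwd h 0 i (Or.inr e)
  rwa [st_zero] at this

theorem conn_core {A : ℕ → Va} {v c : Co} {j : ℕ} (h : I.Link A v j) (i : Fin (2 * I.k))
    (e : A i = core c) : EqvGen (Step I.R i) (I.res A) (I.res (eta c)) := by
  have k1 : ∀ v w, I.Lam v w → tau v w i = core c →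
      EqvGen (Step I.R i) (I.res (tau v w)) (I.res (eta c)) := by
    intro v w h e
    rcases tau_core e with ⟨rfl, a⟩ | ⟨rfl, a⟩
    · exact conn_anchor (Link.t1 _ _ h) i a
    · exact conn_anchor (Link.t2 _ _ h) i a
  have k2 : ∀ p b, p < I.k → b < 2 → gad p b i = core c →
      EqvGen (Step I.R i) (I.res (gad p b)) (I.res (eta c)) := by
    intro p b h1 h2 e
    rcases gad_core e with ⟨rfl, a⟩ | ⟨rfl, a⟩
    · exact conn_anchor (Link.g1 _ _ h1 h2) i a
    · refine EqvGen.trans _ _ _ (EqvGen.rel _ _ ⟨(Link.g1 _ _ h1 h2).mem0,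
        (Link.g1 p 0 h1 (by omega)).mem0, ⟨2 * p + 1, by omega⟩, fun c => a ?_, fun l hl => ?_⟩)
        (conn_anchor (Link.g2 p i h1 i.2 a) i rfl)
      · rw [← c]
      · have : (l : ℕ) ≠ 2 * p + 1 := fun c => hl (Fin.ext c)
        simp [res, gad, this]
  cases h with
  | t1 v w h => exact k1 _ _ h e
  | t2 v w h => exact k1 _ _ h e
  | g1 p b h1 h2 => exact k2 _ _ h1 h2 e
  | g2 p l h1 => exact k2 _ _ h1 (by omega) e

/-- The root tuple of a value. -/
def root (x : Va) : ℕ → Va := if x.1 = 1 then tau x.2.1 x.2.2 else eta x.2.1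

theorem conn_root {X : Fin (2 * I.k) → Va} (hX : X ∈ I.R) (i : Fin (2 * I.k)) :
    EqvGen (Step I.R i) X (I.res (root (X i))) := by
  obtain ⟨A, v, j, m, h, rfl⟩ := hX
  by_cases a : chg v j m i
  · have : I.res (st A v j m) i = hub v := if_pos a
    rw [this]
    exact conn_fwd h m i (Or.inl a)
  · have : I.res (st A v j m) i = A i := if_neg a
    rw [this]
    refine EqvGen.trans _ _ _ (conn_back h m i a) ?_
    rcases h.shape i with ⟨p, q, e⟩ | ⟨c, e, -⟩
    · rw [e, (h.of_fill e).1]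
      exact EqvGen.refl _
    · rw [e]
      exact conn_core h i e

theorem connB (i : Fin (2 * I.k)) : ∀ X ∈ I.R, ∀ Y ∈ I.R, X i = Y i →
    EqvGen (Step I.R i) X Y := fun _ hX _ hY e =>
  EqvGen.trans _ _ _ (conn_root hX i) (e ▸ EqvGen.symm _ _ (conn_root hY i))

theorem step0_of {i : Fin (2 * I.k)} {X Y : Fin (2 * I.k) → Va} (h : EqvGen (Step I.R i) X Y) :
    EqvGen (Step0 I.R) X Y :=
  EqvGen.mono (r := Step I.R i) (p := Step0 I.R)
    (fun _ _ h => ⟨h.1, h.2.1, h.2.2.imp fun _ a => a.2⟩) X Y h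

theorem conn0_anchor {A : ℕ → Va} {v : Co} {j : ℕ} (h : I.Link A v j) :
    EqvGen (Step0 I.R) (I.res A) (I.res (eta v)) :=
  step0_of (conn_anchor h ⟨var v, h.self.2.1⟩ rfl)

theorem conn0_lam {v w : Co} (h : I.Lam v w) :
    EqvGen (Step0 I.R) (I.res (eta v)) (I.res (eta w)) :=
  EqvGen.trans _ _ _ (EqvGen.symm _ _ (conn0_anchor (Link.t1 _ _ h)))
    (conn0_anchor (Link.t2 _ _ h))

theorem connC (hk : 2 ≤ I.k) : ∀ X ∈ I.R, ∀ Y ∈ I.R, EqvGen (Step0 I.R) X Y := by
  have ka : ∀ p < I.k, EqvGen (Step0 I.R) (I.res (eta (aa p))) (I.res (eta (aa 0))) := by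
    intro p hp
    by_cases a : p = 0
    · subst a
      exact EqvGen.refl _
    · exact conn0_lam (Lam.a2 p 0 hp (by omega) a)
  have kr : ∀ p < I.k, ∀ s < I.D,
      EqvGen (Step0 I.R) (I.res (eta (rl p s))) (I.res (eta (aa 0))) := by
    intro p hp s hs
    have h1 : (if p = 0 then 1 else 0) < I.k := by split_ifs <;> omega
    exact EqvGen.trans _ _ _ (EqvGen.symm _ _ (conn0_lam (Lam.ar _ p s h1 hp hs
      (by split_ifs <;> omega)))) (ka _ h1)
  have kp : ∀ p < I.k, ∀ l < 2 * I.k, l ≠ 2 * p + 1 →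
      EqvGen (Step0 I.R) (I.res (eta (rho p l))) (I.res (eta (aa 0))) := fun p hp l hl h =>
    EqvGen.trans _ _ _ (EqvGen.symm _ _ (conn0_lam (Lam.ap p l hp hl h))) (ka p hp)
  have kb : ∀ p < I.k, ∀ b < 2,
      EqvGen (Step0 I.R) (I.res (eta (ab p b))) (I.res (eta (aa 0))) := by
    intro p hp b hb
    refine EqvGen.trans _ _ _ (EqvGen.symm _ _ (conn0_anchor (Link.g1 p b hp hb))) ?_
    refine EqvGen.trans _ _ _ (step0_of (conn_core (c := rho p (2 * p)) (Link.g1 p b hp hb)
      ⟨2 * p, by omega⟩ (by simp [gad]))) (kp p hp _ (by omega) (by omega))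
  have k1 : ∀ v w, I.Lam v w → EqvGen (Step0 I.R) (I.res (eta v)) (I.res (eta (aa 0))) := by
    intro v w h
    cases h with
    | rr p s q t h1 h2 h3 => exact kr p h1 s h3
    | ar p q t h1 => exact ka p h1
    | a2 p q h1 => exact ka p h1
    | br p b s h1 h2 => exact kb p h1 b h2
    | ap p l h1 => exact ka p h1
  have key : ∀ X ∈ I.R, EqvGen (Step0 I.R) X (I.res (eta (aa 0))) := by
    rintro _ ⟨A, v, j, m, h, rfl⟩
    refine EqvGen.trans _ _ _ (step0_of (conn_fwd h m ⟨var v, h.self.2.1⟩ (Or.inr rfl))) ?_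
    cases h with
    | t1 v w h => exact k1 _ _ h
    | t2 v w h => exact EqvGen.trans _ _ _ (EqvGen.symm _ _ (conn0_lam h)) (k1 _ _ h)
    | g1 p b h1 h2 => exact kb p h1 b h2
    | g2 p l h1 h2 h3 => exact kp p h1 l h2 h3
  exact fun X hX Y hY => EqvGen.trans _ _ _ (key X hX) (EqvGen.symm _ _ (key Y hY))

end Conn

end Inst

end Pool.Agent.P.MP_5d374e_co.S2
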